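import Pool.Agent.Lib.MP_305fdd_al.F2.StmG
import Pool.Agent.Lib.MP_305fdd_al.CC.PChar

set_option autoImplicit false

namespace Pool.Agent.F2

open MvPolynomial Pool.Agent.Lib.MP_305fdd_al Pool.Agent.MP_305fdd_al
open scoped commutatorElement

private theorem p_auniv_gen : Subgroup.closure ({gx, gy} : Set Fr) = ⊤ := by
  have h : ({gx, gy} : Set Fr) = Set.range (FreeGroup.of : Fin 2 → Fr) := by
    ext g
    simp only [Set.mem_insert_iff, Set.mem_singleton_iff, Set.mem_range, gx, gy]
    constructor
    · rintro (rfl | rfl)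
      · exact ⟨0, rfl⟩
      · exact ⟨1, rfl⟩
    · rintro ⟨i, rfl⟩
      fin_cases i
      · exact Or.inl rfl
      · exact Or.inr rfl
  rw [h]
  exact FreeGroup.closure_range_of _

private theorem p_auniv_map {k G R S : Type} [Field k] [Group G] [CommRing R] [Algebra k R] [CommRing S]
    [Algebra k S] {T : G → R} (hT : PC T) (f : R →ₐ[k] S) : PC (fun g => f (T g)) where
  one := by rw [hT.one, map_ofNat]
  comm g h := by rw [hT.comm]
  rel g h := by rw [← map_add, hT.rel, map_mul]

theorem p_auniv (h1 : S_tapc) (h2 : S_br) : S_auniv := by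
  refine ⟨?_, ?_, ?_⟩
  · intro k _ R _ _ T hT
    obtain ⟨hpc, hx, hy, hxy⟩ := h1 k
    refine ⟨aeval ![T gx, T gy, T (gx * gy)], fun g => ?_⟩
    have hp : PC (fun g => (aeval ![T gx, T gy, T (gx * gy)] : Ak k →ₐ[k] R) (TA k g)) :=
      p_auniv_map hpc _
    have e1 := ((h2 k Fr R _).1).1 hp
    have e2 := ((h2 k Fr R T).1).1 hT
    have := CC.PChar.unique p_auniv_gen e1 e2 (by simp [hx]) (by simp [hy]) (by simp [hxy])
    exact congrFun this g
  · intro k _
    obtain ⟨hpc, hx, hy, hxy⟩ := h1 k
    have hadj : Algebra.adjoin k (Set.range (TA k)) = ⊤ := by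
      rw [eq_top_iff, ← MvPolynomial.adjoin_range_X]
      apply Algebra.adjoin_mono
      rintro _ ⟨i, rfl⟩
      fin_cases i
      · exact ⟨gx, hx⟩
      · exact ⟨gy, hy⟩
      · exact ⟨gx * gy, hxy⟩
    refine ⟨hadj, ?_⟩
    have hmul : ∀ a ∈ Submodule.span k ({1} ∪ Set.range (TA k)), ∀ b ∈ Submodule.span k ({1} ∪ Set.range (TA k)),
        a * b ∈ Submodule.span k ({1} ∪ Set.range (TA k)) := by
      intro a ha b hb
      have h3 := Submodule.mul_mem_mul ha hb
      rw [Submodule.span_mul_span] at h3
      refine (Submodule.span_le.2 ?_) h3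
      rintro _ ⟨u, hu, v, hv, rfl⟩
      simp only [SetLike.mem_coe]
      rcases hu with hu | ⟨g, rfl⟩
      · rw [Set.mem_singleton_iff] at hu
        subst hu
        simp only [one_mul]
        exact Submodule.subset_span hv
      · rcases hv with hv | ⟨h, rfl⟩
        · rw [Set.mem_singleton_iff] at hv
          subst hv
          simp only [mul_one]
          exact Submodule.subset_span (Or.inr ⟨g, rfl⟩)
        · rw [← hpc.rel]
          exact Submodule.add_mem _ (Submodule.subset_span (Or.inr ⟨_, rfl⟩))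
            (Submodule.subset_span (Or.inr ⟨_, rfl⟩))
    rw [eq_top_iff]
    intro a _
    have ha : a ∈ Algebra.adjoin k (Set.range (TA k)) := by rw [hadj]; trivial
    induction ha using Algebra.adjoin_induction with
    | mem x hx => exact Submodule.subset_span (Or.inr hx)
    | algebraMap r =>
      rw [Algebra.algebraMap_eq_smul_one]
      exact Submodule.smul_mem _ _ (Submodule.subset_span (Or.inl rfl))
    | add x y _ _ hx hy => exact Submodule.add_mem _ (hx trivial) (hy trivial)
    | mul x y _ _ hx hy => exact hmul x (hx trivial) y (hy trivial)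
  · intro k _
    obtain ⟨hpc, hx, hy, hxy⟩ := h1 k
    rw [((h2 k Fr (Ak k) (TA k)).2 hpc).2.2.2 gx gy, hx, hy, hxy, kap]
    ring

end Pool.Agent.F2
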