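import Pool.Agent.Lib.MP_305fdd_al.F2.StmG

/-!
# MP_305fdd_al (`F_2`), section G: piece `bas`
-/

set_option autoImplicit false

namespace Pool.Agent.F2

open MvPolynomial Pool.Agent.Lib.MP_305fdd_al Pool.Agent.MP_305fdd_al
open scoped commutatorElement

private theorem p_bas_kap (p : ℕ) [Fact p.Prime] (k : Type) [Field k] [CharP k p] :
    inc p k (kap (ZMod p)) = kap k := by
  unfold kap inc
  simp only [map_sub, map_add, map_mul, map_pow, map_X]
  congr 1
  exact map_ofNat _ 4

section

variable (p : ℕ) [Fact p.Prime] (k : Type) [Field k] [CharP k p] {S : Type} (c : S → k)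

/-- the map `b ↦ ∑ c_s inc b_s` -/
private noncomputable def p_bas_Th : (S →₀ Ak (ZMod p)) →+ Ak k :=
  Finsupp.liftAddHom fun s => (AddMonoidHom.mulLeft (C (c s))).comp (inc p k).toAddMonoidHom

private theorem p_bas_Th_eq (b : S →₀ Ak (ZMod p)) :
    p_bas_Th p k c b = b.sum fun s q => C (c s) * inc p k q := rfl

private theorem p_bas_Th_single (s : S) (q : Ak (ZMod p)) :
    p_bas_Th p k c (Finsupp.single s q) = C (c s) * inc p k q := by
  rw [p_bas_Th_eq, Finsupp.sum_single_index]
  rw [map_zero, mul_zero]

private theorem p_bas_Th_smul (q : Ak (ZMod p)) (b : S →₀ Ak (ZMod p)) :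
    p_bas_Th p k c (q • b) = inc p k q * p_bas_Th p k c b := by
  induction b using Finsupp.induction_linear with
  | zero => rw [smul_zero, map_zero, mul_zero]
  | add b b' h h' => rw [smul_add, map_add, map_add, h, h', mul_add]
  | single s r =>
    rw [Finsupp.smul_single, p_bas_Th_single, p_bas_Th_single, smul_eq_mul, map_mul]
    ring

end

theorem p_bas : S_bas := by
  classical
  intro p _ k _ _
  let _ : Algebra (ZMod p) k := ZMod.algebra k p
  have halg : ∀ m : ZMod p, (ZMod.castHom (dvd_refl p) k) m = algebraMap (ZMod p) k m :=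
    fun m => rfl
  obtain ⟨S, ⟨B⟩⟩ : ∃ S : Type, Nonempty (Module.Basis S (ZMod p) k) :=
    ⟨_, ⟨Module.Basis.ofVectorSpace (ZMod p) k⟩⟩
  have hco : ∀ (b : S →₀ Ak (ZMod p)) (m : Fin 3 →₀ ℕ) (s : S),
      B.repr (coeff m (p_bas_Th p k B b)) s = coeff m (b s) := by
    intro b m s
    induction b using Finsupp.induction_linear with
    | zero => rw [map_zero, coeff_zero, map_zero, Finsupp.zero_apply, Finsupp.zero_apply,
        coeff_zero]
    | add b b' h h' => rw [map_add, coeff_add, map_add, Finsupp.add_apply, h, h',
        Finsupp.add_apply, coeff_add]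
    | single t q =>
      rw [p_bas_Th_single, coeff_C_mul]
      unfold inc
      rw [coeff_map, halg, mul_comm, ← Algebra.smul_def, map_smul, Module.Basis.repr_self,
        Finsupp.smul_single, smul_eq_mul, mul_one, Finsupp.single_apply, Finsupp.single_apply]
      by_cases h : t = s
      · rw [if_pos h, if_pos h]
      · rw [if_neg h, if_neg h, coeff_zero]
  have hinj : ∀ b b' : S →₀ Ak (ZMod p), p_bas_Th p k B b = p_bas_Th p k B b' → b = b' := by
    intro b b' h
    ext s m
    rw [← hco b m s, h, hco b' m s]
  have hsurj : ∀ a : Ak k, ∃ b, p_bas_Th p k B b = a := by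
    intro a
    induction a using MvPolynomial.induction_on' with
    | monomial u x =>
      refine ⟨(B.repr x).mapRange (fun z => monomial u z) (by simp), ?_⟩
      have h1 : ∀ r : S →₀ ZMod p, p_bas_Th p k B (r.mapRange (fun z => monomial u z)
          (by simp)) = monomial u (r.sum fun s z => z • B s) := by
        intro r
        induction r using Finsupp.induction_linear with
        | zero => rw [Finsupp.mapRange_zero, map_zero, Finsupp.sum_zero_index, map_zero]
        | add r r' h h' =>
          rw [Finsupp.mapRange_add (by intro x y; rw [map_add]), map_add, h, h',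
            Finsupp.sum_add_index' (fun s => by rw [zero_smul]) (fun s _ _ => by rw [add_smul]),
            map_add]
        | single s z =>
          rw [Finsupp.mapRange_single, p_bas_Th_single, Finsupp.sum_single_index (by
            rw [zero_smul])]
          unfold inc
          rw [map_monomial, C_mul_monomial, halg, Algebra.smul_def, mul_comm]
      rw [h1]
      congr 1
      have h2 := B.linearCombination_repr x
      rwa [Finsupp.linearCombination_apply] at h2
    | add a a' h h' =>
      obtain ⟨b, rfl⟩ := h
      obtain ⟨b', rfl⟩ := h'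
      exact ⟨b + b', map_add _ _ _⟩
  refine ⟨S, B, ?_, ?_, ?_⟩
  · intro x
    refine ⟨B.repr x, ?_⟩
    have h1 := B.linearCombination_repr x
    rw [Finsupp.linearCombination_apply] at h1
    calc x = (B.repr x).sum fun i a => a • B i := h1.symm
      _ = _ := Finsupp.sum_congr fun s _ => by rw [halg, Algebra.smul_def]
  · intro a
    obtain ⟨b, hb⟩ := hsurj a
    refine ⟨b, hb.symm, fun b' hb' => ?_⟩
    exact hinj b' b (by rw [hb]; exact hb'.symm)
  · intro n b hd s
    obtain ⟨a, ha⟩ := hd
    obtain ⟨b', rfl⟩ := hsurj a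
    have h1 : p_bas_Th p k B b = p_bas_Th p k B (kap (ZMod p) ^ n • b') := by
      rw [p_bas_Th_smul, map_pow, p_bas_kap]
      exact ha
    rw [hinj _ _ h1]
    exact ⟨b' s, rfl⟩

end Pool.Agent.F2
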