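import Pool.Agent.Lib.MP_305fdd_al.F2.StmG

/-!
# MP_305fdd_al (`F_2`), section G: piece `bch`
-/

set_option autoImplicit false

namespace Pool.Agent.F2

open MvPolynomial Pool.Agent.Lib.MP_305fdd_al Pool.Agent.MP_305fdd_al
open scoped commutatorElement

private theorem p_bch_kap (p : ℕ) [Fact p.Prime] (k : Type) [Field k] [CharP k p] :
    inc p k (kap (ZMod p)) = kap k := by
  unfold kap inc
  simp only [map_sub, map_add, map_mul, map_pow, map_X]
  congr 1
  exact map_ofNat _ 4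

private theorem p_bch_TA (h2 : S_tapc) (h3 : S_auniv) (p : ℕ) [Fact p.Prime] (k : Type)
    [Field k] [CharP k p] (g : Fr) : inc p k (TA (ZMod p) g) = TA k g := by
  let _ : Algebra (ZMod p) k := ZMod.algebra k p
  obtain ⟨hpc, hx, hy, hxy⟩ := h2 k
  obtain ⟨-, hx', hy', hxy'⟩ := h2 (ZMod p)
  obtain ⟨φ, hφ⟩ := h3.1 (ZMod p) (Ak k) (TA k) hpc
  have h4 : (φ : Ak (ZMod p) →+* Ak k) = inc p k := by
    refine MvPolynomial.ringHom_ext (fun r => ?_) (fun i => ?_)
    · have : ((φ : Ak (ZMod p) →+* Ak k).comp C) = (inc p k).comp C := Subsingleton.elim _ _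
      exact congrArg (fun q => q r) this
    · have h5 : φ (X i) = X i := by
        fin_cases i
        · have := hφ gx
          rw [hx, hx'] at this
          exact this
        · have := hφ gy
          rw [hy, hy'] at this
          exact this
        · have := hφ (gx * gy)
          rw [hxy, hxy'] at this
          exact this
      unfold inc
      rw [map_X]
      exact h5
  rw [← h4]
  exact hφ g

private theorem p_bch_sup {Λ : Type} [Group Λ] (f : Fr →* Λ)
    (cl : Λ →* Multiplicative (ℤ × ℤ)) (he : Emb Λ f cl) (l : Λ) (n : ℕ) :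
    ∃ g : Fr, f g * l⁻¹ ∈ (commutator Λ).lowerCentralSeries n := by
  have h1 : l ∈ f.range ⊔ (commutator Λ).lowerCentralSeries n := by
    rw [he.sup n]
    exact Subgroup.mem_top l
  obtain ⟨y, ⟨g, rfl⟩, z, hz, rfl⟩ := Subgroup.mem_sup_of_normal_right.1 h1
  refine ⟨g, ?_⟩
  have e : f g * (f g * z)⁻¹ = f g * z⁻¹ * (f g)⁻¹ := by group
  rw [e]
  exact Subgroup.Normal.conj_mem inferInstance _ (Subgroup.inv_mem _ hz) _

theorem p_bch (h1 : S_uni) (h2 : S_tapc) (h3 : S_auniv) : S_bch := by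
  intro p _ k _ _ Λ _ f cl hE D _ _ T β D' _ _ T' β' hT hT'
  let _ : Algebra (ZMod p) k := ZMod.algebra k p
  let _ : Algebra (ZMod p) D' := ((algebraMap k D').comp (ZMod.castHom (dvd_refl p) k)).toAlgebra
  obtain ⟨ψ₀, hψ₀⟩ := (h1.1 (ZMod p) Λ).2.2 D' T' hT'.pc
  obtain ⟨π, hπ⟩ := (h1.1 (ZMod p) Λ).2.2 D T hT.pc
  have hπs : Function.Surjective π := by
    have h4 : Algebra.adjoin (ZMod p) (Set.range T) ≤ π.range := by
      rw [Algebra.adjoin_le_iff]
      rintro _ ⟨l, rfl⟩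
      exact ⟨tu (ZMod p) l, hπ l⟩
    rw [hT.gen] at h4
    intro b
    exact h4 Algebra.mem_top
  have hι : ∀ n, ∃ ι : (Ak (ZMod p) ⧸ (Ideal.span {kap (ZMod p) ^ n} : Ideal (Ak (ZMod p)))) →+*
      (Ak k ⧸ (Ideal.span {kap k ^ n} : Ideal (Ak k))),
      ∀ a, ι (Ideal.Quotient.mk _ a) = Ideal.Quotient.mk _ (inc p k a) := by
    intro n
    refine ⟨Ideal.Quotient.lift _ ((Ideal.Quotient.mk _).comp (inc p k)) ?_, fun a => rfl⟩
    intro a ha
    rw [Ideal.mem_span_singleton] at ha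
    obtain ⟨b, rfl⟩ := ha
    rw [RingHom.comp_apply, Ideal.Quotient.eq_zero_iff_mem, Ideal.mem_span_singleton, map_mul,
      map_pow, p_bch_kap]
    exact Dvd.intro _ rfl
  choose ι hι using hι
  have key : ∀ n (b : Uni (ZMod p) Λ), β' n (ψ₀ b) = ι n (β n (π b)) := by
    intro n b
    have h5 : ((β' n : D' →+* _).comp (ψ₀ : Uni (ZMod p) Λ →+* D')) =
        (ι n).comp ((β n : D →+* _).comp (π : Uni (ZMod p) Λ →+* D)) := by
      refine Ideal.Quotient.ringHom_ext ?_
      refine MvPolynomial.ringHom_ext' (Subsingleton.elim _ _) (fun l => ?_)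
      change β' n (ψ₀ (tu (ZMod p) l)) = ι n (β n (π (tu (ZMod p) l)))
      obtain ⟨g, hg⟩ := p_bch_sup f cl hE l (2 * n)
      rw [hψ₀, hπ, hT'.beta n g l hg, hT.beta n g l hg, hι, p_bch_TA h2 h3]
    exact congrArg (fun q => q b) h5
  have hker : RingHom.ker (π : Uni (ZMod p) Λ →+* D) ≤
      RingHom.ker (ψ₀ : Uni (ZMod p) Λ →+* D') := by
    intro b hb
    rw [RingHom.mem_ker] at hb ⊢
    have hb' : π b = 0 := hb
    refine hT'.sep _ fun n => ?_
    change β' n (ψ₀ b) = 0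
    rw [key, hb', map_zero, map_zero]
  let ψ : D →+* D' := RingHom.liftOfSurjective (π : Uni (ZMod p) Λ →+* D) hπs
    ⟨(ψ₀ : Uni (ZMod p) Λ →+* D'), hker⟩
  have hψ : ∀ b, ψ (π b) = ψ₀ b := fun b =>
    RingHom.liftOfSurjective_comp_apply (π : Uni (ZMod p) Λ →+* D) hπs
      ⟨(ψ₀ : Uni (ZMod p) Λ →+* D'), hker⟩ b
  have hψT : ∀ l, ψ (T l) = T' l := by
    intro l
    rw [← hπ, hψ, hψ₀]
  refine ⟨ψ, hψT, ?_, ?_⟩
  · have h5 : Algebra.adjoin k (Set.range ψ) = ⊤ := by
      rw [eq_top_iff, ← hT'.gen]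
      refine Algebra.adjoin_mono ?_
      rintro _ ⟨l, rfl⟩
      exact ⟨T l, hψT l⟩
    have h6 : Submonoid.closure (Set.range ψ) = MonoidHom.mrange (ψ : D →* D') := by
      have : (Set.range ψ) = ((MonoidHom.mrange (ψ : D →* D') : Submonoid D') : Set D') := by
        ext z
        rfl
      rw [this, Submonoid.closure_eq]
    have h7 := Algebra.adjoin_eq_span k (Set.range ψ)
    rw [h5, h6] at h7
    exact h7.symm
  · intro n b a hb
    obtain ⟨b₀, rfl⟩ := hπs b
    rw [hψ, key, hb, hι]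

end Pool.Agent.F2
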