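import Pool.Agent.Lib.MP_305fdd_al.F2.StmG

/-!
# MP_305fdd_al (`F_2`), section G: piece `bcl`
-/

set_option autoImplicit false

namespace Pool.Agent.F2

open MvPolynomial Pool.Agent.Lib.MP_305fdd_al Pool.Agent.MP_305fdd_al
open scoped commutatorElement

private theorem p_bcl_span {p : ℕ} [Fact p.Prime] {k : Type} [Field k] [CharP k p] {S : Type}
    (c : S → k) (hc : ∀ x : k, ∃ a : S →₀ ZMod p, x = a.sum fun s m =>
        (ZMod.castHom (dvd_refl p) k m) * c s)
    {D D' : Type} [CommRing D] [Algebra (ZMod p) D] [CommRing D'] [Algebra k D'] (ψ : D →+* D')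
    (hψ : Submodule.span k (Set.range ψ) = ⊤) (b : D') :
    ∃ d : S →₀ D, b = d.sum fun s m => algebraMap k D' (c s) * ψ m := by
  classical
  let W : AddSubmonoid D' := AddMonoidHom.mrange (Finsupp.liftAddHom fun s : S =>
    (AddMonoidHom.mulLeft (algebraMap k D' (c s))).comp ψ.toAddMonoidHom)
  have hmem : ∀ b : D', b ∈ W ↔ ∃ d : S →₀ D, b = d.sum fun s m => algebraMap k D' (c s) * ψ m := by
    intro b
    constructor
    · rintro ⟨d, rfl⟩
      exact ⟨d, rfl⟩
    · rintro ⟨d, rfl⟩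
      exact ⟨d, rfl⟩
  have hcomp : ∀ m : ZMod p, algebraMap k D' (ZMod.castHom (dvd_refl p) k m) =
      ψ (algebraMap (ZMod p) D m) := by
    intro m
    have h : (algebraMap k D').comp (ZMod.castHom (dvd_refl p) k) =
        ψ.comp (algebraMap (ZMod p) D) := Subsingleton.elim _ _
    exact congrArg (fun q => q m) h
  have h1 : ∀ (x : k) (d : D), x • ψ d ∈ W := by
    intro x d
    obtain ⟨a, rfl⟩ := hc x
    rw [hmem]
    refine ⟨a.mapRange (fun m => algebraMap (ZMod p) D m * d) (by rw [map_zero, zero_mul]), ?_⟩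
    rw [Finsupp.sum_mapRange_index (fun s => by rw [map_zero, mul_zero]), Algebra.smul_def,
      Finsupp.sum, Finsupp.sum, map_sum, Finset.sum_mul]
    refine Finset.sum_congr rfl fun s _ => ?_
    rw [map_mul, map_mul, hcomp]
    ring
  have h2 : ∀ (x : k) (b : D'), b ∈ W → x • b ∈ W := by
    intro x b hb
    obtain ⟨d, rfl⟩ := (hmem b).1 hb
    rw [Finsupp.sum, Finset.smul_sum]
    refine W.sum_mem fun s _ => ?_
    rw [← Algebra.smul_def, smul_smul]
    exact h1 _ _
  rw [← hmem]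
  have hb : b ∈ Submodule.span k (Set.range ψ) := by
    rw [hψ]
    exact Submodule.mem_top
  induction hb using Submodule.span_induction with
  | mem y hy =>
    obtain ⟨d, rfl⟩ := hy
    have := h1 1 d
    rwa [one_smul] at this
  | zero => exact W.zero_mem
  | add y z _ _ hy hz => exact W.add_mem hy hz
  | smul x y _ hy => exact h2 x y hy

theorem p_bcl (h1 : S_bch) (h2 : S_bas) : S_bcl := by
  classical
  intro p _ k _ _ Λ _ f cl hE D _ _ T β D' _ _ T' β' hT hT' hloc
  obtain ⟨e, he, hloc⟩ := hloc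
  obtain ⟨ψ, hψT, hψs, hψβ⟩ := h1 p k Λ f cl hE D T β D' T' β' hT hT'
  obtain ⟨S, c, hc, -, hdiv⟩ := h2 p k
  refine ⟨ψ e, ?_, ?_⟩
  · have h3 := hψβ 1 e 1 (by rw [he, map_one])
    rw [map_one, map_one] at h3
    exact h3
  · intro b hb
    obtain ⟨d, rfl⟩ := p_bcl_span c hc ψ hψs b
    have hex : ∀ m : D, ∃ a, β 1 m = Ideal.Quotient.mk _ a ∧ (m = 0 → a = 0) := by
      intro m
      by_cases hm : m = 0
      · refine ⟨0, ?_, fun _ => rfl⟩
        rw [hm, map_zero, map_zero]
      · obtain ⟨a, ha⟩ := Ideal.Quotient.mk_surjective (β 1 m)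
        exact ⟨a, ha.symm, fun h => absurd h hm⟩
    choose A hA hA0 using hex
    have h3 : β' 1 (d.sum fun s m => algebraMap k D' (c s) * ψ m) =
        Ideal.Quotient.mk _ ((d.mapRange A (hA0 0 rfl)).sum fun s q => C (c s) * inc p k q) := by
      rw [Finsupp.sum_mapRange_index (fun s => by rw [map_zero, mul_zero]), Finsupp.sum,
        Finsupp.sum, map_sum, map_sum]
      refine Finset.sum_congr rfl fun s _ => ?_
      rw [map_mul, map_mul, hψβ 1 (d s) (A (d s)) (hA _), AlgHom.commutes]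
      rfl
    rw [h3, Ideal.Quotient.eq_zero_iff_mem, Ideal.mem_span_singleton] at hb
    have h4 := hdiv 1 _ hb
    have h5 : ∀ s, ∃ d', e * d s = (T ⁅f gx, f gy⁆ - 2) * d' ∧ (d s = 0 → d' = 0) := by
      intro s
      by_cases hs : d s = 0
      · refine ⟨0, ?_, fun _ => rfl⟩
        rw [hs, mul_zero, mul_zero]
      · have h6 : β 1 (d s) = 0 := by
          rw [hA, Ideal.Quotient.eq_zero_iff_mem, Ideal.mem_span_singleton]
          have h7 := h4 s
          rwa [Finsupp.mapRange_apply] at h7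
        obtain ⟨d', hd'⟩ := hloc _ h6
        exact ⟨d', hd', fun h => absurd h hs⟩
    choose d' hd' hd0 using h5
    refine ⟨∑ s ∈ d.support, algebraMap k D' (c s) * ψ (d' s), ?_⟩
    rw [Finsupp.sum, Finset.mul_sum, Finset.mul_sum]
    refine Finset.sum_congr rfl fun s _ => ?_
    have h8 : ψ (T ⁅f gx, f gy⁆ - 2) = T' ⁅f gx, f gy⁆ - 2 := by
      rw [map_sub, hψT]
      congr 1
      exact map_ofNat ψ 2
    rw [← h8, mul_left_comm, ← map_mul, hd' s, map_mul]
    ring

end Pool.Agent.F2
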