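import Pool.Agent.Lib.MP_305fdd_al.F2.StmG

/-!
# MP_305fdd_al, F_2: [GB beta]
-/

set_option autoImplicit false

namespace Pool.Agent.F2

open MvPolynomial Pool.Agent.Lib.MP_305fdd_al Pool.Agent.MP_305fdd_al
open scoped commutatorElement

private theorem p_beta_kap0 (k : Type) [Field k] : kap k ≠ 0 := by
  intro h
  have h1 := congrArg (MvPolynomial.eval (![0, 0, 0] : Fin 3 → k)) h
  have h2 := congrArg (MvPolynomial.eval (![1, 0, 0] : Fin 3 → k)) h
  simp [kap] at h1 h2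
  have h4 : (4 : k) = 0 := by simpa using h1
  rw [h4] at h2
  simp at h2

private theorem p_beta_kapu (k : Type) [Field k] : ¬ IsUnit (kap k) := by
  intro h
  have h1 := h.map (MvPolynomial.eval (![2, 0, 0] : Fin 3 → k))
  have h2 : MvPolynomial.eval (![2, 0, 0] : Fin 3 → k) (kap k) = 0 := by
    simp [kap]
    norm_num
  rw [h2] at h1
  exact not_isUnit_zero h1

section one

variable {k Λ : Type} [Field k] [Group Λ] {f : Fr →* Λ} {cl : Λ →* Multiplicative (ℤ × ℤ)}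

/-- representatives in `Fr` -/
private def p_beta_R (f : Fr →* Λ) (c : ℕ) (g : Fr) (l : Λ) : Prop :=
  f g * l⁻¹ ∈ (commutator Λ).lowerCentralSeries c

private theorem p_beta_iff (c : ℕ) (g : Fr) (l : Λ) : p_beta_R f c g l ↔
    (QuotientGroup.mk (f g) : Λ ⧸ (commutator Λ).lowerCentralSeries c) = QuotientGroup.mk l := by
  rw [QuotientGroup.eq_iff_div_mem, div_eq_mul_inv]
  rfl

private theorem p_beta_ex (hE : Emb Λ f cl) (c : ℕ) (l : Λ) : ∃ g, p_beta_R f c g l := by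
  have h1 : l ∈ f.range ⊔ (commutator Λ).lowerCentralSeries c := by
    rw [hE.sup c]
    exact Subgroup.mem_top l
  rw [← SetLike.mem_coe, Subgroup.mul_normal] at h1
  obtain ⟨_, ⟨g, rfl⟩, γ, hγ, rfl⟩ := h1
  refine ⟨g, ?_⟩
  rw [p_beta_iff]
  show (QuotientGroup.mk (f g) : Λ ⧸ (commutator Λ).lowerCentralSeries c) =
    QuotientGroup.mk (f g * γ)
  rw [QuotientGroup.eq, inv_mul_cancel_left]
  exact hγ

private theorem p_beta_wd (h2 : S_kill) (hE : Emb Λ f cl) (n : ℕ) {g g' : Fr} {l : Λ}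
    (hg : p_beta_R f (2 * n) g l) (hg' : p_beta_R f (2 * n) g' l) :
    Ideal.Quotient.mk (Ideal.span {kap k ^ n} : Ideal (Ak k)) (TA k g) =
      Ideal.Quotient.mk _ (TA k g') := by
  have h1 : f (g * g'⁻¹) ∈ (commutator Λ).lowerCentralSeries (2 * n) := by
    have h3 := mul_mem hg (inv_mem hg')
    have h4 : f g * l⁻¹ * (f g' * l⁻¹)⁻¹ = f (g * g'⁻¹) := by
      rw [map_mul, map_inv]
      group
    rwa [h4] at h3
  have h3 : g * g'⁻¹ ∈ (commutator Fr).lowerCentralSeries (2 * n) := by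
    rw [← hE.com]
    exact h1
  have h4 := h2 k n (g * g'⁻¹) g' h3
  rw [inv_mul_cancel_right] at h4
  rw [Ideal.Quotient.eq, Ideal.mem_span_singleton]
  exact h4

private theorem p_beta_one (hT : S_tapc) (h2 : S_kill) (h3 : S_uni) (hE : Emb Λ f cl) (n : ℕ) :
    ∃ β : Uni k Λ →ₐ[k] Ak k ⧸ (Ideal.span {kap k ^ n} : Ideal (Ak k)),
      ∀ (g : Fr) (l : Λ), p_beta_R f (2 * n) g l →
        β (tu k l) = Ideal.Quotient.mk _ (TA k g) := by
  have hPC := (hT k).1
  choose r hr using p_beta_ex hE (2 * n)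
  have hwd : ∀ (g : Fr) (l : Λ), p_beta_R f (2 * n) g l →
      Ideal.Quotient.mk (Ideal.span {kap k ^ n} : Ideal (Ak k)) (TA k (r l)) =
      Ideal.Quotient.mk _ (TA k g) := fun g l hg => p_beta_wd h2 hE n (hr l) hg
  have hmul : ∀ (g g' : Fr) (l l' : Λ), p_beta_R f (2 * n) g l → p_beta_R f (2 * n) g' l' →
      p_beta_R f (2 * n) (g * g') (l * l') := by
    intro g g' l l' hg hg'
    rw [p_beta_iff] at hg hg' ⊢
    rw [map_mul, QuotientGroup.mk_mul, hg, hg', ← QuotientGroup.mk_mul]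
  have hinv : ∀ (g : Fr) (l : Λ), p_beta_R f (2 * n) g l → p_beta_R f (2 * n) g⁻¹ l⁻¹ := by
    intro g l hg
    rw [p_beta_iff] at hg ⊢
    rw [map_inv, QuotientGroup.mk_inv, hg, ← QuotientGroup.mk_inv]
  have hone : p_beta_R f (2 * n) 1 1 := by
    rw [p_beta_iff, map_one]
  have hpc : PC (fun l : Λ => Ideal.Quotient.mk (Ideal.span {kap k ^ n} : Ideal (Ak k))
      (TA k (r l))) := by
    refine ⟨?_, fun l l' => ?_, fun l l' => ?_⟩
    · show Ideal.Quotient.mk _ (TA k (r 1)) = 2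
      rw [hwd 1 1 hone, hPC.one, map_ofNat]
    · show Ideal.Quotient.mk _ (TA k (r (l * l'))) = Ideal.Quotient.mk _ (TA k (r (l' * l)))
      rw [hwd _ _ (hmul _ _ _ _ (hr l) (hr l')), hwd _ _ (hmul _ _ _ _ (hr l') (hr l)), hPC.comm]
    · show Ideal.Quotient.mk _ (TA k (r (l * l'))) + Ideal.Quotient.mk _ (TA k (r (l * l'⁻¹))) =
        Ideal.Quotient.mk _ (TA k (r l)) * Ideal.Quotient.mk _ (TA k (r l'))
      rw [hwd _ _ (hmul _ _ _ _ (hr l) (hr l')),
        hwd _ _ (hmul _ _ _ _ (hr l) (hinv _ _ (hr l'))), ← map_add, hPC.rel, map_mul]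
  obtain ⟨β, hβ⟩ := (h3.1 k Λ).2.2 _ _ hpc
  exact ⟨β, fun g l hg => by rw [hβ]; exact hwd g l hg⟩

end one

theorem p_beta (h1 : S_tapc) (h2 : S_kill) (h3 : S_uni) : S_beta := by
  intro k _ Λ _ f cl hE
  choose β hβ using fun n => p_beta_one (k := k) h1 h2 h3 hE n
  refine ⟨β, fun n g l hg => hβ n g l hg, fun m n hmn b => ?_⟩
  have hle : m ≤ n := by
    rw [← pow_dvd_pow_iff (p_beta_kap0 k) (p_beta_kapu k)]
    exact (Ideal.span_singleton_le_span_singleton).1 hmn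
  have hb : b ∈ Algebra.adjoin k (Set.range (tu k : Λ → Uni k Λ)) := by
    rw [(h3.1 k Λ).2.1]
    exact Algebra.mem_top
  induction hb using Algebra.adjoin_induction with
  | mem b hb =>
    obtain ⟨l, rfl⟩ := hb
    obtain ⟨g, hg⟩ := p_beta_ex hE (2 * n) l
    have hg' : p_beta_R f (2 * m) g l :=
      Subgroup.lowerCentralSeries_antitone (commutator Λ) (Nat.mul_le_mul_left 2 hle) hg
    rw [hβ n g l hg, hβ m g l hg', Ideal.Quotient.factor_mk]
  | algebraMap r =>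
    rw [AlgHom.commutes, AlgHom.commutes]
    rfl
  | add u v _ _ hu hv => rw [map_add, map_add, hu, hv, map_add]
  | mul u v _ _ hu hv => rw [map_mul, map_mul, hu, hv, map_mul]

end Pool.Agent.F2
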