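import Pool.Agent.Lib.MP_305fdd_al.F2.StmG

/-!
# MP_305fdd_al, F_2: [GB br]
-/

set_option autoImplicit false

namespace Pool.Agent.F2

open MvPolynomial Pool.Agent.Lib.MP_305fdd_al Pool.Agent.MP_305fdd_al
open scoped commutatorElement

theorem p_br : S_br := by
  intro k _ G _ R _ _ T
  have h1 : ∀ h : G, algebraMap k R (((1 : G →* kˣ) h : kˣ) : k) = 1 := fun h => by
    rw [MonoidHom.one_apply, Units.val_one, map_one]
  refine ⟨⟨fun hT => ⟨hT.one, hT.comm, fun g h => ?_⟩, fun hT => ⟨hT.one, hT.comm, fun g h => ?_⟩⟩,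
    fun hT => ?_⟩
  · rw [h1, one_mul, hT.rel]
  · have := hT.rel g h
    rw [h1, one_mul] at this
    exact this
  · have hinv : ∀ g, T g⁻¹ = T g := fun g => by
      have h2 := hT.rel 1 g
      rw [one_mul, one_mul, hT.one] at h2
      linear_combination h2
    have hsq : ∀ g, T (g * g) = T g ^ 2 - 2 := fun g => by
      have h2 := hT.rel g g
      rw [mul_inv_cancel, hT.one] at h2
      linear_combination h2
    have hconj : ∀ g h, T (h * g * h⁻¹) = T g := fun g h => by
      rw [hT.comm (h * g) h⁻¹, inv_mul_cancel_left]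
    refine ⟨hinv, hsq, hconj, fun g h => ?_⟩
    have e1 := hT.rel (g * h) (g⁻¹ * h⁻¹)
    have e2 : g * h * (g⁻¹ * h⁻¹) = ⁅g, h⁆ := by
      rw [commutatorElement_def]
      group
    have e3 : T (g * h * (g⁻¹ * h⁻¹)⁻¹) = T (g * g * h * h) := by
      have e4 : g * h * (g⁻¹ * h⁻¹)⁻¹ = (g * h * h) * g := by group
      have e5 : g * g * h * h = g * (g * h * h) := by group
      rw [e4, e5, hT.comm]
    have e6 : T (g⁻¹ * h⁻¹) = T (g * h) := by
      rw [← mul_inv_rev, hinv, hT.comm]
    have e7 := hT.rel (g * g * h) h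
    rw [mul_inv_cancel_right, hsq] at e7
    have e8 := hT.rel (g * h) g
    have e9 : T (g * h * g) = T (g * g * h) := by
      rw [hT.comm (g * h) g, mul_assoc]
    rw [hconj h g, e9] at e8
    rw [e2, e3, e6] at e1
    linear_combination e1 - e7 - T h * e8

end Pool.Agent.F2
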