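import Pool.Agent.Lib.MP_305fdd_al.F2.StmG

set_option autoImplicit false

namespace Pool.Agent.F2

open AddMonoidAlgebra in
private theorem p_cop_nat {k : Type} [Field k] (A : ℤ × ℤ) (c : ℤ × ℤ) (n : ℕ) :
    (1 - single A 1 : Lau k) ∣ single c 1 - single (c + n • A) 1 := by
  induction n with
  | zero => simp
  | succ n ih =>
    have e : (single c 1 - single (c + (n + 1) • A) 1 : Lau k) =
        (single c 1 - single (c + n • A) 1) + (1 - single A 1) * single (c + n • A) 1 := by
      rw [sub_mul, one_mul, single_mul_single, one_mul, succ_nsmul,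
        show A + (c + n • A) = c + (n • A + A) by abel]
      ring
    rw [e]
    exact dvd_add ih (dvd_mul_right _ _)

open AddMonoidAlgebra in
private theorem p_cop_int {k : Type} [Field k] (A : ℤ × ℤ) (c : ℤ × ℤ) (n : ℤ) :
    (1 - single A 1 : Lau k) ∣ single c 1 - single (c + n • A) 1 := by
  obtain ⟨m, rfl | rfl⟩ := n.eq_nat_or_neg
  · have := p_cop_nat (k := k) A c m
    rwa [natCast_zsmul]
  · have := p_cop_nat (k := k) A (c + (-(m : ℤ)) • A) m
    have e : c + (-(m : ℤ)) • A + m • A = c := by
      rw [neg_smul, natCast_zsmul]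
      abel
    rw [e] at this
    have h2 := (dvd_neg.mpr this)
    rwa [neg_sub] at h2

open AddMonoidAlgebra in
private theorem p_cop_map {k : Type} [Field k] (A : ℤ × ℤ) (r : ℤ × ℤ → ℤ × ℤ)
    (hr : ∀ c, ∃ n : ℤ, r c = c + n • A) (F : Lau k) :
    (1 - single A 1 : Lau k) ∣ F - mapDomain r F := by
  induction F using induction_linear with
  | zero => simp
  | add f g hf hg =>
    rw [mapDomain_add, add_sub_add_comm]
    exact dvd_add hf hg
  | single c t =>
    obtain ⟨n, hn⟩ := hr c
    rw [mapDomain_single, hn]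
    have e : (single c t - single (c + n • A) t : Lau k) =
        (single c 1 - single (c + n • A) 1) * single 0 t := by
      rw [sub_mul, single_mul_single, single_mul_single, one_mul, add_zero, add_zero]
    rw [e]
    exact (p_cop_int A c n).mul_right _

theorem p_cop : S_cop := by
  intro k _ a b hab F G h
  obtain ⟨A, hA⟩ : ∃ A : ℤ × ℤ, A = Multiplicative.toAdd a := ⟨_, rfl⟩
  obtain ⟨B, hB⟩ : ∃ B : ℤ × ℤ, B = Multiplicative.toAdd b := ⟨_, rfl⟩
  rw [← hA, ← hB] at h
  rw [← hA]
  have hind : ∀ m n : ℤ, m • A = n • B → m = 0 ∧ n = 0 := by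
    intro m n hmn
    by_contra hcon
    refine hab ⟨m, -n, ?_, ?_⟩
    · by_contra h2
      push Not at h2
      exact hcon ⟨h2.1, by linarith [neg_eq_zero.mp h2.2]⟩
    · apply Multiplicative.toAdd.injective
      rw [toAdd_mul, toAdd_zpow, toAdd_zpow, toAdd_one, ← hA, ← hB, hmn, neg_smul, add_neg_cancel]
  let Q := (ℤ × ℤ) ⧸ AddSubgroup.zmultiples A
  let mk : ℤ × ℤ →+ Q := QuotientAddGroup.mk' (AddSubgroup.zmultiples A)
  let π := AddMonoidAlgebra.mapDomainRingHom k mk
  have hπ : ∀ f : Lau k, π f = AddMonoidAlgebra.mapDomain mk f := fun f => rfl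
  have hmkA : mk A = 0 := by
    rw [QuotientAddGroup.mk'_apply]
    exact (QuotientAddGroup.eq_zero_iff A).2 (AddSubgroup.mem_zmultiples A)
  have hz : (1 - AddMonoidAlgebra.single (mk B) 1) * π F = 0 := by
    have h1 := congrArg π h
    rw [map_mul, map_mul, map_sub, map_sub, map_one, hπ (AddMonoidAlgebra.single B 1),
      hπ (AddMonoidAlgebra.single A 1), AddMonoidAlgebra.mapDomain_single,
      AddMonoidAlgebra.mapDomain_single, hmkA] at h1
    rw [h1]
    rw [← AddMonoidAlgebra.one_def, sub_self, zero_mul]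
  have hH : ∀ c : Q, (π F).coeff (mk B + c) = (π F).coeff c := by
    intro c
    have h2 : π F = AddMonoidAlgebra.single (mk B) 1 * π F := by
      rw [sub_mul, one_mul, sub_eq_zero] at hz
      exact hz
    conv_lhs => rw [h2]
    rw [AddMonoidAlgebra.coeff_single_mul_eq_mul_coeff (m₂ := c) (H := fun m' _ => add_right_inj _),
      one_mul]
  have hH2 : ∀ (n : ℕ) (c : Q), (π F).coeff (n • mk B + c) = (π F).coeff c := by
    intro n c
    induction n with
    | zero => rw [zero_smul, zero_add]
    | succ n ih => rw [succ_nsmul', add_assoc, hH, ih]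
  have hinj : Function.Injective fun n : ℕ => n • mk B := by
    intro n m hnm
    have h3 : mk ((n : ℤ) • B) = mk ((m : ℤ) • B) := by
      rw [map_zsmul, map_zsmul, natCast_zsmul, natCast_zsmul]
      exact hnm
    have h4 : mk ((n : ℤ) • B - (m : ℤ) • B) = 0 := by rw [map_sub, h3, sub_self]
    rw [QuotientAddGroup.mk'_apply] at h4
    have h5 := (QuotientAddGroup.eq_zero_iff _).1 h4
    obtain ⟨l, hl⟩ := AddSubgroup.mem_zmultiples_iff.1 h5
    rw [← sub_smul] at hl
    have h6 := (hind l _ hl).2
    omega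
  have hF0 : π F = 0 := by
    ext c
    by_contra hc
    have hsub : Set.range (fun n : ℕ => n • mk B + c) ⊆ ((π F).coeff.support : Set Q) := by
      rintro _ ⟨n, rfl⟩
      simp only [Finset.mem_coe, Finsupp.mem_support_iff]
      rw [hH2]
      simpa using hc
    have hfin : (Set.range fun n : ℕ => n • mk B + c).Finite :=
      (Finset.finite_toSet _).subset hsub
    have hinf : (Set.range fun n : ℕ => n • mk B + c).Infinite :=
      Set.infinite_range_of_injective (fun n m hnm => hinj (add_right_cancel hnm))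
    exact hinf hfin
  let r : ℤ × ℤ → ℤ × ℤ := fun c => Quotient.out (mk c)
  have hr : ∀ c, ∃ n : ℤ, r c = c + n • A := by
    intro c
    have h7 : (QuotientAddGroup.mk (r c) : Q) = QuotientAddGroup.mk c := QuotientAddGroup.out_eq' _
    have h8 := QuotientAddGroup.eq.1 h7.symm
    obtain ⟨l, hl⟩ := AddSubgroup.mem_zmultiples_iff.1 h8
    exact ⟨l, by rw [hl]; abel⟩
  have hfin := p_cop_map (k := k) A r hr F
  have hm : AddMonoidAlgebra.mapDomain r F = 0 := by
    have h9 : AddMonoidAlgebra.mapDomain r F =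
        AddMonoidAlgebra.mapDomain (Quotient.out : Q → ℤ × ℤ) (AddMonoidAlgebra.mapDomain mk F) := by
      unfold AddMonoidAlgebra.mapDomain
      congr 1
      exact Finsupp.mapDomain_comp
    rw [h9, ← hπ, hF0, AddMonoidAlgebra.mapDomain_zero]
  rwa [hm, sub_zero] at hfin

end Pool.Agent.F2
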