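import Pool.Agent.Lib.MP_305fdd_al.F2.StmG
import Pool.Agent.Lib.MP_305fdd_al.CC.PCharFin
import Pool.Agent.Lib.MP_305fdd_al.PSL.Ideals

/-!
# MP_305fdd_al, F_2, section G: [GB corrpc]
-/

set_option autoImplicit false

namespace Pool.Agent.F2

open MvPolynomial Pool.Agent.Lib.MP_305fdd_al Pool.Agent.MP_305fdd_al

private theorem p_corrpc_aux {G H Q R : Type} [Group G] [Group H] [Group Q] [CommRing R]
    (a : G →* Q) (b : H →* Q) (τ : Q → R) (T : G → R) (T' : H → R) (hT : ∀ g, T g = τ (a g))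
    (hT' : ∀ h, T' h = τ (b h)) (hab : ∀ h, ∃ g, a g = b h) (hpc : PC T) : PC T' := by
  refine ⟨?_, ?_, ?_⟩
  · rw [hT', map_one, ← map_one a, ← hT]
    exact hpc.one
  · intro g h
    obtain ⟨g', hg'⟩ := hab g
    obtain ⟨h', hh'⟩ := hab h
    rw [hT', hT', map_mul, map_mul, ← hg', ← hh', ← map_mul, ← map_mul, ← hT, ← hT]
    exact hpc.comm g' h'
  · intro g h
    obtain ⟨g', hg'⟩ := hab g
    obtain ⟨h', hh'⟩ := hab h
    rw [hT', hT', hT' g, hT' h, map_mul, map_mul, map_inv, ← hg', ← hh', ← map_inv, ← map_mul,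
      ← map_mul, ← hT, ← hT, ← hT, ← hT]
    exact hpc.rel g' h'

theorem p_corrpc (_h1 : S_corr) (h2 : S_br) : S_corrpc := by
  intro k _ G H _ _ Φ R _ _
  refine ⟨?_, ?_, ?_⟩
  · rintro T T' ⟨Q, iQ, fQ, π, τ, hT, hT'⟩
    constructor
    · refine p_corrpc_aux π (Φ.toFun Q π) τ T T' hT hT' fun h => ?_
      obtain ⟨g, hg, -⟩ := PSL2Z.joint Φ π π h
      exact ⟨g, hg⟩
    · refine p_corrpc_aux (Φ.toFun Q π) π τ T' T hT' hT fun g => ?_
      obtain ⟨h, hh, -⟩ := PSL2Z.joint' Φ π π g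
      exact ⟨h, hh⟩
  · intro _ _ T hpc
    obtain ⟨Q, iQ, fQ, π, τ, hτ⟩ := (((h2 k G R T).1).mp hpc).factor
    exact ⟨fun h => τ (Φ.toFun Q π h), Q, iQ, fQ, π, τ, hτ, fun _ => rfl⟩
  · intro _ _ T' hpc
    obtain ⟨Q, iQ, fQ, π, τ, hτ⟩ := (((h2 k H R T').1).mp hpc).factor
    refine ⟨fun g => τ (Φ.invFun Q π g), Q, iQ, fQ, Φ.invFun Q π, τ, fun _ => rfl, fun h => ?_⟩
    rw [Φ.right_inv]
    exact hτ h

end Pool.Agent.F2
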