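import Pool.Agent.Lib.MP_305fdd_al.F2.StmG

set_option autoImplicit false

namespace Pool.Agent.F2

open MvPolynomial Pool.Agent.Lib.MP_305fdd_al Pool.Agent.MP_305fdd_al

private theorem p_ctnd_ee (k : Type) [Field k] (d c : ℤ × ℤ) :
    (ee k d).coeff (-c) = (ee k d).coeff c := by
  simp only [ee, AddMonoidAlgebra.coeff_add, AddMonoidAlgebra.coeff_single, Finsupp.add_apply,
    Finsupp.single_apply]
  have e1 : (d = -c) ↔ (-d = c) := by
    constructor
    · rintro rfl
      simp
    · rintro rfl
      simp
  have e2 : (-d = -c) ↔ (d = c) := neg_inj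
  simp only [e1, e2]
  rw [add_comm]

theorem p_ctnd (h1 : S_auniv) (h2 : S_resa) : S_ctnd := by
  intro k _ hk a
  have key : ∀ a : Ak k, ∀ c : ℤ × ℤ, (resA k a).coeff (-c) = (resA k a).coeff c := by
    intro a c
    have ha : a ∈ Submodule.span k ({1} ∪ Set.range (TA k)) := by
      rw [(h1.2.1 k).2]
      exact Submodule.mem_top
    induction ha using Submodule.span_induction with
    | mem x hx =>
      rcases hx with hx | ⟨g, rfl⟩
      · rw [Set.mem_singleton_iff.1 hx, map_one]
        simp only [AddMonoidAlgebra.one_def, AddMonoidAlgebra.coeff_single, Finsupp.single_apply]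
        have : ((0 : ℤ × ℤ) = -c) ↔ ((0 : ℤ × ℤ) = c) := by
          constructor
          · intro h
            rw [← neg_neg c, ← h, neg_zero]
          · intro h
            rw [← h, neg_zero]
        simp only [this]
      · rw [h2.1]
        exact p_ctnd_ee k _ c
    | zero => simp
    | add x y _ _ hx hy =>
      rw [map_add, AddMonoidAlgebra.coeff_add, Finsupp.add_apply, Finsupp.add_apply, hx, hy]
    | smul r x _ hx =>
      rw [map_smul, AddMonoidAlgebra.coeff_smul, Finsupp.smul_apply, Finsupp.smul_apply, hx]
  refine ⟨key a, fun h => ?_⟩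
  ext c
  have h3 := h c
  have h4 : ct (resA k a * ee k c) = (resA k a).coeff (-c) + (resA k a).coeff c := by
    simp only [ct, ee, mul_add, AddMonoidAlgebra.coeff_add, Finsupp.add_apply,
      AddMonoidAlgebra.coeff_mul_single_apply, mul_one, zero_add, neg_neg]
  rw [h4, key a c, ← two_mul] at h3
  rcases mul_eq_zero.1 h3 with h5 | h5
  · exact absurd h5 hk
  · simpa using h5

end Pool.Agent.F2
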