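import Pool.Agent.Lib.MP_305fdd_al.F2.StmG

/-!
# MP_305fdd_al (`F_2`), section G: piece dep
-/

set_option autoImplicit false

namespace Pool.Agent.F2

open MvPolynomial Pool.Agent.Lib.MP_305fdd_al Pool.Agent.MP_305fdd_al
open scoped commutatorElement

private theorem p_dep_lift {Λ : Type} [Group Λ] {f : Fr →* Λ}
    {cl : Λ →* Multiplicative (ℤ × ℤ)} (hE : Emb Λ f cl) (g : Λ) :
    ∃ g₀ : Fr, f g₀ * g⁻¹ ∈ (commutator Λ).lowerCentralSeries 4 := by
  have h1 : g ∈ ((f.range ⊔ (commutator Λ).lowerCentralSeries 4 : Subgroup Λ) : Set Λ) := by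
    rw [hE.sup 4]
    exact Subgroup.mem_top g
  rw [Subgroup.mul_normal] at h1
  obtain ⟨a, ⟨g₀, rfl⟩, n, hn, hg⟩ := h1
  refine ⟨g₀, ?_⟩
  have e : f g₀ * g⁻¹ = f g₀ * n⁻¹ * (f g₀)⁻¹ := by
    rw [← hg]
    group
  rw [e]
  exact Subgroup.Normal.conj_mem inferInstance _ (inv_mem hn) _

theorem p_dep (h1 : S_depf) (_h2 : S_auniv) : S_dep := by
  intro k _ Λ _ f cl hE D _ _ T β hT g h hgh
  obtain ⟨g₀, hg₀⟩ := p_dep_lift hE g
  obtain ⟨h₀, hh₀⟩ := p_dep_lift hE h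
  have hle : (commutator Λ).lowerCentralSeries 4 ≤ commutator Λ :=
    (commutator Λ).lowerCentralSeries_antitone (Nat.zero_le 4)
  have hcl : ∀ (a : Fr) (b : Λ), f a * b⁻¹ ∈ (commutator Λ).lowerCentralSeries 4 →
      cl b = clF a := by
    intro a b hab
    have h3 : f a * b⁻¹ ∈ cl.ker := by
      rw [hE.ker]
      exact hle hab
    rw [MonoidHom.mem_ker, map_mul, map_inv, mul_inv_eq_one] at h3
    rw [← h3, ← hE.clf]
    rfl
  rw [hcl g₀ g hg₀, hcl h₀ h hh₀]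
  refine h1 k g₀ h₀ ?_
  have h4 : f ⁅g₀, h₀⁆ * (⁅g, h⁆ : Λ)⁻¹ ∈ (commutator Λ).lowerCentralSeries (2 * 2) := by
    show f ⁅g₀, h₀⁆ * (⁅g, h⁆ : Λ)⁻¹ ∈ (commutator Λ).lowerCentralSeries 4
    have e1 : QuotientGroup.mk' ((commutator Λ).lowerCentralSeries 4) (f g₀) =
        QuotientGroup.mk' ((commutator Λ).lowerCentralSeries 4) g :=
      QuotientGroup.eq_iff_div_mem.2 (by rw [div_eq_mul_inv]; exact hg₀)
    have e2 : QuotientGroup.mk' ((commutator Λ).lowerCentralSeries 4) (f h₀) =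
        QuotientGroup.mk' ((commutator Λ).lowerCentralSeries 4) h :=
      QuotientGroup.eq_iff_div_mem.2 (by rw [div_eq_mul_inv]; exact hh₀)
    have e3 : QuotientGroup.mk' ((commutator Λ).lowerCentralSeries 4) (f ⁅g₀, h₀⁆) =
        QuotientGroup.mk' ((commutator Λ).lowerCentralSeries 4) ⁅g, h⁆ := by
      rw [map_commutatorElement, map_commutatorElement, e1, e2, ← map_commutatorElement]
    have e4 := QuotientGroup.eq_iff_div_mem.1 e3
    rwa [div_eq_mul_inv] at e4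
  have h5 := hT.beta 2 ⁅g₀, h₀⁆ ⁅g, h⁆ h4
  rw [hgh, map_ofNat] at h5
  rw [← Ideal.mem_span_singleton, ← Ideal.Quotient.eq_zero_iff_mem, map_sub, ← h5, map_ofNat,
    sub_self]

end Pool.Agent.F2
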