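import Pool.Agent.Lib.MP_305fdd_al.F2.StmG

set_option autoImplicit false

namespace Pool.Agent.F2

open MvPolynomial Pool.Agent.Lib.MP_305fdd_al Pool.Agent.MP_305fdd_al
open scoped commutatorElement

noncomputable section

/-- the monomial `χ^c` -/
private abbrev p_depf_chi (k : Type) [Field k] (c : ℤ × ℤ) : Lau k := AddMonoidAlgebra.single c 1

private theorem p_depf_add (k : Type) [Field k] (a b : ℤ × ℤ) :
    p_depf_chi k (a + b) = p_depf_chi k a * p_depf_chi k b := by
  rw [p_depf_chi, p_depf_chi, p_depf_chi, AddMonoidAlgebra.single_mul_single, one_mul]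

private theorem p_depf_zero (k : Type) [Field k] : p_depf_chi k 0 = 1 := rfl

private theorem p_depf_neg (k : Type) [Field k] (a : ℤ × ℤ) :
    p_depf_chi k a * p_depf_chi k (-a) = 1 := by
  rw [← p_depf_add, add_neg_cancel, p_depf_zero]

/-- `χ^c ↦ χ^(2c)` -/
private def p_depf_D (k : Type) [Field k] : Lau k →+* Lau k :=
  AddMonoidAlgebra.mapDomainRingHom k (AddMonoidHom.mk' (fun c : ℤ × ℤ => c + c) (by intros; abel))

/-- `χ^c ↦ χ^(-2c)` -/
private def p_depf_E (k : Type) [Field k] : Lau k →+* Lau k :=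
  AddMonoidAlgebra.mapDomainRingHom k
    (AddMonoidHom.mk' (fun c : ℤ × ℤ => -(c + c)) (by intros; abel))

private theorem p_depf_Dchi (k : Type) [Field k] (c : ℤ × ℤ) :
    p_depf_D k (p_depf_chi k c) = p_depf_chi k (c + c) := by
  rw [p_depf_D, p_depf_chi, p_depf_chi, AddMonoidAlgebra.mapDomainRingHom_apply,
    AddMonoidAlgebra.mapDomain_single]
  rfl

private theorem p_depf_Echi (k : Type) [Field k] (c : ℤ × ℤ) :
    p_depf_E k (p_depf_chi k c) = p_depf_chi k (-(c + c)) := by
  rw [p_depf_E, p_depf_chi, p_depf_chi, AddMonoidAlgebra.mapDomainRingHom_apply,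
    AddMonoidAlgebra.mapDomain_single]
  rfl

private theorem p_depf_Dinj (k : Type) [Field k] : Function.Injective (p_depf_D k) := by
  intro F G h
  rw [p_depf_D, AddMonoidAlgebra.mapDomainRingHom_apply, AddMonoidAlgebra.mapDomainRingHom_apply]
    at h
  refine AddMonoidAlgebra.mapDomain_injective ?_ h
  intro a b hab
  change a + a = b + b at hab
  rw [Prod.ext_iff] at hab ⊢
  simp only [Prod.fst_add, Prod.snd_add] at hab
  omega

private theorem p_depf_Einj (k : Type) [Field k] : Function.Injective (p_depf_E k) := by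
  intro F G h
  rw [p_depf_E, AddMonoidAlgebra.mapDomainRingHom_apply, AddMonoidAlgebra.mapDomainRingHom_apply]
    at h
  refine AddMonoidAlgebra.mapDomain_injective ?_ h
  intro a b hab
  change -(a + a) = -(b + b) at hab
  rw [Prod.ext_iff] at hab ⊢
  simp only [Prod.fst_add, Prod.snd_add, Prod.fst_neg, Prod.snd_neg] at hab
  omega

/-- the polynomials in `s` -/
private abbrev p_depf_M (k : Type) [Field k] : Type := Polynomial (Lau k)

/-- the representation -/
private def p_depf_rho (k : Type) [Field k] :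
    Fr →* Matrix.SpecialLinearGroup (Fin 2) (p_depf_M k) :=
  FreeGroup.lift ![⟨!![Polynomial.C (p_depf_chi k (1, 0)), 1;
      0, Polynomial.C (p_depf_chi k (-(1, 0)))], by
        rw [Matrix.det_fin_two_of, ← Polynomial.C_mul, p_depf_neg, Polynomial.C_1]; ring⟩,
    ⟨!![Polynomial.C (p_depf_chi k (0, 1)), 0;
      Polynomial.X, Polynomial.C (p_depf_chi k (-(0, 1)))], by
        rw [Matrix.det_fin_two_of, ← Polynomial.C_mul, p_depf_neg, Polynomial.C_1]; ring⟩]

private theorem p_depf_rho_gx (k : Type) [Field k] : (p_depf_rho k gx).1 =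
    !![Polynomial.C (p_depf_chi k (1, 0)), 1; 0, Polynomial.C (p_depf_chi k (-(1, 0)))] := by
  rw [p_depf_rho, gx, FreeGroup.lift_apply_of]
  rfl

private theorem p_depf_rho_gy (k : Type) [Field k] : (p_depf_rho k gy).1 =
    !![Polynomial.C (p_depf_chi k (0, 1)), 0;
      Polynomial.X, Polynomial.C (p_depf_chi k (-(0, 1)))] := by
  rw [p_depf_rho, gy, FreeGroup.lift_apply_of]
  rfl

private theorem p_depf_pc {R : Type} [CommRing R]
    (ρ : Fr →* Matrix.SpecialLinearGroup (Fin 2) R) : PC (fun g => (ρ g).1.trace) := by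
  refine ⟨?_, ?_, ?_⟩
  · simp
  · intro g h
    simp only [map_mul, Matrix.SpecialLinearGroup.coe_mul]
    exact Matrix.trace_mul_comm _ _
  · intro g h
    simp only [map_mul, map_inv, Matrix.SpecialLinearGroup.coe_mul,
      Matrix.SpecialLinearGroup.coe_inv, Matrix.adjugate_fin_two, Matrix.trace_fin_two,
      Matrix.mul_apply, Fin.sum_univ_two]
    simp
    ring

/-- the invariant -/
private structure p_depf_Inv (k : Type) [Field k] (fx fy : Fr → Lau k) (g : Fr) : Prop where
  a : ((p_depf_rho k g).1 0 0).coeff 0 = p_depf_chi k (Multiplicative.toAdd (clF g))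
  d : ((p_depf_rho k g).1 1 1).coeff 0 = p_depf_chi k (-Multiplicative.toAdd (clF g))
  z : ((p_depf_rho k g).1 1 0).coeff 0 = 0
  b : ((p_depf_rho k g).1 0 1).coeff 0 * p_depf_chi k (Multiplicative.toAdd (clF g)) =
    p_depf_chi k (1, 0) * p_depf_D k (fx g)
  c : ((p_depf_rho k g).1 1 0).coeff 1 * p_depf_chi k (-Multiplicative.toAdd (clF g)) =
    p_depf_chi k (-(0, 1)) * p_depf_E k (fy g)

private theorem p_depf_inv (k : Type) [Field k] (fx fy : Fr → Lau k)
    (hx : ∀ g h, fx (g * h) = fx g + p_depf_chi k (Multiplicative.toAdd (clF g)) * fx h)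
    (hy : ∀ g h, fy (g * h) = fy g + p_depf_chi k (Multiplicative.toAdd (clF g)) * fy h)
    (h1 : fx gx = 1) (h2 : fx gy = 0) (h3 : fy gx = 0) (h4 : fy gy = 1) (g : Fr) :
    p_depf_Inv k fx fy g := by
  have hx1 : fx 1 = 0 := by
    have h := hx 1 1
    rw [map_one, toAdd_one, p_depf_zero, one_mul, one_mul] at h
    simpa using h
  have hy1 : fy 1 = 0 := by
    have h := hy 1 1
    rw [map_one, toAdd_one, p_depf_zero, one_mul, one_mul] at h
    simpa using h
  have hclx : Multiplicative.toAdd (clF gx) = (1, 0) := by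
    rw [clF, gx, FreeGroup.lift_apply_of]; rfl
  have hcly : Multiplicative.toAdd (clF gy) = (0, 1) := by
    rw [clF, gy, FreeGroup.lift_apply_of]; rfl
  have hofx : p_depf_Inv k fx fy gx := by
    constructor
    · rw [p_depf_rho_gx, hclx]; simp
    · rw [p_depf_rho_gx, hclx]; simp
    · rw [p_depf_rho_gx]; simp
    · rw [p_depf_rho_gx, hclx, h1, map_one]; simp
    · rw [p_depf_rho_gx, h3, map_zero]; simp
  have hofy : p_depf_Inv k fx fy gy := by
    constructor
    · rw [p_depf_rho_gy, hcly]; simp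
    · rw [p_depf_rho_gy, hcly]; simp
    · rw [p_depf_rho_gy]; simp
    · rw [p_depf_rho_gy, h2, map_zero]; simp
    · rw [p_depf_rho_gy, hcly, h4, map_one]; simp
  have hof : ∀ i : Fin 2, p_depf_Inv k fx fy (FreeGroup.of i) := by
    intro i
    fin_cases i
    · exact hofx
    · exact hofy
  have hmul : ∀ g h, p_depf_Inv k fx fy g → p_depf_Inv k fx fy h → p_depf_Inv k fx fy (g * h) := by
    intro g h hg hh
    set α := Multiplicative.toAdd (clF g) with hα
    set β := Multiplicative.toAdd (clF h) with hβ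
    have hcl : Multiplicative.toAdd (clF (g * h)) = α + β := by rw [map_mul, toAdd_mul]
    have e1 := p_depf_neg k α
    have e2 := p_depf_neg k β
    constructor
    · rw [map_mul, Matrix.SpecialLinearGroup.coe_mul, Matrix.mul_apply, Fin.sum_univ_two,
        Polynomial.coeff_add, Polynomial.mul_coeff_zero, Polynomial.mul_coeff_zero, hg.a, hh.a,
        hh.z, mul_zero, add_zero, hcl, p_depf_add]
    · rw [map_mul, Matrix.SpecialLinearGroup.coe_mul, Matrix.mul_apply, Fin.sum_univ_two,
        Polynomial.coeff_add, Polynomial.mul_coeff_zero, Polynomial.mul_coeff_zero, hg.z, hg.d,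
        hh.d, zero_mul, zero_add, hcl, neg_add, p_depf_add]
    · rw [map_mul, Matrix.SpecialLinearGroup.coe_mul, Matrix.mul_apply, Fin.sum_univ_two,
        Polynomial.coeff_add, Polynomial.mul_coeff_zero, Polynomial.mul_coeff_zero, hg.z, hh.z,
        zero_mul, mul_zero, add_zero]
    · rw [map_mul, Matrix.SpecialLinearGroup.coe_mul, Matrix.mul_apply, Fin.sum_univ_two,
        Polynomial.coeff_add, Polynomial.mul_coeff_zero, Polynomial.mul_coeff_zero, hg.a, hh.d,
        hcl, p_depf_add, hx, map_add, map_mul, p_depf_Dchi, p_depf_add]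
      have hb := hg.b
      have hb' := hh.b
      rw [← hα] at hb ⊢
      rw [← hβ] at hb' ⊢
      linear_combination (((p_depf_rho k g).1 0 1).coeff 0 * p_depf_chi k α) * e2 + hb +
        p_depf_chi k α * p_depf_chi k α * hb'
    · rw [map_mul, Matrix.SpecialLinearGroup.coe_mul, Matrix.mul_apply, Fin.sum_univ_two,
        Polynomial.coeff_add, Polynomial.mul_coeff_one, Polynomial.mul_coeff_one, hg.z, hh.a,
        hg.d, hh.z, hcl, neg_add, p_depf_add, hy, map_add, map_mul, p_depf_Echi, neg_add,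
        p_depf_add]
      have hb := hg.c
      have hb' := hh.c
      rw [← hα] at hb ⊢
      rw [← hβ] at hb' ⊢
      linear_combination (((p_depf_rho k g).1 1 0).coeff 1 * p_depf_chi k (-α)) * e2 + hb +
        p_depf_chi k (-α) * p_depf_chi k (-α) * hb'
  have hinv : ∀ g, p_depf_Inv k fx fy g → p_depf_Inv k fx fy g⁻¹ := by
    intro g hg
    set α := Multiplicative.toAdd (clF g) with hα
    have hcl : Multiplicative.toAdd (clF g⁻¹) = -α := by rw [map_inv, toAdd_inv]
    have e1 := p_depf_neg k α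
    have hfx : fx g⁻¹ = -(p_depf_chi k (-α) * fx g) := by
      have h := hx g g⁻¹
      rw [mul_inv_cancel, hx1, ← hα] at h
      linear_combination (-fx g⁻¹) * e1 - p_depf_chi k (-α) * h
    have hfy : fy g⁻¹ = -(p_depf_chi k (-α) * fy g) := by
      have h := hy g g⁻¹
      rw [mul_inv_cancel, hy1, ← hα] at h
      linear_combination (-fy g⁻¹) * e1 - p_depf_chi k (-α) * h
    constructor
    · rw [map_inv, Matrix.SpecialLinearGroup.coe_inv, Matrix.adjugate_fin_two, hcl]
      exact hg.d
    · rw [map_inv, Matrix.SpecialLinearGroup.coe_inv, Matrix.adjugate_fin_two, hcl, neg_neg]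
      exact hg.a
    · rw [map_inv, Matrix.SpecialLinearGroup.coe_inv, Matrix.adjugate_fin_two]
      change (-((p_depf_rho k g).1 1 0)).coeff 0 = 0
      rw [Polynomial.coeff_neg, hg.z, neg_zero]
    · rw [map_inv, Matrix.SpecialLinearGroup.coe_inv, Matrix.adjugate_fin_two, hcl, hfx, map_neg,
        map_mul, p_depf_Dchi, p_depf_add]
      change (-((p_depf_rho k g).1 0 1)).coeff 0 * _ = _
      rw [Polynomial.coeff_neg]
      have hb := hg.b
      rw [← hα] at hb
      linear_combination (((p_depf_rho k g).1 0 1).coeff 0 * p_depf_chi k (-α)) * e1 -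
        p_depf_chi k (-α) * p_depf_chi k (-α) * hb
    · rw [map_inv, Matrix.SpecialLinearGroup.coe_inv, Matrix.adjugate_fin_two, hcl, hfy, map_neg,
        map_mul, p_depf_Echi, neg_add, neg_neg, p_depf_add]
      change (-((p_depf_rho k g).1 1 0)).coeff 1 * _ = _
      rw [Polynomial.coeff_neg]
      have hb := hg.c
      rw [← hα] at hb
      linear_combination (((p_depf_rho k g).1 1 0).coeff 1 * p_depf_chi k α) * e1 -
        p_depf_chi k α * p_depf_chi k α * hb
  have hone : p_depf_Inv k fx fy 1 := by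
    have h := hmul _ _ hofx (hinv _ hofx)
    rwa [mul_inv_cancel] at h
  induction g using FreeGroup.induction_on with
  | C1 => exact hone
  | of i => exact hof i
  | inv_of i _ => exact hinv _ (hof i)
  | mul g h hg hh => exact hmul g h hg hh

theorem p_depf (h1 : S_tapc) (h2 : S_auniv) (h3 : S_fox) : S_depf := by
  intro k _ g h hdvd
  obtain ⟨fx, fy, hx, hy, hxx, hxy, hyx, hyy, hD⟩ := h3 k
  have hT := h1 k
  obtain ⟨φ, hφ⟩ := h2.1 k (p_depf_M k) _ (p_depf_pc (p_depf_rho k))
  have hw := p_depf_inv k fx fy hx hy hxx hxy hyx hyy ⁅g, h⁆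
  set w := ⁅g, h⁆ with hwdef
  have hclw : Multiplicative.toAdd (clF w) = 0 := by
    rw [hwdef, map_commutatorElement, commutatorElement_eq_one_iff_mul_comm.2 (mul_comm _ _)]
    rfl
  -- the image of `κ`
  have e0 : φ (X 0) = Polynomial.C (p_depf_chi k (1, 0)) +
      Polynomial.C (p_depf_chi k (-(1, 0))) := by
    rw [← hT.2.1, hφ]
    simp only [p_depf_rho_gx, Matrix.trace_fin_two]
    rfl
  have e1 : φ (X 1) = Polynomial.C (p_depf_chi k (0, 1)) +
      Polynomial.C (p_depf_chi k (-(0, 1))) := by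
    rw [← hT.2.2.1, hφ]
    simp only [p_depf_rho_gy, Matrix.trace_fin_two]
    rfl
  have e2 : φ (X 2) = Polynomial.C (p_depf_chi k (1, 0)) * Polynomial.C (p_depf_chi k (0, 1)) +
      Polynomial.X + Polynomial.C (p_depf_chi k (-(1, 0))) *
        Polynomial.C (p_depf_chi k (-(0, 1))) := by
    rw [← hT.2.2.2, hφ]
    simp only [map_mul, Matrix.SpecialLinearGroup.coe_mul, p_depf_rho_gx, p_depf_rho_gy,
      Matrix.trace_fin_two, Matrix.mul_apply, Fin.sum_univ_two]
    simp
  have hu : Polynomial.C (p_depf_chi k (1, 0)) * Polynomial.C (p_depf_chi k (-(1, 0))) = 1 := by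
    rw [← Polynomial.C_mul, p_depf_neg, Polynomial.C_1]
  have hv : Polynomial.C (p_depf_chi k (0, 1)) * Polynomial.C (p_depf_chi k (-(0, 1))) = 1 := by
    rw [← Polynomial.C_mul, p_depf_neg, Polynomial.C_1]
  have hkap : (Polynomial.X : p_depf_M k) ∣ φ (kap k) := by
    refine ⟨Polynomial.X + (Polynomial.C (p_depf_chi k (1, 0)) -
      Polynomial.C (p_depf_chi k (-(1, 0)))) * (Polynomial.C (p_depf_chi k (0, 1)) -
      Polynomial.C (p_depf_chi k (-(0, 1)))), ?_⟩
    rw [kap, map_sub, map_sub, map_add, map_add, map_mul, map_mul, map_pow, map_pow, map_pow,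
      e0, e1, e2]
    have h4 : φ (4 : Ak k) = 4 := map_ofNat φ 4
    rw [h4]
    clear e0 e1 e2
    generalize Polynomial.C (p_depf_chi k (1, 0)) = U at hu ⊢
    generalize Polynomial.C (p_depf_chi k (-(1, 0))) = U' at hu ⊢
    generalize Polynomial.C (p_depf_chi k (0, 1)) = V at hv ⊢
    generalize Polynomial.C (p_depf_chi k (-(0, 1))) = V' at hv ⊢
    linear_combination (2 - V ^ 2 - V' ^ 2) * hu + (2 - U ^ 2 - U' ^ 2) * hv
  have hdv : (Polynomial.X : p_depf_M k) ^ 2 ∣ (p_depf_rho k w).1.trace - 2 := by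
    have h5 : (Polynomial.X : p_depf_M k) ^ 2 ∣ φ (kap k ^ 2) := by
      rw [map_pow]
      exact pow_dvd_pow_of_dvd hkap 2
    have h6 := h5.trans (map_dvd φ hdvd)
    rwa [map_sub, hφ, map_ofNat] at h6
  have ha := hw.a
  have hd := hw.d
  have hb := hw.b
  have hc := hw.c
  rw [hclw, p_depf_zero] at ha hb
  rw [hclw, neg_zero, p_depf_zero] at hd hc
  rw [mul_one] at hb hc
  have hdet := (p_depf_rho k w).2
  rw [Matrix.det_fin_two] at hdet
  have hdet1 := congrArg (fun q : p_depf_M k => q.coeff 1) hdet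
  simp only [Polynomial.coeff_sub, Polynomial.mul_coeff_one, Polynomial.coeff_one] at hdet1
  rw [ha, hd, hw.z] at hdet1
  have htr : ((p_depf_rho k w).1 0 0).coeff 1 + ((p_depf_rho k w).1 1 1).coeff 1 = 0 := by
    have h := Polynomial.X_pow_dvd_iff.1 hdv 1 (by norm_num)
    rw [Matrix.trace_fin_two, Polynomial.coeff_sub, Polynomial.coeff_add] at h
    have h2' : (2 : p_depf_M k).coeff 1 = 0 := by
      rw [← Polynomial.C_ofNat, Polynomial.coeff_C]; simp
    rw [h2', sub_zero] at h
    exact h
  have hprod : ((p_depf_rho k w).1 0 1).coeff 0 * ((p_depf_rho k w).1 1 0).coeff 1 = 0 := by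
    have h0 : (if (1 : ℕ) = 0 then (1 : Lau k) else 0) = 0 := if_neg one_ne_zero
    simp only [one_ne_zero, if_false] at hdet1
    linear_combination htr - hdet1
  have hnz : ∀ c, p_depf_chi k c ≠ 0 := by
    intro c hc0
    have h := p_depf_neg k c
    rw [hc0, zero_mul] at h
    exact zero_ne_one h
  refine hD g h ?_
  rw [← hwdef]
  rcases mul_eq_zero.1 hprod with h0 | h0
  · left
    rw [h0] at hb
    have := (mul_eq_zero.1 hb.symm).resolve_left (hnz _)
    exact (map_eq_zero_iff _ (p_depf_Dinj k)).1 this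
  · right
    rw [h0] at hc
    have := (mul_eq_zero.1 hc.symm).resolve_left (hnz _)
    exact (map_eq_zero_iff _ (p_depf_Einj k)).1 this

end

end Pool.Agent.F2
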