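import Pool.Agent.Lib.MP_305fdd_al.F2.StmG

/-!
# MP_305fdd_al, F_2: piece [GB dom]
-/

set_option autoImplicit false

namespace Pool.Agent.F2

open MvPolynomial Pool.Agent.Lib.MP_305fdd_al Pool.Agent.MP_305fdd_al
open scoped commutatorElement

private theorem p_dom_ne (k : Type) [Field k] : kap k ≠ 0 := by
  intro h
  have h0 : MvPolynomial.eval (![0, 0, 0] : Fin 3 → k) (kap k) = 0 := by rw [h, map_zero]
  have h1 : MvPolynomial.eval (![1, 0, 0] : Fin 3 → k) (kap k) = 0 := by rw [h, map_zero]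
  simp only [kap, map_sub, map_add, map_pow, map_mul, eval_X, map_ofNat, Matrix.cons_val_zero,
    Matrix.cons_val_one, Matrix.cons_val] at h0 h1
  apply one_ne_zero (α := k)
  linear_combination h1 - h0

private theorem p_dom_prime (h1 : S_kera) (k : Type) [Field k] : Prime (kap k) := by
  refine ⟨p_dom_ne k, ?_, ?_⟩
  · intro hu
    have h := (h1 k 1).mpr hu.dvd
    rw [map_one] at h
    exact one_ne_zero h
  · intro a b hab
    have h := (h1 k (a * b)).mpr hab
    rw [map_mul] at h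
    rcases mul_eq_zero.mp h with h | h
    · exact Or.inl ((h1 k a).mp h)
    · exact Or.inr ((h1 k b).mp h)

private theorem p_dom_le {k : Type} [Field k] {m n : ℕ} (h : m ≤ n) :
    (Ideal.span {kap k ^ n} : Ideal (Ak k)) ≤ Ideal.span {kap k ^ m} := by
  rw [Ideal.span_singleton_le_span_singleton]
  exact pow_dvd_pow _ h

private theorem p_dom_key {k Λ : Type} [Field k] [Group Λ] {f : Fr →* Λ} {D : Type} [CommRing D]
    [Algebra k D] {T : Λ → D}
    {β : ∀ n : ℕ, D →ₐ[k] Ak k ⧸ (Ideal.span {kap k ^ n} : Ideal (Ak k))}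
    (hT : TR k Λ f D T β) (b : D) (hb : b ≠ 0) :
    ∃ a : ℕ, ∀ N, a + 1 ≤ N → ∀ δ : Ak k, Ideal.Quotient.mk _ δ = β N b →
      ∃ δ₁, δ = kap k ^ a * δ₁ ∧ ¬ kap k ∣ δ₁ := by
  classical
  have hex : ∃ n, β n b ≠ 0 := by
    by_contra h
    push Not at h
    exact hb (hT.sep b h)
  have hn0 : Nat.find hex ≠ 0 := by
    intro h0
    have h := Nat.find_spec hex
    rw [h0] at h
    apply h
    obtain ⟨c, hc⟩ := Ideal.Quotient.mk_surjective (β 0 b)
    rw [← hc, Ideal.Quotient.eq_zero_iff_mem, pow_zero, Ideal.span_singleton_one]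
    exact Submodule.mem_top
  obtain ⟨a, ha⟩ := Nat.exists_eq_succ_of_ne_zero hn0
  have h1 : β (a + 1) b ≠ 0 := by
    have h := Nat.find_spec hex
    rwa [ha] at h
  have h2 : β a b = 0 := by
    have h := Nat.find_min hex (m := a) (by omega)
    push Not at h
    exact h
  refine ⟨a, fun N hN δ hδ => ?_⟩
  have h3 := hT.compat (a + 1) N (p_dom_le hN) b
  have h4 := hT.compat a N (p_dom_le (by omega)) b
  rw [← hδ, Ideal.Quotient.factor_mk] at h3 h4
  rw [h2, Ideal.Quotient.eq_zero_iff_mem, Ideal.mem_span_singleton] at h4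
  rw [← h3, Ne, Ideal.Quotient.eq_zero_iff_mem, Ideal.mem_span_singleton] at h1
  obtain ⟨δ₁, hδ₁⟩ := h4
  refine ⟨δ₁, hδ₁, fun h => h1 ?_⟩
  rw [hδ₁, pow_succ]
  exact mul_dvd_mul_left _ h

theorem p_dom (h1 : S_kera) (h2 : S_auniv) : S_dom := by
  intro k _ Λ _ f D _ _ T β hT
  have hp := p_dom_prime h1 k
  have hnt : Nontrivial D := by
    refine ⟨⟨1, 0, fun h => ?_⟩⟩
    have h3 : β 1 1 = β 1 0 := by rw [h]
    rw [map_one, map_zero, ← map_one (Ideal.Quotient.mk _), Ideal.Quotient.eq_zero_iff_mem,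
      Ideal.mem_span_singleton, pow_one] at h3
    exact hp.not_isUnit (isUnit_of_dvd_one h3)
  have hnz : NoZeroDivisors D := by
    refine ⟨fun {b b'} hbb => ?_⟩
    by_contra hcon
    push Not at hcon
    obtain ⟨hb, hb'⟩ := hcon
    obtain ⟨a, ha⟩ := p_dom_key hT b hb
    obtain ⟨a', ha'⟩ := p_dom_key hT b' hb'
    obtain ⟨δ, hδ⟩ := Ideal.Quotient.mk_surjective (β (a + a' + 1) b)
    obtain ⟨δ', hδ'⟩ := Ideal.Quotient.mk_surjective (β (a + a' + 1) b')
    obtain ⟨δ₁, e1, n1⟩ := ha _ (by omega) δ hδ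
    obtain ⟨δ₁', e1', n1'⟩ := ha' _ (by omega) δ' hδ'
    have h3 : β (a + a' + 1) (b * b') = 0 := by rw [hbb, map_zero]
    rw [map_mul, ← hδ, ← hδ', ← map_mul, Ideal.Quotient.eq_zero_iff_mem,
      Ideal.mem_span_singleton, e1, e1'] at h3
    have h4 : kap k ^ (a + a') * kap k ∣ kap k ^ (a + a') * (δ₁ * δ₁') := by
      have e : kap k ^ a * δ₁ * (kap k ^ a' * δ₁') = kap k ^ (a + a') * (δ₁ * δ₁') := by
        rw [pow_add]
        ring
      rwa [e, pow_succ] at h3
    rw [mul_dvd_mul_iff_left (pow_ne_zero _ hp.ne_zero)] at h4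
    rcases hp.dvd_or_dvd h4 with h | h
    · exact n1 h
    · exact n1' h
  exact NoZeroDivisors.to_isDomain D

end Pool.Agent.F2
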