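import Pool.Agent.Lib.MP_305fdd_al.F2.StmG
import Pool.Agent.Lib.MP_305fdd_al.Solv.NilSep

/-!
# MP_305fdd_al (`F_2`), section G, piece [GB emb]
-/

set_option autoImplicit false

namespace Pool.Agent.F2

open Pool.Agent.Lib.MP_305fdd_al

private theorem p_emb_clF_gx : clF gx = Multiplicative.ofAdd (1, 0) := by
  simp [clF, gx]

private theorem p_emb_clF_gy : clF gy = Multiplicative.ofAdd (0, 1) := by
  simp [clF, gy]

/-- The kernel of the abelianisation of the free group is the commutator subgroup. -/
theorem p_emb_ker : clF.ker = commutator Fr := by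
  refine le_antisymm ?_ (Abelianization.commutator_subset_ker clF)
  intro g hg
  -- the inverse of the isomorphism from the abelianisation to the integral plane
  let ψ : Multiplicative (ℤ × ℤ) →* Abelianization Fr :=
    { toFun := fun c => Abelianization.of gx ^ (Multiplicative.toAdd c).1 *
        Abelianization.of gy ^ (Multiplicative.toAdd c).2
      map_one' := by simp
      map_mul' := fun c d => by
        simp only [toAdd_mul, Prod.fst_add, Prod.snd_add, zpow_add]
        rw [mul_mul_mul_comm] }
  have hψ : ψ.comp clF = Abelianization.of := by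
    refine FreeGroup.ext_hom _ _ fun i => ?_
    fin_cases i
    · show ψ (clF gx) = Abelianization.of gx
      rw [p_emb_clF_gx]
      simp [ψ]
    · show ψ (clF gy) = Abelianization.of gy
      rw [p_emb_clF_gy]
      simp [ψ]
  have h1 : Abelianization.of g = 1 := by
    rw [← hψ, MonoidHom.comp_apply, MonoidHom.mem_ker.1 hg, map_one]
  rw [← MonoidHom.mem_ker, Abelianization.ker_of] at h1
  exact h1

theorem p_emb : S_emb := by
  intro Λ _ _ h
  obtain ⟨f, hinj, hf⟩ := Solv.thmB' h
  set N : Subgroup Λ := commutator Λ with hN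
  have h0 : N.lowerCentralSeries 0 = N := rfl
  have hsup : f.range ⊔ N = ⊤ := by
    have := (hf 0).1
    rwa [h0] at this
  have hcom : N.comap f = clF.ker := by
    have := (hf 0).2
    rw [h0] at this
    rw [this, p_emb_ker]
    rfl
  let π : Fr →* Λ ⧸ N := (QuotientGroup.mk' N).comp f
  have hπ : Function.Surjective π := by
    intro y
    obtain ⟨l, rfl⟩ := QuotientGroup.mk'_surjective N y
    have hl : l ∈ f.range ⊔ N := by rw [hsup]; exact Subgroup.mem_top l
    obtain ⟨u, hu, v, hv, rfl⟩ := Subgroup.mem_sup_of_normal_right.1 hl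
    obtain ⟨g, rfl⟩ := hu
    refine ⟨g, ?_⟩
    show QuotientGroup.mk' N (f g) = QuotientGroup.mk' N (f g * v)
    rw [map_mul, (QuotientGroup.eq_one_iff v).2 hv |> fun h => (h : QuotientGroup.mk' N v = 1),
      mul_one]
  have hker : π.ker = clF.ker := by
    rw [← hcom]
    ext g
    rw [MonoidHom.mem_ker, Subgroup.mem_comap]
    exact QuotientGroup.eq_one_iff (f g)
  let cl' : Λ ⧸ N →* Multiplicative (ℤ × ℤ) := π.liftOfSurjective hπ ⟨clF, hker.le⟩
  have hcl' : ∀ g, cl' (π g) = clF g := fun g =>
    π.liftOfRightInverse_comp_apply _ _ ⟨clF, hker.le⟩ g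
  refine ⟨f, cl'.comp (QuotientGroup.mk' N), hinj, fun c => (hf c).1, fun c => (hf c).2, ?_, ?_⟩
  · ext1
    exact hcl' _
  · ext l
    rw [MonoidHom.mem_ker, MonoidHom.comp_apply]
    constructor
    · intro hl
      obtain ⟨g, hg⟩ := hπ (QuotientGroup.mk' N l)
      rw [← hg, hcl'] at hl
      have hg' : π g = 1 := by
        rw [← MonoidHom.mem_ker, hker, MonoidHom.mem_ker]
        exact hl
      rw [hg] at hg'
      exact (QuotientGroup.eq_one_iff l).1 hg'
    · intro hl
      have : QuotientGroup.mk' N l = 1 := (QuotientGroup.eq_one_iff l).2 hl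
      rw [this, map_one]

end Pool.Agent.F2
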