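import Pool.Agent.Lib.MP_305fdd_al.F2.StmG

/-!
# MP_305fdd_al, F_2, section G, piece ev

The evaluations of the universal pseudo-character ring of `Λ` at the ideals of finite index of
`F_p[x, y, z]`.
-/

set_option autoImplicit false

namespace Pool.Agent.F2

open MvPolynomial Pool.Agent.Lib.MP_305fdd_al Pool.Agent.MP_305fdd_al

private theorem p_ev_map {G R S : Type} [Group G] [CommRing R] [CommRing S] (f : R →+* S)
    {T : G → R} (h : PC T) : PC (fun g => f (T g)) where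
  one := by rw [h.one, map_ofNat]
  comm g k := by rw [h.comm]
  rel g k := by rw [← map_add, h.rel, map_mul]

/-- joint values and functionality for functions with different codomains -/
private theorem p_ev_joint (h4 : S_corr) {G H : Type} [Group G] [Group H] (Φ : NatBij G H)
    {R S : Type} {T₁ : G → R} {T₁' : H → R} {T₂ : G → S} {T₂' : H → S} (c₁ : Corr Φ T₁ T₁')
    (c₂ : Corr Φ T₂ T₂') :
    (∀ h, ∃ g, T₁ g = T₁' h ∧ T₂ g = T₂' h) ∧ ∀ g, ∃ h, T₁' h = T₁ g ∧ T₂' h = T₂ g := by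
  have d₁ := (h4 G H Φ R).2 (R ⊕ S) Sum.inl T₁ T₁' c₁
  have d₂ := (h4 G H Φ S).2 (R ⊕ S) Sum.inr T₂ T₂' c₂
  obtain ⟨e₁, e₂, -⟩ := (h4 G H Φ (R ⊕ S)).1 _ _ _ _ d₁ d₂
  refine ⟨fun h => ?_, fun g => ?_⟩
  · obtain ⟨g, hg, hg'⟩ := e₁ h
    exact ⟨g, Sum.inl_injective hg, Sum.inr_injective hg'⟩
  · obtain ⟨h, hh, hh'⟩ := e₂ g
    exact ⟨h, Sum.inl_injective hh, Sum.inr_injective hh'⟩

private theorem p_ev_alg (h2 : S_auniv) (h4 : S_corr) {p : ℕ} [Fact p.Prime] {Λ : Type} [Group Λ]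
    (Φ : NatBij Fr Λ) {I J : Ideal (Ak (ZMod p))} {e : Uni (ZMod p) Λ →ₐ[ZMod p] Ak (ZMod p) ⧸ I}
    {e' : Uni (ZMod p) Λ →ₐ[ZMod p] Ak (ZMod p) ⧸ J} {T : Λ → Ak (ZMod p) ⧸ I}
    {T' : Λ → Ak (ZMod p) ⧸ J}
    (c : Corr Φ (fun g => Ideal.Quotient.mk I (TA (ZMod p) g)) T)
    (c' : Corr Φ (fun g => Ideal.Quotient.mk J (TA (ZMod p) g)) T')
    (he : ∀ l, e (tu (ZMod p) l) = T l) (he' : ∀ l, e' (tu (ZMod p) l) = T' l)
    (a : Ak (ZMod p)) : ∃ b, e b = Ideal.Quotient.mk I a ∧ e' b = Ideal.Quotient.mk J a := by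
  let f : Uni (ZMod p) Λ →ₐ[ZMod p] (Ak (ZMod p) ⧸ I) × (Ak (ZMod p) ⧸ J) := e.prod e'
  let g : Ak (ZMod p) →ₐ[ZMod p] (Ak (ZMod p) ⧸ I) × (Ak (ZMod p) ⧸ J) :=
    (Ideal.Quotient.mkₐ (ZMod p) I).prod (Ideal.Quotient.mkₐ (ZMod p) J)
  have key : (⊤ : Subalgebra (ZMod p) (Ak (ZMod p))) ≤ f.range.comap g := by
    rw [← (h2.2.1 (ZMod p)).1, Algebra.adjoin_le_iff]
    rintro _ ⟨γ, rfl⟩
    obtain ⟨l, hl, hl'⟩ := (p_ev_joint h4 Φ c c').2 γ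
    show g (TA (ZMod p) γ) ∈ f.range
    refine ⟨tu (ZMod p) l, ?_⟩
    apply Prod.ext
    · show e (tu (ZMod p) l) = Ideal.Quotient.mk I (TA (ZMod p) γ)
      rw [he, hl]
    · show e' (tu (ZMod p) l) = Ideal.Quotient.mk J (TA (ZMod p) γ)
      rw [he', hl']
  obtain ⟨b, hb⟩ := key (Algebra.mem_top (x := a))
  exact ⟨b, congrArg Prod.fst hb, congrArg Prod.snd hb⟩

theorem p_ev (h1 : S_tapc) (h2 : S_auniv) (h3 : S_uni) (h4 : S_corr) (h5 : S_corrpc)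
    (h6 : S_rf) : S_ev := by
  intro p _ Λ _ _ Φ
  have hfg : Group.FG Fr := inferInstance
  obtain ⟨hpu, hadj, huniv⟩ := h3.1 (ZMod p) Λ
  have hT : ∀ J : Ideal (Ak (ZMod p)), PC (fun g => Ideal.Quotient.mk J (TA (ZMod p) g)) :=
    fun J => p_ev_map (Ideal.Quotient.mk J) (h1 (ZMod p)).1
  have hex : ∀ J : {J : Ideal (Ak (ZMod p)) // Finite (Ak (ZMod p) ⧸ J)},
      ∃ (T' : Λ → Ak (ZMod p) ⧸ J.1) (e : Uni (ZMod p) Λ →ₐ[ZMod p] Ak (ZMod p) ⧸ J.1),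
        Corr Φ (fun g => Ideal.Quotient.mk J.1 (TA (ZMod p) g)) T' ∧
          ∀ l, e (tu (ZMod p) l) = T' l := by
    intro J
    obtain ⟨q1, q2, -⟩ := h5 (ZMod p) Fr Λ Φ (Ak (ZMod p) ⧸ J.1)
    have hJ : Finite (Ak (ZMod p) ⧸ J.1) := J.2
    obtain ⟨T', hc⟩ := q2 _ (hT J.1)
    obtain ⟨e, he⟩ := huniv (Ak (ZMod p) ⧸ J.1) T' ((q1 _ _ hc).mp (hT J.1))
    exact ⟨T', e, hc, he⟩
  choose T' ev hcorr hev using hex
  have hfin : ∀ I : Ideal (Uni (ZMod p) Λ), Finite (Uni (ZMod p) Λ ⧸ I) →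
      ∃ J, I = RingHom.ker (ev J) := by
    intro I hI
    have hTI : PC (fun l : Λ => Ideal.Quotient.mk I (tu (ZMod p) l)) :=
      @p_ev_map Λ (Uni (ZMod p) Λ) (Uni (ZMod p) Λ ⧸ I) _ _ _ (Ideal.Quotient.mk I) _ hpu
    obtain ⟨q1, -, q3⟩ := h5 (ZMod p) Fr Λ Φ (Uni (ZMod p) Λ ⧸ I)
    obtain ⟨T, hc⟩ := q3 _ hTI
    obtain ⟨ψ₀, hψ₀⟩ := h2.1 (ZMod p) (Uni (ZMod p) Λ ⧸ I) T ((q1 _ _ hc).mpr hTI)
    let ψ : Ak (ZMod p) ⧸ RingHom.ker ψ₀ →ₐ[ZMod p] Uni (ZMod p) Λ ⧸ I := Ideal.kerLiftAlg ψ₀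
    have hψ : Function.Injective ψ := Ideal.kerLiftAlg_injective ψ₀
    have hfinJ : Finite (Ak (ZMod p) ⧸ RingHom.ker ψ₀) := Finite.of_injective ψ hψ
    let J : {J : Ideal (Ak (ZMod p)) // Finite (Ak (ZMod p) ⧸ J)} := ⟨RingHom.ker ψ₀, hfinJ⟩
    refine ⟨J, ?_⟩
    have hd := (h4 Fr Λ Φ (Ak (ZMod p) ⧸ J.1)).2 (Uni (ZMod p) Λ ⧸ I) ψ _ _ (hcorr J)
    have heq : (fun g => ψ (Ideal.Quotient.mk J.1 (TA (ZMod p) g))) = T := by
      funext g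
      exact hψ₀ g
    have heq' : (fun l => ψ (T' J l)) = fun l : Λ => Ideal.Quotient.mk I (tu (ZMod p) l) :=
      ((h4 Fr Λ Φ (Uni (ZMod p) Λ ⧸ I)).1 _ _ _ _ hd hc).2.2.mp heq
    have hcomp : Ideal.Quotient.mkₐ (ZMod p) I = ψ.comp (ev J) := by
      apply AlgHom.ext_of_adjoin_eq_top hadj
      rintro _ ⟨l, rfl⟩
      rw [AlgHom.comp_apply, hev]
      exact (congrFun heq' l).symm
    ext b
    have hb : b ∈ I ↔ Ideal.Quotient.mkₐ (ZMod p) I b = 0 := Ideal.Quotient.eq_zero_iff_mem.symm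
    rw [hb, RingHom.mem_ker, hcomp, AlgHom.comp_apply]
    constructor
    · intro hb
      exact hψ (by rw [hb, map_zero])
    · intro hb
      rw [hb, map_zero]
  refine ⟨ev, h3.2 (ZMod p) Λ, ?_, ?_, ?_, hfin, ?_⟩
  · intro J a
    obtain ⟨a, rfl⟩ := Ideal.Quotient.mk_surjective a
    obtain ⟨b, hb, -⟩ := p_ev_alg h2 h4 Φ (hcorr J) (hcorr J) (hev J) (hev J) a
    exact ⟨b, hb⟩
  · intro J J' hJ b
    have hd := (h4 Fr Λ Φ (Ak (ZMod p) ⧸ J.1)).2 (Ak (ZMod p) ⧸ J'.1)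
      (Ideal.Quotient.factor hJ) _ _ (hcorr J)
    have heq : (fun g => Ideal.Quotient.factor hJ (Ideal.Quotient.mk J.1 (TA (ZMod p) g))) =
        fun g => Ideal.Quotient.mk J'.1 (TA (ZMod p) g) := by
      funext g
      exact Ideal.Quotient.factor_mk hJ _
    have heq' := ((h4 Fr Λ Φ (Ak (ZMod p) ⧸ J'.1)).1 _ _ _ _ hd (hcorr J')).2.2.mp heq
    have hcomp : (Ideal.Quotient.factorₐ (ZMod p) hJ).comp (ev J) = ev J' := by
      apply AlgHom.ext_of_adjoin_eq_top hadj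
      rintro _ ⟨l, rfl⟩
      rw [AlgHom.comp_apply, hev, hev]
      exact congrFun heq' l
    exact DFunLike.congr_fun hcomp b
  · have key : ∀ J J' : {J : Ideal (Ak (ZMod p)) // Finite (Ak (ZMod p) ⧸ J)},
        RingHom.ker (ev J) = RingHom.ker (ev J') → J.1 ≤ J'.1 := by
      intro J J' hJJ' a ha
      obtain ⟨b, hb, hb'⟩ := p_ev_alg h2 h4 Φ (hcorr J) (hcorr J') (hev J) (hev J') a
      have hk : b ∈ RingHom.ker (ev J) := by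
        rw [RingHom.mem_ker, hb]
        exact Ideal.Quotient.eq_zero_iff_mem.mpr ha
      rw [hJJ', RingHom.mem_ker, hb'] at hk
      exact Ideal.Quotient.eq_zero_iff_mem.mp hk
    intro J J' hJJ'
    exact Subtype.ext (le_antisymm (key J J' hJJ') (key J' J hJJ'.symm))
  · intro b hb
    by_contra hne
    obtain ⟨I, hI, hbI⟩ := (h6 p (Uni (ZMod p) Λ) (h3.2 (ZMod p) Λ)).2 b hne
    obtain ⟨J, hJ⟩ := hfin I hI
    apply hbI
    rw [hJ, RingHom.mem_ker]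
    exact hb J

end Pool.Agent.F2
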