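import Pool.Agent.Lib.MP_305fdd_al.F2.StmG

set_option autoImplicit false

namespace Pool.Agent.F2

open MvPolynomial Pool.Agent.Lib.MP_305fdd_al Pool.Agent.MP_305fdd_al
open scoped commutatorElement

noncomputable section

/-- the group elements in the group algebra -/
private def p_fox_chi (k : Type) [Field k] (c : Multiplicative (ℤ × ℤ)) : Lau k :=
  AddMonoidAlgebra.single (Multiplicative.toAdd c) 1

private theorem p_fox_chi_mul (k : Type) [Field k] (a b : Multiplicative (ℤ × ℤ)) :
    p_fox_chi k (a * b) = p_fox_chi k a * p_fox_chi k b := by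
  rw [p_fox_chi, p_fox_chi, p_fox_chi, AddMonoidAlgebra.single_mul_single, one_mul, toAdd_mul]

private theorem p_fox_chi_one (k : Type) [Field k] : p_fox_chi k 1 = 1 := rfl

private theorem p_fox_chi_inj (k : Type) [Field k] {a : Multiplicative (ℤ × ℤ)}
    (h : p_fox_chi k a = 1) : a = 1 := by
  by_contra hne
  have h1 := congrArg (fun P : Lau k => P.coeff (Multiplicative.toAdd a)) h
  have h2 : (p_fox_chi k a).coeff (Multiplicative.toAdd a) = 1 := by
    rw [p_fox_chi, AddMonoidAlgebra.coeff_single, Finsupp.single_eq_same]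
  have h3 : (1 : Lau k).coeff (Multiplicative.toAdd a) = 0 := by
    rw [AddMonoidAlgebra.one_def, AddMonoidAlgebra.coeff_single,
      Finsupp.single_eq_of_ne]
    intro h4
    exact hne (by simpa using h4)
  simp only [h2, h3] at h1
  exact one_ne_zero h1

/-- affine permutations -/
private def p_fox_perm (k : Type) [Field k] (a : Multiplicative (ℤ × ℤ)) (α : Lau k) :
    Equiv.Perm (Lau k) where
  toFun F := p_fox_chi k a * F + α
  invFun F := p_fox_chi k a⁻¹ * (F - α)
  left_inv F := by
    change p_fox_chi k a⁻¹ * (p_fox_chi k a * F + α - α) = F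
    rw [add_sub_cancel_right, ← mul_assoc, ← p_fox_chi_mul, inv_mul_cancel, p_fox_chi_one, one_mul]
  right_inv F := by
    change p_fox_chi k a * (p_fox_chi k a⁻¹ * (F - α)) + α = F
    rw [← mul_assoc, ← p_fox_chi_mul, mul_inv_cancel, p_fox_chi_one, one_mul, sub_add_cancel]

/-- cocycles with given values at the generators -/
private theorem p_fox_cocycle (k : Type) [Field k] (α β : Lau k) : ∃ f : Fr → Lau k,
    (∀ g h, f (g * h) = f g + p_fox_chi k (clF g) * f h) ∧ f gx = α ∧ f gy = β := by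
  let ρ : Fr →* Equiv.Perm (Lau k) := FreeGroup.lift
    ![p_fox_perm k (Multiplicative.ofAdd (1, 0)) α, p_fox_perm k (Multiplicative.ofAdd (0, 1)) β]
  have key : ∀ g F, ρ g F = p_fox_chi k (clF g) * F + ρ g 0 := by
    intro g
    induction g using FreeGroup.induction_on with
    | C1 => intro F; rw [map_one, map_one, p_fox_chi_one, one_mul, Equiv.Perm.one_apply,
        Equiv.Perm.one_apply, add_zero]
    | of i =>
      intro F
      have h1 : ρ (FreeGroup.of i) = ![p_fox_perm k (Multiplicative.ofAdd (1, 0)) α,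
          p_fox_perm k (Multiplicative.ofAdd (0, 1)) β] i := FreeGroup.lift_apply_of
      have h2 : clF (FreeGroup.of i) = ![Multiplicative.ofAdd ((1 : ℤ), (0 : ℤ)),
          Multiplicative.ofAdd (0, 1)] i := FreeGroup.lift_apply_of
      change ρ (FreeGroup.of i) F = p_fox_chi k (clF (FreeGroup.of i)) * F + ρ (FreeGroup.of i) 0
      rw [h1, h2]
      fin_cases i
      · change p_fox_chi k _ * F + α = p_fox_chi k _ * F + (p_fox_chi k _ * 0 + α)
        rw [mul_zero, zero_add]
        rfl
      · change p_fox_chi k _ * F + β = p_fox_chi k _ * F + (p_fox_chi k _ * 0 + β)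
        rw [mul_zero, zero_add]
        rfl
    | inv_of i ih =>
      intro F
      change ρ (FreeGroup.of i)⁻¹ F = p_fox_chi k (clF (FreeGroup.of i)⁻¹) * F +
        ρ (FreeGroup.of i)⁻¹ 0
      replace ih : ∀ F, ρ (FreeGroup.of i) F = p_fox_chi k (clF (FreeGroup.of i)) * F +
        ρ (FreeGroup.of i) 0 := ih
      have h3 : ∀ F, ρ (FreeGroup.of i)⁻¹ F =
          p_fox_chi k (clF (FreeGroup.of i))⁻¹ * (F - ρ (FreeGroup.of i) 0) := by
        intro F
        have h4 := ih (ρ (FreeGroup.of i)⁻¹ F)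
        have h5 : ρ (FreeGroup.of i) (ρ (FreeGroup.of i)⁻¹ F) = F := by
          rw [map_inv]
          exact (ρ (FreeGroup.of i)).apply_symm_apply F
        rw [h5] at h4
        conv_rhs => rw [h4]
        rw [ add_sub_cancel_right, ← mul_assoc, ← p_fox_chi_mul, inv_mul_cancel,
          p_fox_chi_one, one_mul]
      rw [h3 F, h3 0, map_inv]
      ring
    | mul g h ihg ihh =>
      intro F
      rw [map_mul, map_mul, p_fox_chi_mul, Equiv.Perm.mul_apply, Equiv.Perm.mul_apply, ihh F,
        ihg (_ + _), ihg (ρ h 0)]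
      ring
  refine ⟨fun g => ρ g 0, fun g h => ?_, ?_, ?_⟩
  · change ρ (g * h) 0 = ρ g 0 + p_fox_chi k (clF g) * ρ h 0
    rw [map_mul, Equiv.Perm.mul_apply, key g (ρ h 0), add_comm]
  · have h1 : ρ gx = p_fox_perm k (Multiplicative.ofAdd (1, 0)) α := FreeGroup.lift_apply_of
    change ρ gx 0 = α
    rw [h1]
    change p_fox_chi k _ * 0 + α = α
    rw [mul_zero, zero_add]
  · have h1 : ρ gy = p_fox_perm k (Multiplicative.ofAdd (0, 1)) β := FreeGroup.lift_apply_of
    change ρ gy 0 = β
    rw [h1]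
    change p_fox_chi k _ * 0 + β = β
    rw [mul_zero, zero_add]

private theorem p_fox_unique (k : Type) [Field k] (c d : Fr → Lau k)
    (hc : ∀ g h, c (g * h) = c g + p_fox_chi k (clF g) * c h)
    (hd : ∀ g h, d (g * h) = d g + p_fox_chi k (clF g) * d h) (hx : c gx = d gx) (hy : c gy = d gy) :
    ∀ g, c g = d g := by
  have one : ∀ e : Fr → Lau k, (∀ g h, e (g * h) = e g + p_fox_chi k (clF g) * e h) → e 1 = 0 := by
    intro e he
    have h1 := he 1 1
    rw [mul_one, map_one, p_fox_chi_one, one_mul] at h1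
    have h2 : e 1 + 0 = e 1 + e 1 := by rw [add_zero]; exact h1
    exact (add_left_cancel h2).symm
  have inv : ∀ e : Fr → Lau k, (∀ g h, e (g * h) = e g + p_fox_chi k (clF g) * e h) →
      ∀ g, e g⁻¹ = -(p_fox_chi k (clF g)⁻¹ * e g) := by
    intro e he g
    have h1 := he g⁻¹ g
    rw [inv_mul_cancel, one e he, map_inv] at h1
    exact eq_neg_of_add_eq_zero_left h1.symm
  intro g
  induction g using FreeGroup.induction_on with
  | C1 => rw [one c hc, one d hd]
  | of i =>
    fin_cases i
    · exact hx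
    · exact hy
  | inv_of i ih =>
    have ih' : c (FreeGroup.of i) = d (FreeGroup.of i) := ih
    change c (FreeGroup.of i)⁻¹ = d (FreeGroup.of i)⁻¹
    rw [inv c hc, inv d hd, ih']
  | mul g h ihg ihh => rw [hc, hd, ihg, ihh]

theorem p_fox (h1 : S_cop) : S_fox := by
  intro k _
  obtain ⟨fx, hfx, fxx, fxy⟩ := p_fox_cocycle k 1 0
  obtain ⟨fy, hfy, fyx, fyy⟩ := p_fox_cocycle k 0 1
  refine ⟨fx, fy, hfx, hfy, fxx, fxy, fyx, fyy, ?_⟩
  have hcx : clF gx = Multiplicative.ofAdd (1, 0) := FreeGroup.lift_apply_of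
  have hcy : clF gy = Multiplicative.ofAdd (0, 1) := FreeGroup.lift_apply_of
  have form : ∀ g, fx g * (p_fox_chi k (clF gx) - 1) + fy g * (p_fox_chi k (clF gy) - 1) =
      p_fox_chi k (clF g) - 1 := by
    refine p_fox_unique k _ _ ?_ ?_ ?_ ?_
    · intro g h
      rw [hfx, hfy]
      ring
    · intro g h
      rw [map_mul, p_fox_chi_mul]
      ring
    · rw [fxx, fyx]; ring
    · rw [fxy, fyy]; ring
  have nx : p_fox_chi k (clF gx) - 1 ≠ 0 := by
    intro h
    have h2 := p_fox_chi_inj k (sub_eq_zero.mp h)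
    rw [hcx] at h2
    have h3 := congrArg (fun c => (Multiplicative.toAdd c).1) h2
    simp at h3
  have ny : p_fox_chi k (clF gy) - 1 ≠ 0 := by
    intro h
    have h2 := p_fox_chi_inj k (sub_eq_zero.mp h)
    rw [hcy] at h2
    have h3 := congrArg (fun c => (Multiplicative.toAdd c).2) h2
    simp at h3
  have comm : ∀ (f : Fr → Lau k), (∀ g h, f (g * h) = f g + p_fox_chi k (clF g) * f h) →
      ∀ g h, f ⁅g, h⁆ = 0 → (1 - p_fox_chi k (clF h)) * f g = (1 - p_fox_chi k (clF g)) * f h := by
    intro f hf g h hw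
    have h2 := hf ⁅g, h⁆ (h * g)
    have h3 : ⁅g, h⁆ * (h * g) = g * h := by
      rw [commutatorElement_def]; group
    have h4 : clF ⁅g, h⁆ = 1 := by
      rw [map_commutatorElement, commutatorElement_eq_one_iff_mul_comm]
      exact mul_comm _ _
    rw [h3, h4, p_fox_chi_one, one_mul, hw, zero_add, hf, hf] at h2
    linear_combination h2
  intro g h hor
  have hw : clF ⁅g, h⁆ = 1 := by
    rw [map_commutatorElement, commutatorElement_eq_one_iff_mul_comm]
    exact mul_comm _ _
  have hform := form ⁅g, h⁆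
  rw [hw, p_fox_chi_one, sub_self] at hform
  have hxy : fx ⁅g, h⁆ = 0 ∧ fy ⁅g, h⁆ = 0 := by
    rcases hor with h2 | h2
    · refine ⟨h2, ?_⟩
      rw [h2, zero_mul, zero_add] at hform
      exact (mul_eq_zero.mp hform).resolve_right ny
    · refine ⟨?_, h2⟩
      rw [h2, zero_mul, add_zero] at hform
      exact (mul_eq_zero.mp hform).resolve_right nx
  by_contra hD
  obtain ⟨A, hA⟩ := h1 k (clF g) (clF h) hD (fx g) (fx h) (comm fx hfx g h hxy.1)
  obtain ⟨B, hB⟩ := h1 k (clF g) (clF h) hD (fy g) (fy h) (comm fy hfy g h hxy.2)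
  have hA' : fx g = (1 - p_fox_chi k (clF g)) * A := hA
  have hB' : fy g = (1 - p_fox_chi k (clF g)) * B := hB
  have hne : 1 - p_fox_chi k (clF g) ≠ 0 := by
    intro h2
    have h3 := p_fox_chi_inj k (sub_eq_zero.mp h2).symm
    exact hD ⟨1, 0, Or.inl one_ne_zero, by rw [h3]; simp⟩
  have hg := form g
  rw [hA', hB'] at hg
  have h5 : (1 - p_fox_chi k (clF g)) * (A * (p_fox_chi k (clF gx) - 1) +
      B * (p_fox_chi k (clF gy) - 1) + 1) = 0 := by
    linear_combination hg
  have h6 := (mul_eq_zero.mp h5).resolve_left hne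
  let ε : Lau k →ₐ[k] k := AddMonoidAlgebra.lift k k (ℤ × ℤ) 1
  have hε : ∀ c, ε (p_fox_chi k c) = 1 := by
    intro c
    change AddMonoidAlgebra.lift k k (ℤ × ℤ) 1 (AddMonoidAlgebra.single _ 1) = 1
    rw [AddMonoidAlgebra.lift_single]
    simp
  have h7 := congrArg ε h6
  rw [map_add, map_add, map_mul, map_mul, map_sub, map_sub, hε, hε, map_one, sub_self, mul_zero,
    mul_zero, zero_add, zero_add, map_zero] at h7
  exact one_ne_zero h7

end

end Pool.Agent.F2
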