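import Pool.Agent.Lib.MP_305fdd_al.F2.StmG

/-!
# MP_305fdd_al (`F_2`), section G: piece fr3 (the relation of Fricke for three elements)
-/

set_option autoImplicit false

namespace Pool.Agent.F2

open MvPolynomial Pool.Agent.Lib.MP_305fdd_al Pool.Agent.MP_305fdd_al
open scoped commutatorElement

theorem p_fr3 (h1 : S_br) : S_fr3 := by
  intro k _ G _ R _ _ T hT a b u
  obtain ⟨hinv, hsq, hconj, hcom⟩ := (h1 k G R T).2 hT
  -- the relation in the form T (g * h⁻¹) = T g * T h - T (g * h)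
  have hr : ∀ g h : G, T (g * h⁻¹) = T g * T h - T (g * h) := fun g h => by
    linear_combination hT.rel g h
  -- triple
  have t1 : T (a * u⁻¹ * b⁻¹) = T a * T (b * u) - T (a * b * u) := by
    have := hr a (b * u)
    rw [mul_inv_rev, ← mul_assoc, ← mul_assoc] at this
    exact this
  have t2 : T (a * u⁻¹ * b⁻¹) = T (b⁻¹ * a) * T u - T (b⁻¹ * a * u) := by
    rw [hT.comm (a * u⁻¹) b⁻¹, ← mul_assoc]
    exact hr (b⁻¹ * a) u
  have t3 : T (b⁻¹ * a) = T a * T b - T (a * b) := by
    rw [hT.comm]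
    exact hr a b
  have t4 : T (b⁻¹ * a * u) = T (a * u) * T b - T (b * a * u) := by
    rw [mul_assoc, hT.comm, hr (a * u) b, hT.comm (a * u) b, mul_assoc b a u]
  -- product
  have q1 : T (a * b * u) * T (b * a * u) = T (a * b * u * (b * a * u)) + T ⁅a, b⁆ := by
    rw [← hT.rel (a * b * u) (b * a * u)]
    congr 2
    rw [commutatorElement_def]
    group
  have q2 : T (a * b * u * (b * a * u)) = T (b * u * (b * a * u * a)) := by
    have e : a * b * u * (b * a * u) = a * (b * u * (b * a * u)) := by group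
    rw [e, hT.comm]
    congr 1
    group
  have q3 : T (b * u * (b * a * u * a)) =
      T (b * u) * T (b * a * u * a) - T (b * u * (b * a * u * a)⁻¹) := by
    rw [hr]
    ring
  have q4 : T (b * u * (b * a * u * a)⁻¹) = T (u⁻¹ * a * u * a) := by
    have e : b * u * (b * a * u * a)⁻¹ = b * (u * a⁻¹ * u⁻¹ * a⁻¹) * b⁻¹ := by group
    rw [e, hconj, ← hinv]
    have e2 : (u * a⁻¹ * u⁻¹ * a⁻¹)⁻¹ = a * u * a * u⁻¹ := by group
    rw [e2, hT.comm]
    congr 1
    group
  have q5 : T (u⁻¹ * a * u * a) = T a ^ 2 - T ⁅u⁻¹, a⁆ := by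
    have e1 : T (u⁻¹ * a * u) = T a := by
      have := hconj a u⁻¹
      rwa [inv_inv] at this
    have e2 : u⁻¹ * a * u * a⁻¹ = ⁅u⁻¹, a⁆ := by
      rw [commutatorElement_def, inv_inv]
    have e3 := hr (u⁻¹ * a * u) a
    rw [e2, e1] at e3
    linear_combination e3
  have q6 : T (b * a * u * a) = T (a * b) * T (a * u) - T (a * b * (a * u)⁻¹) := by
    rw [hr]
    have e : T (b * a * u * a) = T (a * b * (a * u)) := by
      rw [hT.comm]
      congr 1
      group
    rw [e]
    ring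
  have q7 : T (a * b * (a * u)⁻¹) = T b * T u - T (b * u) := by
    have e : a * b * (a * u)⁻¹ = a * (b * u⁻¹) * a⁻¹ := by group
    rw [e, hconj, hr]
  have q8 : T ⁅u⁻¹, a⁆ = T u ^ 2 + T a ^ 2 + (T a * T u - T (a * u)) ^ 2 -
      T u * T a * (T a * T u - T (a * u)) - 2 := by
    rw [hcom u⁻¹ a, hinv u, hT.comm u⁻¹ a, hr a u]
  have q9 := hcom a b
  have hP : T (b * a * u) = T a * T (b * u) + T b * T (a * u) + T u * T (a * b) -
      T a * T b * T u - T (a * b * u) := by
    rw [t1, t3, t4] at t2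
    linear_combination - t2
  have hQ : T (a * b * u) * T (b * a * u) =
      T (b * u) * (T (a * b) * T (a * u) - (T b * T u - T (b * u))) -
        (T a ^ 2 - T ⁅u⁻¹, a⁆) + T ⁅a, b⁆ := by
    rw [q1, q2, q3, q4, q5, q6, q7]
  rw [q8, q9, hP] at hQ
  linear_combination - hQ

end Pool.Agent.F2
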