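import Pool.Agent.Lib.MP_305fdd_al.F2.StmG

/-!
# MP_305fdd_al (`F_2`), section G: the finite quotients at the reducible locus
-/

set_option autoImplicit false

namespace Pool.Agent.F2

open MvPolynomial Pool.Agent.Lib.MP_305fdd_al Pool.Agent.MP_305fdd_al
open scoped commutatorElement
open Pool.Agent.F2TF (Pol fpow S_count)

private theorem frb_main {A B : Type} [CommRing A] [CommRing B] (q e : ℕ) (κ : A)
    (β1 : B →+* A ⧸ (Ideal.span {κ ^ 1} : Ideal A)) (βq : B →+* A ⧸ (Ideal.span {κ ^ q} : Ideal A))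
    (hs1 : Function.Surjective β1) (hsq : Function.Surjective βq)
    (hc : ∀ b a, βq b = Ideal.Quotient.mk _ a → β1 b = Ideal.Quotient.mk _ a) (m : Ideal B)
    (hm : RingHom.ker β1 ≤ m) (hfin : Finite (B ⧸ m))
    (cB : Finite (B ⧸ fpow q m) ∧ Nat.card (B ⧸ fpow q m) = Nat.card (B ⧸ m) ^ e)
    (cA : ∀ J : Ideal A, Finite (A ⧸ J) → Finite (A ⧸ fpow q J) ∧
      Nat.card (A ⧸ fpow q J) = Nat.card (A ⧸ J) ^ e) :
    ∀ b, βq b = 0 → b ∈ fpow q m := by
  let J : Ideal A := Ideal.comap (Ideal.Quotient.mk (Ideal.span {κ ^ 1})) (Ideal.map β1 m)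
  have hJ : ∀ b a, β1 b = Ideal.Quotient.mk _ a → (b ∈ m ↔ a ∈ J) := by
    intro b a hba
    have h1 : Ideal.comap β1 (Ideal.map β1 m) = m := by
      rw [Ideal.comap_map_of_surjective' β1 hs1]
      exact sup_eq_left.2 hm
    have h2 : a ∈ J ↔ Ideal.Quotient.mk (Ideal.span {κ ^ 1}) a ∈ Ideal.map β1 m := Iff.rfl
    rw [h2, ← hba, ← Ideal.mem_comap, h1]
  have hκ0 : (Ideal.Quotient.mk (Ideal.span {κ ^ 1} : Ideal A)) κ = 0 := by
    rw [Ideal.Quotient.eq_zero_iff_mem, pow_one]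
    exact Ideal.subset_span rfl
  have hκ : κ ∈ J := (hJ 0 κ (by rw [map_zero, hκ0])).1 (zero_mem m)
  have hle1 : (Ideal.span {κ ^ 1} : Ideal A) ≤ J := by
    rw [Ideal.span_singleton_le_iff_mem, pow_one]
    exact hκ
  have hleq : (Ideal.span {κ ^ q} : Ideal A) ≤ fpow q J := by
    rw [Ideal.span_singleton_le_iff_mem]
    exact Ideal.subset_span ⟨κ, hκ, rfl⟩
  -- first quotient
  let γ : B →+* A ⧸ J := (Ideal.Quotient.factor hle1).comp β1
  have hγs : Function.Surjective γ := by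
    intro y
    obtain ⟨a, rfl⟩ := Ideal.Quotient.mk_surjective y
    obtain ⟨b, hb⟩ := hs1 (Ideal.Quotient.mk _ a)
    refine ⟨b, ?_⟩
    change Ideal.Quotient.factor hle1 (β1 b) = _
    rw [hb, Ideal.Quotient.factor_mk]
  have hγk : RingHom.ker γ = m := by
    ext b
    obtain ⟨a, ha⟩ := Ideal.Quotient.mk_surjective (β1 b)
    rw [RingHom.mem_ker, hJ b a ha.symm]
    change Ideal.Quotient.factor hle1 (β1 b) = 0 ↔ _
    rw [← ha, Ideal.Quotient.factor_mk, Ideal.Quotient.eq_zero_iff_mem]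
  let E : (B ⧸ m) ≃+* (A ⧸ J) :=
    (Ideal.quotEquivOfEq hγk.symm).trans (RingHom.quotientKerEquivOfSurjective hγs)
  have hfA : Finite (A ⧸ J) := Finite.of_equiv _ E.toEquiv
  have hcard : Nat.card (B ⧸ m) = Nat.card (A ⧸ J) := Nat.card_congr E.toEquiv
  obtain ⟨hfB', hcB⟩ := cB
  obtain ⟨hfA', hcA⟩ := cA J hfA
  -- second quotient
  let δ : B →+* A ⧸ fpow q J := (Ideal.Quotient.factor hleq).comp βq
  have hδ : ∀ b a, βq b = Ideal.Quotient.mk _ a → δ b = Ideal.Quotient.mk _ a := by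
    intro b a h
    change Ideal.Quotient.factor hleq (βq b) = _
    rw [h, Ideal.Quotient.factor_mk]
  have hδs : Function.Surjective δ := by
    intro y
    obtain ⟨a, rfl⟩ := Ideal.Quotient.mk_surjective y
    obtain ⟨b, hb⟩ := hsq (Ideal.Quotient.mk _ a)
    exact ⟨b, hδ b a hb⟩
  have hδk : fpow q m ≤ RingHom.ker δ := by
    refine Ideal.span_le.2 ?_
    rintro _ ⟨c, hc', rfl⟩
    have hcm : c ∈ m := hc'
    obtain ⟨a, ha⟩ := Ideal.Quotient.mk_surjective (βq c)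
    have h1 := hδ c a ha.symm
    have h2 : a ∈ J := (hJ c a (hc c a ha.symm)).1 hcm
    change c ^ q ∈ RingHom.ker δ
    rw [RingHom.mem_ker, map_pow, h1, ← map_pow, Ideal.Quotient.eq_zero_iff_mem]
    exact Ideal.subset_span ⟨a, h2, rfl⟩
  let φ : B ⧸ fpow q m →+* A ⧸ fpow q J := Ideal.Quotient.lift (fpow q m) δ fun b hb => hδk hb
  have hφ : ∀ b, φ (Ideal.Quotient.mk _ b) = δ b := fun b => Ideal.Quotient.lift_mk _ _ _
  have hφs : Function.Surjective φ := by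
    intro y
    obtain ⟨b, hb⟩ := hδs y
    exact ⟨Ideal.Quotient.mk _ b, by rw [hφ, hb]⟩
  have hφi : Function.Injective φ :=
    (hφs.bijective_of_nat_card_le (by rw [hcB, hcA, hcard])).1
  intro b hb
  have h1 : δ b = 0 := by rw [hδ b 0 (by rw [hb, map_zero]), map_zero]
  have h2 : φ (Ideal.Quotient.mk _ b) = φ 0 := by rw [hφ, h1, map_zero]
  exact Ideal.Quotient.eq_zero_iff_mem.1 (hφi h2)

theorem p_frb (h0 : S_count) (h1 : S_ev) (h2 : S_rf) (h3 : S_uni) (h4 : S_auniv)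
    (_h5 : S_kera) : S_frb := by
  intro p _ Λ _ _ f cl hE hΛ β hβ hcomp m hm hker r b hb
  -- the maps `β n` are surjective
  have hbf : ∀ (n : ℕ) (g : Fr), β n (tu (ZMod p) (f g)) = Ideal.Quotient.mk _ (TA (ZMod p) g) := by
    intro n g
    apply hβ
    rw [mul_inv_cancel]
    exact one_mem _
  have hsurj : ∀ n, Function.Surjective (β n) := by
    intro n y
    obtain ⟨a, rfl⟩ := Ideal.Quotient.mk_surjective y
    have h6 : Algebra.adjoin (ZMod p) (Set.range (TA (ZMod p))) ≤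
        Subalgebra.comap (Ideal.Quotient.mkₐ (ZMod p)
          (Ideal.span {kap (ZMod p) ^ n} : Ideal (Ak (ZMod p)))) (β n).range := by
      refine Algebra.adjoin_le ?_
      rintro _ ⟨g, rfl⟩
      exact ⟨tu (ZMod p) (f g), hbf n g⟩
    rw [(h4.2.1 (ZMod p)).1] at h6
    obtain ⟨b, hb⟩ := h6 (Algebra.mem_top (x := a))
    exact ⟨b, hb⟩
  -- the natural bijection and the evaluations
  obtain ⟨Φ⟩ := exists_natBij hΛ.symm
  obtain ⟨ev, hev⟩ := h1 p Λ Φ
  have hftB : Algebra.FiniteType (ZMod p) (Uni (ZMod p) Λ) := h3.2 (ZMod p) Λ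
  have hfin : Finite (Uni (ZMod p) Λ ⧸ m) := (h2 p _ hftB).1 m hm
  have cB := h0 p 3 (Uni (ZMod p) Λ) ev hev m hfin r
  have hftA : Algebra.FiniteType (ZMod p) (Ak (ZMod p)) := inferInstance
  have hk : ∀ J : Ideal (Ak (ZMod p)), RingHom.ker (Ideal.Quotient.mkₐ (ZMod p) J) = J := by
    intro J
    ext x
    exact Ideal.Quotient.eq_zero_iff_mem
  have hevA : CC.IsTR p (Ak (ZMod p)) (Ak (ZMod p))
      (fun J => Ideal.Quotient.mkₐ (ZMod p) J.1) := by
    refine ⟨hftA, fun J => Ideal.Quotient.mkₐ_surjective _ _, ?_, ?_, ?_, ?_⟩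
    · intro J J' hJ b
      exact Ideal.Quotient.factor_mk hJ b
    · intro J J' h
      rw [hk, hk] at h
      exact Subtype.ext h
    · intro I hI
      exact ⟨⟨I, hI⟩, (hk I).symm⟩
    · intro b hb
      by_contra hb0
      obtain ⟨I, hI, hbI⟩ := (h2 p _ hftA).2 b hb0
      exact hbI (Ideal.Quotient.eq_zero_iff_mem.1 (hb ⟨I, hI⟩))
  have cA : ∀ J : Ideal (Ak (ZMod p)), Finite (Ak (ZMod p) ⧸ J) →
      Finite (Ak (ZMod p) ⧸ fpow (p ^ r) J) ∧
      Nat.card (Ak (ZMod p) ⧸ fpow (p ^ r) J) = Nat.card (Ak (ZMod p) ⧸ J) ^ p ^ (3 * r) :=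
    fun J hJ => h0 p 3 (Ak (ZMod p)) _ hevA J hJ r
  have hq1 : 1 ≤ p ^ r := Nat.one_le_pow _ _ (Fact.out : p.Prime).pos
  have hle : (Ideal.span {kap (ZMod p) ^ (p ^ r)} : Ideal (Ak (ZMod p))) ≤
      Ideal.span {kap (ZMod p) ^ 1} := by
    rw [Ideal.span_singleton_le_span_singleton]
    exact pow_dvd_pow _ hq1
  have hc : ∀ b a, β (p ^ r) b = Ideal.Quotient.mk _ a → β 1 b = Ideal.Quotient.mk _ a := by
    intro b a h
    rw [← hcomp 1 (p ^ r) hle b, h, Ideal.Quotient.factor_mk]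
  have hmain := frb_main (p ^ r) (p ^ (3 * r)) (kap (ZMod p)) (β 1 : _ →+* _)
    (β (p ^ r) : _ →+* _) (hsurj 1) (hsurj (p ^ r)) hc m hker hfin cB cA
  -- the conclusion
  obtain ⟨c, hcq⟩ := Ideal.Quotient.mk_surjective (β (p ^ r) b)
  have h7 := hc b c hcq.symm
  rw [hb] at h7
  have h8 : c ∈ (Ideal.span {kap (ZMod p) ^ 1} : Ideal (Ak (ZMod p))) :=
    Ideal.Quotient.eq_zero_iff_mem.1 h7.symm
  rw [Ideal.mem_span_singleton, pow_one] at h8
  obtain ⟨a, rfl⟩ := h8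
  obtain ⟨b', hb'⟩ := hsurj (p ^ r) (Ideal.Quotient.mk _ a)
  refine ⟨b', hmain _ ?_⟩
  change β (p ^ r) (b - (tu (ZMod p) ⁅f gx, f gy⁆ - 2) * b') = 0
  have h9 : β (p ^ r) (tu (ZMod p) ⁅f gx, f gy⁆) = Ideal.Quotient.mk _ (kap (ZMod p) + 2) := by
    rw [← h4.2.2 (ZMod p), ← map_commutatorElement, hbf]
  rw [map_sub, map_mul, map_sub, h9, hb', ← hcq, map_ofNat, map_add, map_mul, map_ofNat]
  ring

end Pool.Agent.F2
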