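import Pool.Agent.Lib.MP_305fdd_al.F2.StmG

/-!
# MP_305fdd_al (`F_2`), section G: assembly
-/

set_option autoImplicit false

namespace Pool.Agent.F2

open MvPolynomial Pool.Agent.Lib.MP_305fdd_al Pool.Agent.MP_305fdd_al
open scoped commutatorElement

private theorem kap_ne (h14 : S_kera) (k : Type) [Field k] :
    kap k ≠ 0 ∧ ¬ IsUnit (kap k) := by
  constructor
  · intro h
    have h1 : aeval (fun _ : Fin 3 => (0 : k)) (kap k) = aeval (fun _ : Fin 3 => (0 : k)) (0 : Ak k) := by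
      rw [h]
    have h2 : aeval (![0, 0, 1] : Fin 3 → k) (kap k) = aeval (![0, 0, 1] : Fin 3 → k) (0 : Ak k) := by
      rw [h]
    simp [kap] at h1 h2
    rw [map_ofNat] at h1
    have : (1 : k) = 0 := by linear_combination h2 + h1
    exact one_ne_zero this
  · intro h
    have h1 := (h14 k 1).2 h.dvd
    rw [map_one] at h1
    exact one_ne_zero h1

theorem p_g (h1 : S_emb) (h2 : S_tr) (h3 : S_dom) (h4 : S_res) (h5 : S_loc) (h6 : S_two)
    (h7 : S_dep) (h8 : S_npd) (h9 : S_bch) (h10 : S_bcl) (h11 : S_bcn) (h12 : S_auniv)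
    (h13 : S_kera) : S_g := by
  intro p _ hp k _ _ _ Λ _ _ hΛ
  obtain ⟨f, cl, hE⟩ := h1 Λ hΛ
  obtain ⟨D₀, i1, i2, T₀, β₀, hT₀⟩ := h2 (ZMod p) Λ f cl hE
  obtain ⟨D, i3, i4, T, β, hT⟩ := h2 k Λ f cl hE
  obtain ⟨⟨res, hres, hres0⟩, -⟩ := h4 k Λ f cl hE D T β hT
  obtain ⟨ψ, hψ, hspan, -⟩ := h9 p k Λ f cl hE D₀ T₀ β₀ D T β hT₀ hT
  obtain ⟨g₀, hg₀⟩ := h8 p Λ f hΛ D₀ T₀ hT₀.pc hT₀.gen
  have hnp := h11 p k D₀ D ψ hspan _ g₀ hg₀
  have h2k : (2 : k) ≠ 0 := by
    intro h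
    have h' : ((2 : ℕ) : k) = 0 := by exact_mod_cast h
    rw [CharP.cast_eq_zero_iff k p] at h'
    have := (Nat.prime_dvd_prime_iff_eq (Fact.out : p.Prime) Nat.prime_two).1 h'
    exact hp this
  have hdom : IsDomain D := h3 k Λ f D T β hT
  obtain ⟨e, he1, he2⟩ := h10 p k Λ f cl hE D₀ T₀ β₀ D T β hT₀ hT
    (h5 p Λ f cl hE hΛ D₀ T₀ β₀ hT₀)
  refine ⟨f, cl, D, i3, i4, T, res, fun i => ψ (g₀ i), hE, ?_, ?_⟩
  · refine ⟨hT.pc, hT.gen, hT.ft, hdom, hres, ?_, ⟨e, ?_, ?_⟩, h6 k h2k Λ f cl hE D T β hT,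
      h7 k Λ f cl hE D T β hT⟩
    · intro h
      have hb : β 2 (T ⁅f gx, f gy⁆) = Ideal.Quotient.mk _ (TA k ⁅gx, gy⁆) := by
        apply hT.beta
        rw [map_commutatorElement, mul_inv_cancel]
        exact one_mem _
      rw [h, map_ofNat, (h12.2.2 k)] at hb
      have hb' : (Ideal.Quotient.mk (Ideal.span {kap k ^ 2} : Ideal (Ak k))) (kap k) = 0 := by
        rw [map_add, map_ofNat] at hb
        have := hb.symm
        simpa using this
      rw [Ideal.Quotient.eq_zero_iff_mem, Ideal.mem_span_singleton] at hb'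
      obtain ⟨hk1, hk2⟩ := kap_ne h13 k
      obtain ⟨c, hc⟩ := hb'
      apply hk2
      have : kap k * 1 = kap k * (kap k * c) := by
        rw [mul_one, ← mul_assoc, ← pow_two]
        exact hc
      exact IsUnit.of_mul_eq_one _ (mul_left_cancel₀ hk1 this).symm
    · have h' : res (e - 1) = 0 := by
        rw [hres0, map_sub, he1, map_one, sub_self]
      rw [map_sub, map_one] at h'
      exact sub_eq_zero.1 h'
    · intro b hb
      exact he2 b ((hres0 b).1 hb)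
  · have hc : crd f T = fun i => ψ (crd f T₀ i) := by
      funext i
      fin_cases i
      · exact (hψ _).symm
      · exact (hψ _).symm
      · exact (hψ _).symm
    rw [hc]
    exact hnp

end Pool.Agent.F2
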