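import Pool.Agent.Lib.MP_305fdd_al.F2.StmG

set_option autoImplicit false

namespace Pool.Agent.F2

open MvPolynomial Pool.Agent.Lib.MP_305fdd_al Pool.Agent.MP_305fdd_al

section
variable (k : Type) [Field k]

private theorem p_kera_kap : resA k (kap k) = 0 := by
  have e0 : resA k (X 0) = ee k (1, 0) := by simp [resA]
  have e1 : resA k (X 1) = ee k (0, 1) := by simp [resA]
  have e2 : resA k (X 2) = ee k (1, 1) := by simp [resA]
  simp only [kap, map_sub, map_add, map_mul, map_pow, e0, e1, e2, map_ofNat]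
  set u : Lau k := AddMonoidAlgebra.single (1, 0) 1 with hu
  set u' : Lau k := AddMonoidAlgebra.single (-1, 0) 1 with hu'
  set v : Lau k := AddMonoidAlgebra.single (0, 1) 1 with hv
  set v' : Lau k := AddMonoidAlgebra.single (0, -1) 1 with hv'
  have f0 : ee k (1, 0) = u + u' := by
    simp [ee, hu, hu']
  have f1 : ee k (0, 1) = v + v' := by
    simp [ee, hv, hv']
  have f2 : ee k (1, 1) = u * v + u' * v' := by
    simp [ee, hu, hu', hv, hv', AddMonoidAlgebra.single_mul_single]
  have h1 : u * u' = 1 := by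
    simp only [hu, hu', AddMonoidAlgebra.single_mul_single, AddMonoidAlgebra.one_def]
    simp
    rfl
  have h2 : v * v' = 1 := by
    simp only [hv, hv', AddMonoidAlgebra.single_mul_single, AddMonoidAlgebra.one_def]
    simp
    rfl
  rw [f0, f1, f2]
  linear_combination (2 - v ^ 2 - v' ^ 2) * h1 + (2 - u ^ 2 - u' ^ 2) * h2

/-- polynomials in the first two variables -/
private noncomputable def p_kera_j : MvPolynomial (Fin 2) k →ₐ[k] Ak k :=
  aeval ![X 0, X 1]

private noncomputable def p_kera_r : MvPolynomial (Fin 2) k →ₐ[k] Lau k :=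
  (resA k).comp (p_kera_j k)

private theorem p_kera_r0 : p_kera_r k (X 0) = ee k (1, 0) := by
  simp [p_kera_r, p_kera_j, resA]

private theorem p_kera_r1 : p_kera_r k (X 1) = ee k (0, 1) := by
  simp [p_kera_r, p_kera_j, resA]

private theorem p_kera_red (a : Ak k) : ∃ b c : MvPolynomial (Fin 2) k,
    kap k ∣ a - (p_kera_j k b + p_kera_j k c * X 2) := by
  induction a using MvPolynomial.induction_on with
  | C r =>
    refine ⟨C r, 0, ?_⟩
    have : p_kera_j k (C r) = C r := by
      rw [← MvPolynomial.algebraMap_eq, ← MvPolynomial.algebraMap_eq]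
      exact AlgHom.commutes _ _
    rw [this]
    simp
  | add p q hp hq =>
    obtain ⟨b, c, h1⟩ := hp
    obtain ⟨b', c', h2⟩ := hq
    refine ⟨b + b', c + c', ?_⟩
    have : p + q - (p_kera_j k (b + b') + p_kera_j k (c + c') * X 2) =
        (p - (p_kera_j k b + p_kera_j k c * X 2)) + (q - (p_kera_j k b' + p_kera_j k c' * X 2)) := by
      rw [map_add, map_add]
      ring
    rw [this]
    exact dvd_add h1 h2
  | mul_X p i hp =>
    obtain ⟨b, c, t, ht⟩ := hp
    have hj0 : p_kera_j k (X 0) = X 0 := by simp [p_kera_j]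
    have hj1 : p_kera_j k (X 1) = X 1 := by simp [p_kera_j]
    fin_cases i
    · refine ⟨b * X 0, c * X 0, t * X 0, ?_⟩
      simp only [map_mul, hj0]
      have : p = kap k * t + (p_kera_j k b + p_kera_j k c * X 2) := by rw [← ht]; ring
      rw [this]
      simp only [Fin.zero_eta]
      ring
    · refine ⟨b * X 1, c * X 1, t * X 1, ?_⟩
      simp only [map_mul, hj1]
      have : p = kap k * t + (p_kera_j k b + p_kera_j k c * X 2) := by rw [← ht]; ring
      rw [this]
      simp only [Fin.mk_one]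
      ring
    · refine ⟨c * (4 - X 0 ^ 2 - X 1 ^ 2), b + c * X 0 * X 1, t * X 2 + p_kera_j k c, ?_⟩
      simp only [map_mul, map_add, map_sub, map_pow, map_ofNat, hj0, hj1]
      have : p = kap k * t + (p_kera_j k b + p_kera_j k c * X 2) := by rw [← ht]; ring
      rw [this]
      simp only [Fin.reduceFinMk, kap]
      ring

private theorem p_kera_step (F : Lau k) (c : ℤ × ℤ) (x : ℤ × ℤ) :
    (F * ee k c).coeff x = F.coeff (x - c) + F.coeff (x + c) := by
  simp only [ee, mul_add, AddMonoidAlgebra.coeff_add, Finsupp.add_apply,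
    AddMonoidAlgebra.coeff_mul_single_apply, mul_one, neg_neg, sub_eq_add_neg]

private def p_kera_H (i j : ℕ) (F : Lau k) : Prop :=
  (∀ p q : ℤ, ((i : ℤ) < p ∨ (j : ℤ) < q) → F.coeff (p, q) = 0) ∧ F.coeff ((i : ℤ), (j : ℤ)) = 1

private theorem p_kera_H0 : p_kera_H k 0 0 1 := by
  refine ⟨fun p q h => ?_, ?_⟩
  · rw [AddMonoidAlgebra.one_def, AddMonoidAlgebra.coeff_single, Finsupp.single_apply, if_neg]
    intro h'
    have h1 : (0 : ℤ) = p := congrArg Prod.fst h'
    have h2 : (0 : ℤ) = q := congrArg Prod.snd h'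
    rcases h with h | h
    · simp at h
      omega
    · simp at h
      omega
  · rw [AddMonoidAlgebra.one_def, AddMonoidAlgebra.coeff_single, Finsupp.single_apply, if_pos]
    rfl

private theorem p_kera_Hx (i j : ℕ) (F : Lau k) (h : p_kera_H k i j F) :
    p_kera_H k (i + 1) j (F * ee k (1, 0)) := by
  refine ⟨fun p q hpq => ?_, ?_⟩
  · rw [p_kera_step]
    have h1 := h.1 (p - 1) q (by push_cast at hpq; omega)
    have h2 := h.1 (p + 1) q (by push_cast at hpq; omega)
    have e1 : ((p, q) : ℤ × ℤ) - (1, 0) = (p - 1, q) := by ext <;> simp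
    have e2 : ((p, q) : ℤ × ℤ) + (1, 0) = (p + 1, q) := by ext <;> simp
    rw [e1, e2, h1, h2, add_zero]
  · rw [p_kera_step]
    have h2 := h.1 ((i : ℤ) + 1 + 1) j (by omega)
    have e1 : (((i + 1 : ℕ) : ℤ), (j : ℤ)) - (1, 0) = ((i : ℤ), (j : ℤ)) := by ext <;> simp
    have e2 : (((i + 1 : ℕ) : ℤ), (j : ℤ)) + (1, 0) = ((i : ℤ) + 1 + 1, (j : ℤ)) := by ext <;> simp
    rw [e1, e2, h.2, h2, add_zero]

private theorem p_kera_Hy (i j : ℕ) (F : Lau k) (h : p_kera_H k i j F) :
    p_kera_H k i (j + 1) (F * ee k (0, 1)) := by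
  refine ⟨fun p q hpq => ?_, ?_⟩
  · rw [p_kera_step]
    have h1 := h.1 p (q - 1) (by push_cast at hpq; omega)
    have h2 := h.1 p (q + 1) (by push_cast at hpq; omega)
    have e1 : ((p, q) : ℤ × ℤ) - (0, 1) = (p, q - 1) := by ext <;> simp
    have e2 : ((p, q) : ℤ × ℤ) + (0, 1) = (p, q + 1) := by ext <;> simp
    rw [e1, e2, h1, h2, add_zero]
  · rw [p_kera_step]
    have h2 := h.1 i ((j : ℤ) + 1 + 1) (by omega)
    have e1 : ((i : ℤ), ((j + 1 : ℕ) : ℤ)) - (0, 1) = ((i : ℤ), (j : ℤ)) := by ext <;> simp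
    have e2 : ((i : ℤ), ((j + 1 : ℕ) : ℤ)) + (0, 1) = ((i : ℤ), (j : ℤ) + 1 + 1) := by ext <;> simp
    rw [e1, e2, h.2, h2, add_zero]

private theorem p_kera_Hm (i j : ℕ) : p_kera_H k i j (ee k (1, 0) ^ i * ee k (0, 1) ^ j) := by
  induction j with
  | zero =>
    rw [pow_zero, mul_one]
    induction i with
    | zero => exact p_kera_H0 k
    | succ i ih =>
      rw [pow_succ]
      exact p_kera_Hx k i 0 _ ih
  | succ j ih =>
    rw [pow_succ, ← mul_assoc]
    exact p_kera_Hy k i j _ ih

private theorem p_kera_inj (b : MvPolynomial (Fin 2) k) (hb : p_kera_r k b = 0) : b = 0 := by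
  by_contra hne
  have hs : b.support.Nonempty := by
    rw [Finset.nonempty_iff_ne_empty]
    intro h
    exact hne (MvPolynomial.support_eq_empty.1 h)
  obtain ⟨m, hm, hmax⟩ := Finset.exists_max_image b.support (fun m => m 0 + m 1) hs
  have hmon : ∀ n : Fin 2 →₀ ℕ, ∀ c : k, p_kera_r k (monomial n c) =
      c • (ee k (1, 0) ^ (n 0) * ee k (0, 1) ^ (n 1)) := by
    intro n c
    have : monomial n c = c • (X 0 ^ (n 0) * X 1 ^ (n 1) : MvPolynomial (Fin 2) k) := by
      rw [MvPolynomial.monomial_eq, Finsupp.prod_fintype _ _ (fun i => pow_zero _),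
        Fin.prod_univ_two, MvPolynomial.smul_eq_C_mul]
    rw [this, map_smul, map_mul, map_pow, map_pow, p_kera_r0, p_kera_r1]
  have h1 : (p_kera_r k b).coeff ((m 0 : ℤ), (m 1 : ℤ)) = b.coeff m := by
    conv_lhs => rw [b.as_sum, map_sum]
    have h2 : ∀ n ∈ b.support, (p_kera_r k (monomial n (b.coeff n))).coeff ((m 0 : ℤ), (m 1 : ℤ)) =
        if n = m then b.coeff m else 0 := by
      intro n hn
      rw [hmon, AddMonoidAlgebra.coeff_smul, Finsupp.smul_apply, smul_eq_mul]
      split_ifs with h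
      · subst h
        rw [(p_kera_Hm k (n 0) (n 1)).2, mul_one]
      · rw [(p_kera_Hm k (n 0) (n 1)).1, mul_zero]
        by_contra hcon
        push Not at hcon
        have h3 := hmax n hn
        apply h
        ext i
        fin_cases i
        · simp only [Fin.zero_eta]
          omega
        · simp only [Fin.mk_one]
          omega
    rw [AddMonoidAlgebra.coeff_sum, Finsupp.finsetSum_apply, Finset.sum_congr rfl h2]
    rw [Finset.sum_ite_eq' , if_pos hm]
  rw [hb] at h1
  exact MvPolynomial.mem_support_iff.1 hm (by rw [← h1]; rfl)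

end

theorem p_kera : S_kera := by
  intro k _ a
  constructor
  · intro ha
    obtain ⟨b, c, hbc⟩ := p_kera_red k a
    obtain ⟨t, ht⟩ := hbc
    have hr : p_kera_r k b + p_kera_r k c * ee k (1, 1) = 0 := by
      have h := congrArg (resA k) ht
      rw [map_sub, ha, map_mul, p_kera_kap, zero_mul, map_add, map_mul] at h
      have e2 : resA k (X 2) = ee k (1, 1) := by simp [resA]
      rw [e2] at h
      have h' : (resA k) (p_kera_j k b) + (resA k) (p_kera_j k c) * ee k (1, 1) = 0 := by
        rw [zero_sub, neg_eq_zero] at h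
        exact h
      exact h'
    let σ : ℤ × ℤ →+ ℤ × ℤ := AddMonoidHom.prodMap (AddMonoidHom.id ℤ) (-AddMonoidHom.id ℤ)
    let τ : Lau k →ₐ[k] Lau k := AddMonoidAlgebra.mapDomainAlgHom k k σ
    have hτs : ∀ (x y : ℤ), τ (AddMonoidAlgebra.single (x, y) 1) =
        AddMonoidAlgebra.single (x, -y) 1 := by
      intro x y
      simp [τ, σ]
    have hτe : ∀ (x y : ℤ), τ (ee k (x, y)) = ee k (x, -y) := by
      intro x y
      simp only [ee, map_add, Prod.neg_mk, hτs]
    have hτr : ∀ q, τ (p_kera_r k q) = p_kera_r k q := by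
      intro q
      have : τ.comp (p_kera_r k) = p_kera_r k := by
        apply MvPolynomial.algHom_ext
        intro i
        fin_cases i
        · simp only [Fin.zero_eta, AlgHom.comp_apply, p_kera_r0, hτe, neg_zero]
        · simp only [Fin.mk_one, AlgHom.comp_apply, p_kera_r1, hτe]
          simp only [ee, Prod.neg_mk, neg_neg, neg_zero]
          rw [add_comm]
      exact DFunLike.congr_fun this q
    have hr2 : p_kera_r k b + p_kera_r k c * ee k (1, -1) = 0 := by
      have h := congrArg τ hr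
      rw [map_add, map_mul, map_zero, hτr, hτr, hτe] at h
      exact h
    have hmul : p_kera_r k c * (ee k (1, 1) - ee k (1, -1)) = 0 := by
      have : p_kera_r k c * (ee k (1, 1) - ee k (1, -1)) =
        (p_kera_r k b + p_kera_r k c * ee k (1, 1)) - (p_kera_r k b + p_kera_r k c * ee k (1, -1)) := by
        ring
      rw [this, hr, hr2, sub_zero]
    have hne : ee k (1, 1) - ee k (1, -1) ≠ 0 := by
      intro h
      have h3 : (ee k (1, 1) - ee k (1, -1)).coeff (1, 1) = 0 := by rw [h]; rfl
      simp [ee, AddMonoidAlgebra.coeff_single] at h3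
    have hc : c = 0 := by
      rcases mul_eq_zero.1 hmul with h | h
      · exact p_kera_inj k c h
      · exact absurd h hne
    have hb : b = 0 := by
      apply p_kera_inj k b
      rw [hc, map_zero, zero_mul, add_zero] at hr
      exact hr
    rw [hb, hc, map_zero, zero_mul, add_zero, sub_zero] at ht
    exact ⟨t, ht⟩
  · rintro ⟨t, rfl⟩
    rw [map_mul, p_kera_kap, zero_mul]

end Pool.Agent.F2
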