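import Pool.Agent.Lib.MP_305fdd_al.F2.StmG
import Pool.Agent.Lib.MP_305fdd_al.CC.PChar

/-!
# MP_305fdd_al, F_2: [GB kill]
-/

set_option autoImplicit false

namespace Pool.Agent.F2

open MvPolynomial Pool.Agent.Lib.MP_305fdd_al Pool.Agent.MP_305fdd_al
open scoped commutatorElement

section mat

variable {L : Type} [CommRing L]

private theorem p_kill_adj (x y : Matrix (Fin 2) (Fin 2) L) :
    x * (x * y - y * x) = (x * y - y * x) * x.adjugate := by
  rw [Matrix.adjugate_fin_two]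
  ext i j
  fin_cases i <;> fin_cases j <;>
    simp [Matrix.mul_apply, Fin.sum_univ_two, Matrix.sub_apply] <;> ring

private theorem p_kill_sq (x y : Matrix (Fin 2) (Fin 2) L) (hx : x.det = 1) (hy : y.det = 1) :
    (x * y - y * x) * (x * y - y * x) =
      (x.trace ^ 2 + y.trace ^ 2 + (x * y).trace ^ 2 - x.trace * y.trace * (x * y).trace - 4) •
        (1 : Matrix (Fin 2) (Fin 2) L) := by
  rw [Matrix.det_fin_two] at hx hy
  ext i j
  fin_cases i <;> fin_cases j <;>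
    simp [Matrix.mul_apply, Fin.sum_univ_two, Matrix.sub_apply, Matrix.trace_fin_two]
  · linear_combination ((x 0 0 + x 1 1) ^ 2 - 4) * hy +
      ((y 0 0 + y 1 1) ^ 2 - 4 * (y 0 0 * y 1 1 - y 0 1 * y 1 0)) * hx
  · ring
  · ring
  · linear_combination ((x 0 0 + x 1 1) ^ 2 - 4) * hy +
      ((y 0 0 + y 1 1) ^ 2 - 4 * (y 0 0 * y 1 1 - y 0 1 * y 1 0)) * hx

end mat

section gen

variable {A L : Type} [CommRing A] [CommRing L] [Algebra A L] (ρ : Fr →* GL (Fin 2) L)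

/-- the algebra spanned by the values -/
private def p_kill_S (A : Type) [CommRing A] [Algebra A L] :
    Subalgebra A (Matrix (Fin 2) (Fin 2) L) :=
  Algebra.adjoin A (Set.range fun g => (ρ g).val)

/-- the commutator of the generators -/
private def p_kill_c : Matrix (Fin 2) (Fin 2) L :=
  (ρ gx).val * (ρ gy).val - (ρ gy).val * (ρ gx).val

/-- `c ^ m S` -/
private def p_kill_N (A : Type) [CommRing A] [Algebra A L] (m : ℕ) :
    Set (Matrix (Fin 2) (Fin 2) L) :=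
  {v | ∃ s ∈ p_kill_S ρ A, v = p_kill_c ρ ^ m * s}

private theorem p_kill_mem (g : Fr) : (ρ g).val ∈ p_kill_S ρ A :=
  Algebra.subset_adjoin ⟨g, rfl⟩

private theorem p_kill_cmem : p_kill_c ρ ∈ p_kill_S ρ A :=
  sub_mem (mul_mem (p_kill_mem ρ gx) (p_kill_mem ρ gy))
    (mul_mem (p_kill_mem ρ gy) (p_kill_mem ρ gx))

private theorem p_kill_gen (P : Subgroup Fr) (hx : gx ∈ P) (hy : gy ∈ P) (g : Fr) : g ∈ P := by
  have h : (⊤ : Subgroup Fr) ≤ P := by
    rw [← FreeGroup.closure_range_of, Subgroup.closure_le]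
    rintro _ ⟨i, rfl⟩
    fin_cases i
    · exact hx
    · exact hy
  exact h (Subgroup.mem_top g)

private theorem p_kill_inv {u : GL (Fin 2) L} (hu : u.val.det = 1) :
    u⁻¹.val = u.val.adjugate := by
  have h1 : u.val * u.val.adjugate = 1 := by
    rw [Matrix.mul_adjugate, hu, one_smul]
  calc u⁻¹.val = u⁻¹.val * (u.val * u.val.adjugate) := by rw [h1, mul_one]
    _ = (u⁻¹.val * u.val) * u.val.adjugate := by rw [mul_assoc]
    _ = u.val.adjugate := by rw [← Units.val_mul, inv_mul_cancel, Units.val_one, one_mul]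

private theorem p_kill_tw (hdet : ∀ g, (ρ g).val.det = 1) (g : Fr) :
    ∃ h : Fr, (ρ g).val * p_kill_c ρ = p_kill_c ρ * (ρ h).val := by
  let P : Subgroup Fr :=
    { carrier := {g | ∃ h : Fr, (ρ g).val * p_kill_c ρ = p_kill_c ρ * (ρ h).val}
      one_mem' := ⟨1, by rw [map_one, Units.val_one, one_mul, mul_one]⟩
      mul_mem' := by
        rintro a b ⟨a', ha⟩ ⟨b', hb⟩
        refine ⟨a' * b', ?_⟩
        rw [map_mul, map_mul, Units.val_mul, Units.val_mul, mul_assoc, hb, ← mul_assoc, ha,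
          mul_assoc]
      inv_mem' := by
        rintro a ⟨a', ha⟩
        refine ⟨a'⁻¹, ?_⟩
        have h1 : (ρ a⁻¹).val * (ρ a).val = 1 := by
          rw [← Units.val_mul, ← map_mul, inv_mul_cancel, map_one, Units.val_one]
        have h2 : (ρ a').val * (ρ a'⁻¹).val = 1 := by
          rw [← Units.val_mul, ← map_mul, mul_inv_cancel, map_one, Units.val_one]
        calc (ρ a⁻¹).val * p_kill_c ρ = (ρ a⁻¹).val * (p_kill_c ρ * ((ρ a').val * (ρ a'⁻¹).val)) := by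
              rw [h2, mul_one]
          _ = (ρ a⁻¹).val * ((p_kill_c ρ * (ρ a').val) * (ρ a'⁻¹).val) := by rw [mul_assoc]
          _ = (ρ a⁻¹).val * (((ρ a).val * p_kill_c ρ) * (ρ a'⁻¹).val) := by rw [ha]
          _ = ((ρ a⁻¹).val * (ρ a).val) * (p_kill_c ρ * (ρ a'⁻¹).val) := by
              simp only [mul_assoc]
          _ = p_kill_c ρ * (ρ a'⁻¹).val := by rw [h1, one_mul] }
  refine p_kill_gen P ?_ ?_ g
  · refine ⟨gx⁻¹, ?_⟩
    rw [map_inv, p_kill_inv (hdet gx)]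
    exact p_kill_adj _ _
  · refine ⟨gy⁻¹, ?_⟩
    rw [map_inv, p_kill_inv (hdet gy)]
    have h := p_kill_adj (ρ gy).val (ρ gx).val
    have h2 : p_kill_c ρ = -((ρ gy).val * (ρ gx).val - (ρ gx).val * (ρ gy).val) := by
      rw [neg_sub]
      rfl
    rw [h2, mul_neg, neg_mul, h]

private theorem p_kill_twS (hdet : ∀ g, (ρ g).val.det = 1) {s : Matrix (Fin 2) (Fin 2) L}
    (hs : s ∈ p_kill_S ρ A) : ∃ s' ∈ p_kill_S ρ A, s * p_kill_c ρ = p_kill_c ρ * s' := by
  unfold p_kill_S at hs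
  induction hs using Algebra.adjoin_induction with
  | mem v hv =>
    obtain ⟨g, rfl⟩ := hv
    obtain ⟨h, hh⟩ := p_kill_tw ρ hdet g
    exact ⟨(ρ h).val, p_kill_mem ρ h, hh⟩
  | algebraMap r =>
    exact ⟨algebraMap A _ r, Subalgebra.algebraMap_mem _ r, Algebra.commutes r _⟩
  | add u v _ _ hu hv =>
    obtain ⟨u', hu', eu⟩ := hu
    obtain ⟨v', hv', ev⟩ := hv
    exact ⟨u' + v', add_mem hu' hv', by rw [add_mul, eu, ev, mul_add]⟩
  | mul u v _ _ hu hv =>
    obtain ⟨u', hu', eu⟩ := hu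
    obtain ⟨v', hv', ev⟩ := hv
    exact ⟨u' * v', mul_mem hu' hv', by rw [mul_assoc, ev, ← mul_assoc, eu, mul_assoc]⟩

private theorem p_kill_twm (hdet : ∀ g, (ρ g).val.det = 1) (m : ℕ) :
    ∀ {s : Matrix (Fin 2) (Fin 2) L}, s ∈ p_kill_S ρ A →
      ∃ s' ∈ p_kill_S ρ A, s * p_kill_c ρ ^ m = p_kill_c ρ ^ m * s' := by
  induction m with
  | zero => exact fun {s} hs => ⟨s, hs, by rw [pow_zero, mul_one, one_mul]⟩
  | succ m ih =>
    intro s hs
    obtain ⟨s', hs', e⟩ := ih hs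
    obtain ⟨s'', hs'', e'⟩ := p_kill_twS ρ hdet hs'
    exact ⟨s'', hs'', by rw [pow_succ, ← mul_assoc, e, mul_assoc, e', mul_assoc]⟩

private theorem p_kill_add {m : ℕ} {u v : Matrix (Fin 2) (Fin 2) L} (hu : u ∈ p_kill_N ρ A m)
    (hv : v ∈ p_kill_N ρ A m) : u + v ∈ p_kill_N ρ A m := by
  obtain ⟨s, hs, rfl⟩ := hu
  obtain ⟨t, ht, rfl⟩ := hv
  exact ⟨s + t, add_mem hs ht, by rw [mul_add]⟩

private theorem p_kill_neg {m : ℕ} {u : Matrix (Fin 2) (Fin 2) L} (hu : u ∈ p_kill_N ρ A m) :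
    -u ∈ p_kill_N ρ A m := by
  obtain ⟨s, hs, rfl⟩ := hu
  exact ⟨-s, neg_mem hs, by rw [mul_neg]⟩

private theorem p_kill_right {m : ℕ} {u s : Matrix (Fin 2) (Fin 2) L} (hu : u ∈ p_kill_N ρ A m)
    (hs : s ∈ p_kill_S ρ A) : u * s ∈ p_kill_N ρ A m := by
  obtain ⟨t, ht, rfl⟩ := hu
  exact ⟨t * s, mul_mem ht hs, by rw [mul_assoc]⟩

private theorem p_kill_left (hdet : ∀ g, (ρ g).val.det = 1) {m : ℕ}
    {u s : Matrix (Fin 2) (Fin 2) L} (hu : u ∈ p_kill_N ρ A m)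
    (hs : s ∈ p_kill_S ρ A) : s * u ∈ p_kill_N ρ A m := by
  obtain ⟨t, ht, rfl⟩ := hu
  obtain ⟨s', hs', e⟩ := p_kill_twm ρ hdet m hs
  exact ⟨s' * t, mul_mem hs' ht, by rw [← mul_assoc, e, mul_assoc]⟩

private theorem p_kill_mul (hdet : ∀ g, (ρ g).val.det = 1) {m n : ℕ}
    {u v : Matrix (Fin 2) (Fin 2) L} (hu : u ∈ p_kill_N ρ A m)
    (hv : v ∈ p_kill_N ρ A n) : u * v ∈ p_kill_N ρ A (m + n) := by
  obtain ⟨s, hs, rfl⟩ := hu
  obtain ⟨t, ht, rfl⟩ := hv
  obtain ⟨s', hs', e⟩ := p_kill_twm ρ hdet n hs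
  refine ⟨s' * t, mul_mem hs' ht, ?_⟩
  rw [pow_add, mul_assoc, ← mul_assoc s, e]
  simp only [mul_assoc]

private theorem p_kill_mono {m : ℕ} {u : Matrix (Fin 2) (Fin 2) L}
    (hu : u ∈ p_kill_N ρ A (m + 1)) : u ∈ p_kill_N ρ A m := by
  obtain ⟨s, hs, rfl⟩ := hu
  exact ⟨p_kill_c ρ * s, mul_mem (p_kill_cmem ρ) hs, by rw [pow_succ, mul_assoc]⟩

private theorem p_kill_zero {m : ℕ} : (0 : Matrix (Fin 2) (Fin 2) L) ∈ p_kill_N ρ A m :=
  ⟨0, zero_mem _, by rw [mul_zero]⟩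

/-- the elements which commute with `v` modulo `N 1` -/
private def p_kill_P1 (A : Type) [CommRing A] [Algebra A L] (hdet : ∀ g, (ρ g).val.det = 1)
    (v : Matrix (Fin 2) (Fin 2) L) (_hv : v ∈ p_kill_S ρ A) : Subgroup Fr where
  carrier := {g | (ρ g).val * v - v * (ρ g).val ∈ p_kill_N ρ A 1}
  one_mem' := by
    show (ρ 1).val * v - v * (ρ 1).val ∈ p_kill_N ρ A 1
    rw [map_one, Units.val_one, one_mul, mul_one, sub_self]
    exact p_kill_zero ρ
  mul_mem' := by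
    intro a b ha hb
    show (ρ (a * b)).val * v - v * (ρ (a * b)).val ∈ p_kill_N ρ A 1
    have e : (ρ (a * b)).val * v - v * (ρ (a * b)).val =
        (ρ a).val * ((ρ b).val * v - v * (ρ b).val) +
          ((ρ a).val * v - v * (ρ a).val) * (ρ b).val := by
      rw [map_mul, Units.val_mul]
      noncomm_ring
    rw [e]
    exact p_kill_add ρ (p_kill_left ρ hdet hb (p_kill_mem ρ a))
      (p_kill_right ρ ha (p_kill_mem ρ b))
  inv_mem' := by
    intro a ha
    show (ρ a⁻¹).val * v - v * (ρ a⁻¹).val ∈ p_kill_N ρ A 1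
    have h1 : (ρ a⁻¹).val * (ρ a).val = 1 := by
      rw [← Units.val_mul, ← map_mul, inv_mul_cancel, map_one, Units.val_one]
    have h2 : (ρ a).val * (ρ a⁻¹).val = 1 := by
      rw [← Units.val_mul, ← map_mul, mul_inv_cancel, map_one, Units.val_one]
    have e : (ρ a⁻¹).val * v - v * (ρ a⁻¹).val =
        -((ρ a⁻¹).val * (((ρ a).val * v - v * (ρ a).val) * (ρ a⁻¹).val)) := by
      calc (ρ a⁻¹).val * v - v * (ρ a⁻¹).val
          = (ρ a⁻¹).val * v * ((ρ a).val * (ρ a⁻¹).val) -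
            ((ρ a⁻¹).val * (ρ a).val) * v * (ρ a⁻¹).val := by
              rw [h1, h2, mul_one, one_mul]
        _ = _ := by noncomm_ring
    rw [e]
    exact p_kill_neg ρ (p_kill_left ρ hdet (p_kill_right ρ ha (p_kill_mem ρ a⁻¹))
      (p_kill_mem ρ a⁻¹))

private theorem p_kill_comm (hdet : ∀ g, (ρ g).val.det = 1) (g h : Fr) :
    (ρ g).val * (ρ h).val - (ρ h).val * (ρ g).val ∈ p_kill_N ρ A 1 := by
  have hc : p_kill_c ρ ∈ p_kill_N ρ A 1 := ⟨1, one_mem _, by rw [pow_one, mul_one]⟩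
  have hy : ∀ g : Fr, (ρ g).val * (ρ gy).val - (ρ gy).val * (ρ g).val ∈ p_kill_N ρ A 1 := by
    intro g
    refine p_kill_gen (p_kill_P1 ρ A hdet (ρ gy).val (p_kill_mem ρ gy)) hc ?_ g
    show (ρ gy).val * (ρ gy).val - (ρ gy).val * (ρ gy).val ∈ p_kill_N ρ A 1
    rw [sub_self]
    exact p_kill_zero ρ
  have hx : ∀ g : Fr, (ρ g).val * (ρ gx).val - (ρ gx).val * (ρ g).val ∈ p_kill_N ρ A 1 := by
    intro g
    refine p_kill_gen (p_kill_P1 ρ A hdet (ρ gx).val (p_kill_mem ρ gx)) ?_ ?_ g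
    · show (ρ gx).val * (ρ gx).val - (ρ gx).val * (ρ gx).val ∈ p_kill_N ρ A 1
      rw [sub_self]
      exact p_kill_zero ρ
    · show (ρ gy).val * (ρ gx).val - (ρ gx).val * (ρ gy).val ∈ p_kill_N ρ A 1
      have := p_kill_neg ρ hc
      unfold p_kill_c at this
      rw [neg_sub] at this
      exact this
  have key := p_kill_gen (p_kill_P1 ρ A hdet (ρ g).val (p_kill_mem ρ g)) (by
    have := p_kill_neg ρ (hx g)
    rw [neg_sub] at this
    exact this) (by
    have := p_kill_neg ρ (hy g)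
    rw [neg_sub] at this
    exact this) h
  have := p_kill_neg ρ key
  rw [neg_sub] at this
  exact this

/-- the elements which are trivial modulo `N m` -/
private def p_kill_D (A : Type) [CommRing A] [Algebra A L] (hdet : ∀ g, (ρ g).val.det = 1)
    (m : ℕ) : Subgroup Fr where
  carrier := {g | (ρ g).val - 1 ∈ p_kill_N ρ A m}
  one_mem' := by
    show (ρ 1).val - 1 ∈ p_kill_N ρ A m
    rw [map_one, Units.val_one, sub_self]
    exact p_kill_zero ρ
  mul_mem' := by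
    intro a b ha hb
    show (ρ (a * b)).val - 1 ∈ p_kill_N ρ A m
    have e : (ρ (a * b)).val - 1 = ((ρ a).val - 1) * (ρ b).val + ((ρ b).val - 1) := by
      rw [map_mul, Units.val_mul, sub_mul, one_mul]
      abel
    rw [e]
    exact p_kill_add ρ (p_kill_right ρ ha (p_kill_mem ρ b)) hb
  inv_mem' := by
    intro a ha
    show (ρ a⁻¹).val - 1 ∈ p_kill_N ρ A m
    have h1 : (ρ a⁻¹).val * (ρ a).val = 1 := by
      rw [← Units.val_mul, ← map_mul, inv_mul_cancel, map_one, Units.val_one]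
    have e : (ρ a⁻¹).val - 1 = -((ρ a⁻¹).val * ((ρ a).val - 1)) := by
      rw [mul_sub, h1, mul_one, neg_sub]
    rw [e]
    exact p_kill_neg ρ (p_kill_left ρ hdet ha (p_kill_mem ρ a⁻¹))

private theorem p_kill_brk (g h : Fr) :
    (ρ ⁅g, h⁆).val - 1 = ((ρ g).val * (ρ h).val - (ρ h).val * (ρ g).val) * (ρ (h * g)⁻¹).val := by
  have h1 : (ρ (h * g)).val * (ρ (h * g)⁻¹).val = 1 := by
    rw [← Units.val_mul, ← map_mul, mul_inv_cancel, map_one, Units.val_one]
  have h2 : ⁅g, h⁆ = (g * h) * (h * g)⁻¹ := by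
    rw [commutatorElement_def]
    group
  rw [sub_mul, ← Units.val_mul (ρ h), ← map_mul ρ h, h1, ← Units.val_mul, ← map_mul,
    ← Units.val_mul, ← map_mul, ← h2]

private theorem p_kill_lcs (hdet : ∀ g, (ρ g).val.det = 1) (m : ℕ) :
    (commutator Fr).lowerCentralSeries m ≤ p_kill_D ρ A hdet (m + 1) := by
  have h0 : commutator Fr ≤ p_kill_D ρ A hdet 1 := by
    rw [commutator_def, Subgroup.commutator_le]
    intro g _ h _
    show (ρ ⁅g, h⁆).val - 1 ∈ p_kill_N ρ A 1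
    rw [p_kill_brk]
    exact p_kill_right ρ (p_kill_comm ρ hdet g h) (p_kill_mem ρ _)
  induction m with
  | zero => exact h0
  | succ m ih =>
    rw [Subgroup.lowerCentralSeries_succ, Subgroup.commutator_le]
    intro g hg h hh
    have e1 : (ρ g).val - 1 ∈ p_kill_N ρ A (m + 1) := ih hg
    have e2 : (ρ h).val - 1 ∈ p_kill_N ρ A 1 := h0 hh
    show (ρ ⁅g, h⁆).val - 1 ∈ p_kill_N ρ A (m + 1 + 1)
    rw [p_kill_brk]
    refine p_kill_right ρ ?_ (p_kill_mem ρ _)
    have e3 : (ρ g).val * (ρ h).val - (ρ h).val * (ρ g).val =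
        ((ρ g).val - 1) * ((ρ h).val - 1) + -(((ρ h).val - 1) * ((ρ g).val - 1)) := by
      noncomm_ring
    rw [e3]
    refine p_kill_add ρ (p_kill_mul ρ hdet e1 e2) (p_kill_neg ρ ?_)
    have e4 := p_kill_mul ρ hdet e2 e1
    rwa [add_comm 1 (m + 1)] at e4

private theorem p_kill_tr (T : Fr → A) (hT : ∀ g, (ρ g).val.trace = algebraMap A L (T g))
    {s : Matrix (Fin 2) (Fin 2) L} (hs : s ∈ p_kill_S ρ A) : ∃ a, s.trace = algebraMap A L a := by
  have h1 : (Set.range fun g => (ρ g).val) =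
      ((Submonoid.closure (Set.range fun g => (ρ g).val) :
        Submonoid (Matrix (Fin 2) (Fin 2) L)) : Set (Matrix (Fin 2) (Fin 2) L)) := by
    apply Set.Subset.antisymm Submonoid.subset_closure
    have h2 : Submonoid.closure (Set.range fun g => (ρ g).val) ≤
        MonoidHom.mrange ((Units.coeHom (Matrix (Fin 2) (Fin 2) L)).comp ρ) := by
      rw [Submonoid.closure_le]
      rintro _ ⟨g, rfl⟩
      exact ⟨g, rfl⟩
    intro v hv
    obtain ⟨g, hg⟩ := h2 hv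
    exact ⟨g, hg⟩
  have h3 : s ∈ Submodule.span A (Set.range fun g => (ρ g).val) := by
    rw [h1, ← Algebra.adjoin_eq_span]
    exact hs
  clear hs h1
  induction h3 using Submodule.span_induction with
  | mem v hv =>
    obtain ⟨g, rfl⟩ := hv
    exact ⟨T g, hT g⟩
  | zero => exact ⟨0, by rw [Matrix.trace_zero, map_zero]⟩
  | add u v _ _ hu hv =>
    obtain ⟨a, ha⟩ := hu
    obtain ⟨b, hb⟩ := hv
    exact ⟨a + b, by rw [Matrix.trace_add, ha, hb, map_add]⟩
  | smul r u _ hu =>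
    obtain ⟨a, ha⟩ := hu
    exact ⟨r * a, by rw [Matrix.trace_smul, ha, Algebra.smul_def, map_mul]⟩

private theorem p_kill_main (hinj : Function.Injective (algebraMap A L))
    (hdet : ∀ g, (ρ g).val.det = 1) (T : Fr → A)
    (hT : ∀ g, (ρ g).val.trace = algebraMap A L (T g)) (κ : A)
    (hκ : κ = T gx ^ 2 + T gy ^ 2 + T (gx * gy) ^ 2 - T gx * T gy * T (gx * gy) - 4)
    (n : ℕ) (g h : Fr) (hg : g ∈ (commutator Fr).lowerCentralSeries (2 * n)) :
    κ ^ n ∣ T (g * h) - T h := by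
  have h1 : (ρ g).val - 1 ∈ p_kill_N ρ A (2 * n) := p_kill_mono ρ (p_kill_lcs ρ hdet (2 * n) hg)
  obtain ⟨s, hs, e⟩ := h1
  have hc2 : p_kill_c ρ ^ 2 = algebraMap A L κ • (1 : Matrix (Fin 2) (Fin 2) L) := by
    rw [pow_two]
    unfold p_kill_c
    rw [p_kill_sq _ _ (hdet gx) (hdet gy), hT gx, hT gy, ← Units.val_mul, ← map_mul, hT, hκ]
    congr 1
    simp only [map_sub, map_add, map_mul, map_pow, map_ofNat]
  have hcn : p_kill_c ρ ^ (2 * n) = (algebraMap A L κ) ^ n • (1 : Matrix (Fin 2) (Fin 2) L) := by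
    rw [pow_mul, hc2, smul_pow, one_pow]
  obtain ⟨a, ha⟩ := p_kill_tr ρ T hT (mul_mem hs (p_kill_mem ρ h))
  refine ⟨a, hinj ?_⟩
  rw [map_mul (algebraMap A L), map_pow, map_sub, ← hT, ← hT, ← ha]
  have h2 : (ρ (g * h)).val - (ρ h).val = ((ρ g).val - 1) * (ρ h).val := by
    rw [map_mul, Units.val_mul, sub_mul, one_mul]
  rw [← Matrix.trace_sub, h2, e, hcn, smul_mul_assoc, one_mul, smul_mul_assoc,
    Matrix.trace_smul, smul_eq_mul]

end gen

theorem p_kill (h1 : S_rep) (h2 : S_tapc) (_h3 : S_auniv) : S_kill := by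
  intro k _ n g h hg
  obtain ⟨L, _, _, ρ, hinj, hdet, hx, hy, hxy, -⟩ := h1 k
  obtain ⟨hPC, hTx, hTy, hTxy⟩ := h2 k
  let _ : Algebra k L := ((algebraMap (Ak k) L).comp (algebraMap k (Ak k))).toAlgebra
  have hone : ∀ h : Fr, algebraMap k L (((1 : Fr →* kˣ) h : kˣ) : k) = 1 := fun h => by
    rw [MonoidHom.one_apply, Units.val_one, map_one]
  have hP1 : CC.PChar (1 : Fr →* kˣ) (fun g => algebraMap (Ak k) L (TA k g)) := by
    refine ⟨?_, fun g h => ?_, fun g h => ?_⟩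
    · show algebraMap (Ak k) L (TA k 1) = 2
      rw [hPC.one, map_ofNat]
    · show algebraMap (Ak k) L (TA k (g * h)) = algebraMap (Ak k) L (TA k (h * g))
      rw [hPC.comm]
    · show algebraMap (Ak k) L (TA k (g * h)) + _ * algebraMap (Ak k) L (TA k (g * h⁻¹)) = _
      rw [hone, one_mul, ← map_add, hPC.rel, map_mul]
  have hP2 : CC.PChar (1 : Fr →* kˣ) (fun g => (ρ g).val.trace) :=
    CC.PChar.of_rep ρ 1 (fun g => by rw [hone]; exact hdet g)
  have hgen : Subgroup.closure ({gx, gy} : Set Fr) = ⊤ := by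
    rw [← FreeGroup.closure_range_of]
    congr 1
    ext v
    constructor
    · rintro (rfl | rfl)
      · exact ⟨0, rfl⟩
      · exact ⟨1, rfl⟩
    · rintro ⟨i, rfl⟩
      fin_cases i
      · exact Or.inl rfl
      · exact Or.inr rfl
  have heq := CC.PChar.unique hgen hP2 hP1 (by show _ = _; rw [hx, hTx]) (by show _ = _; rw [hy, hTy])
    (by show _ = _; rw [hxy, hTxy])
  refine p_kill_main ρ hinj hdet (TA k) (fun g => congrFun heq g) (kap k) ?_ n g h hg
  rw [hTx, hTy, hTxy]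
  rfl

end Pool.Agent.F2
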