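import Pool.Agent.Lib.MP_305fdd_al.F2.StmG

set_option autoImplicit false

namespace Pool.Agent.F2

open MvPolynomial Pool.Agent.Lib.MP_305fdd_al Pool.Agent.MP_305fdd_al
open scoped commutatorElement
open Pool.Agent.F2TF (Pol fpow S_count S_thmA)

private theorem p_npd_rt (p : ℕ) [Fact p.Prime] (c : ZMod p) : rt p (ZMod p) c = c := by
  have h : (frobeniusEquiv (ZMod p) p).symm c = c := by
    rw [RingEquiv.symm_apply_eq, frobeniusEquiv_def, ZMod.pow_card]
  exact h

private theorem p_npd_psik (p : ℕ) [Fact p.Prime] (a : Ak (ZMod p)) :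
    psik p (ZMod p) a = F2TF.psi a := by
  ext w
  rw [psik, coeff_compk, p_npd_rt, F2TF.coeff_psi]

private theorem p_npd_iter (p : ℕ) [Fact p.Prime] {B D : Type} [CommRing B] [CommRing D]
    (π : B →+* D) (N : ℕ) : ∀ (l : D → Ak (ZMod p)) (b : B),
    ((cartk p (ZMod p))^[N] l) (π b) =
      (F2TF.cart^[N] (fun x => l (π x) : B → Pol p 3)) b := by
  induction N with
  | zero => intro l b; rfl
  | succ N ih =>
    intro l b
    have h : (fun x => cartk p (ZMod p) l (π x) : B → Pol p 3) =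
        F2TF.cart (fun x => l (π x) : B → Pol p 3) := by
      funext x
      rw [cartk, F2TF.cart, p_npd_psik, map_pow]
    rw [Function.iterate_succ_apply, Function.iterate_succ_apply, ih, h]

theorem p_npd (h0 : F2TF.S_thmA) (h1 : S_ev) (h2 : S_uni) : S_npd := by
  intro p _ Λ _ _ f hs D _ _ T hT hgen
  obtain ⟨Φ⟩ : Nonempty (NatBij Fr Λ) := exists_natBij hs.symm
  obtain ⟨ev, hev⟩ := h1 p Λ Φ
  obtain ⟨gB, hfin, hnil⟩ := h0 p 3 (Uni (ZMod p) Λ) ev hev three_ne_zero
    (crd f (tu (ZMod p) : Λ → Uni (ZMod p) Λ))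
  obtain ⟨π, hπ⟩ := (h2.1 (ZMod p) Λ).2.2 D T hT
  have hsurj : Function.Surjective π := by
    rw [← AlgHom.range_eq_top, eq_top_iff, ← hgen]
    refine Algebra.adjoin_le ?_
    rintro _ ⟨l, rfl⟩
    exact ⟨tu (ZMod p) l, hπ l⟩
  have hcrd : ∀ i, π (crd f (tu (ZMod p) : Λ → Uni (ZMod p) Λ) i) = crd f T i := by
    intro i
    fin_cases i <;> simp [crd, hπ]
  have haev : (aeval (fun i => crd f T i + (π (gB i)) ^ p) : Ak (ZMod p) →ₐ[ZMod p] D) =
      π.comp (aeval (fun i => crd f (tu (ZMod p) : Λ → Uni (ZMod p) Λ) i + gB i ^ p)) := by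
    ext i
    simp [hcrd]
  refine ⟨fun i => π (gB i), ?_, ?_⟩
  · rw [haev]
    exact (AlgHom.Finite.of_surjective π hsurj).comp hfin
  · intro l hl
    obtain ⟨N, hN⟩ := hnil (l.comp (π : Uni (ZMod p) Λ →+* D).toAddMonoidHom) (by
      intro a c
      have h3 := hl a (π c)
      rw [haev] at h3
      simpa using h3)
    refine ⟨N, fun c => ?_⟩
    obtain ⟨b, rfl⟩ := hsurj c
    have h4 := p_npd_iter p (π : Uni (ZMod p) Λ →+* D) N l b
    have h5 := hN b
    exact h4.trans h5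

end Pool.Agent.F2
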