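import Pool.Agent.Lib.MP_305fdd_al.F2.GDefs
import Pool.Agent.Lib.MP_305fdd_al.CC.PChar

/-!
# MP_305fdd_al (`F_2`), section G: the quotient of `Λ` on which `T` is faithful
-/

set_option autoImplicit false

namespace Pool.Agent.F2

open MvPolynomial Pool.Agent.Lib.MP_305fdd_al Pool.Agent.MP_305fdd_al
open scoped commutatorElement

section

variable {Λ R : Type} [Group Λ] [CommRing R] {T : Λ → R}

theorem PC.inv (hT : PC T) (g : Λ) : T g⁻¹ = T g := by
  have h1 := hT.rel 1 g
  rw [one_mul, one_mul, hT.one] at h1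
  linear_combination h1

theorem PC.conj (hT : PC T) (g h : Λ) : T (h * g * h⁻¹) = T g := by
  rw [hT.comm (h * g) h⁻¹, inv_mul_cancel_left]

/-- the kernel `{u | T u = 2}` -/
def kerT (hT : PC T) (two : ∀ u, T u = 2 → ∀ g, T (g * u) = T g) : Subgroup Λ where
  carrier := {u | T u = 2}
  one_mem' := hT.one
  mul_mem' := fun {a b} ha hb => by
    show T (a * b) = 2
    rw [two b hb a]
    exact ha
  inv_mem' := fun {a} ha => by
    show T a⁻¹ = 2
    rw [hT.inv]
    exact ha

theorem mem_kerT (hT : PC T) (two : ∀ u, T u = 2 → ∀ g, T (g * u) = T g) (u : Λ) :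
    u ∈ kerT hT two ↔ T u = 2 := Iff.rfl

theorem kerT_normal (hT : PC T) (two : ∀ u, T u = 2 → ∀ g, T (g * u) = T g) :
    (kerT hT two).Normal := by
  constructor
  intro n hn g
  rw [mem_kerT] at hn ⊢
  rw [hT.conj]
  exact hn

end

/-- the quotient `M = Λ / {T = 2}`: commuting elements have dependent classes. -/
theorem RD.exists_pi {k Λ : Type} [Field k] [Group Λ] {f : Fr →* Λ}
    {cl : Λ →* Multiplicative (ℤ × ℤ)} {D : Type} [CommRing D] [Algebra k D] {T : Λ → D}
    {res : D →ₐ[k] Lau k} (h : RD k Λ f cl D T res) :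
    ∃ (M : Type) (_ : Group M) (pi : Λ →* M), Function.Surjective pi ∧
      (∀ l, pi l = 1 ↔ T l = 2) ∧ (∀ g g' : Λ, Commute (pi g) (pi g') → Dep (cl g) (cl g')) ∧
      ∀ l, T l = 2 → ∀ g, T (l * g) = T g ∧ T (g * l) = T g := by
  have hN := kerT_normal h.pc h.two
  refine ⟨Λ ⧸ kerT h.pc h.two, inferInstance, QuotientGroup.mk' _, QuotientGroup.mk'_surjective _,
    ?_, ?_, ?_⟩
  · intro l
    rw [QuotientGroup.mk'_apply, QuotientGroup.eq_one_iff]
    exact mem_kerT _ _ _
  · intro g g' hc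
    apply h.dep
    rw [← mem_kerT h.pc h.two, ← QuotientGroup.eq_one_iff, ← QuotientGroup.mk'_apply,
      map_commutatorElement, commutatorElement_eq_one_iff_commute]
    exact hc
  · intro l hl g
    exact ⟨by rw [h.pc.comm]; exact h.two l hl g, h.two l hl g⟩

/-- the same for a pseudo-character with values in a field containing `D` -/
theorem RD.exists_pi' {k Λ : Type} [Field k] [Group Λ] {f : Fr →* Λ}
    {cl : Λ →* Multiplicative (ℤ × ℤ)} {D : Type} [CommRing D] [Algebra k D] {T : Λ → D}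
    {res : D →ₐ[k] Lau k} (h : RD k Λ f cl D T res) (K : Type) [Field K] [Algebra D K]
    (hinj : Function.Injective (algebraMap D K)) :
    ∃ (M : Type) (_ : Group M) (pi : Λ →* M), Function.Surjective pi ∧
      (∀ l, pi l = 1 ↔ algebraMap D K (T l) = 2) ∧
      (∀ g g' : Λ, Commute (pi g) (pi g') → Dep (cl g) (cl g')) ∧
      ∀ l, algebraMap D K (T l) = 2 → ∀ g, algebraMap D K (T (l * g)) = algebraMap D K (T g) := by
  obtain ⟨M, i, pi, h1, h2, h3, h4⟩ := h.exists_pi
  have key : ∀ l, algebraMap D K (T l) = 2 ↔ T l = 2 := by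
    intro l
    constructor
    · intro hl
      apply hinj
      rw [hl, map_ofNat]
    · intro hl
      rw [hl, map_ofNat]
  exact ⟨M, i, pi, h1, fun l => (h2 l).trans (key l).symm, h3,
    fun l hl g => by rw [(h4 l ((key l).1 hl) g).1]⟩

end Pool.Agent.F2
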