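import Pool.Agent.Lib.MP_305fdd_al.F2.StmG
import Pool.Agent.Lib.MP_305fdd_al.CC.PChar
import Pool.Agent.Lib.MP_305fdd_al.CC.PCharFin

/-!
# MP_305fdd_al, F_2: section G, the piece rep (the generic representation of `Fr`)
-/

set_option autoImplicit false

namespace Pool.Agent.F2

open MvPolynomial Pool.Agent.Lib.MP_305fdd_al Pool.Agent.MP_305fdd_al
open scoped commutatorElement
open Pool.Agent.CC (PChar)

/-- a matrix of determinant one as an element of `GL` -/
def p_rep_mk {L : Type} [CommRing L] (M : Matrix (Fin 2) (Fin 2) L) (h : M.det = 1) :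
    GL (Fin 2) L where
  val := M
  inv := M.adjugate
  val_inv := by rw [Matrix.mul_adjugate, h, one_smul]
  inv_val := by rw [Matrix.adjugate_mul, h, one_smul]

/-- the representation for a ring `L` with elements `x, y, z, w`, `w (z - w) = 1` -/
theorem p_rep_gen {L : Type} [CommRing L] (x y z w : L) (h : w * (z - w) = 1) :
    ∃ ρ : Fr →* GL (Fin 2) L, (∀ g, (ρ g).val.det = 1) ∧ (ρ gx).val.trace = x ∧
      (ρ gy).val.trace = y ∧ (ρ (gx * gy)).val.trace = z := by
  have hX : (!![x, -1; 1, 0] : Matrix (Fin 2) (Fin 2) L).det = 1 := by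
    rw [Matrix.det_fin_two_of]
    ring
  have hY : (!![0, w; -(z - w), y] : Matrix (Fin 2) (Fin 2) L).det = 1 := by
    rw [Matrix.det_fin_two_of]
    linear_combination h
  let ρ : Fr →* GL (Fin 2) L := FreeGroup.lift ![p_rep_mk _ hX, p_rep_mk _ hY]
  have h0 : ρ gx = p_rep_mk _ hX := by
    simp [ρ, gx]
  have h1 : ρ gy = p_rep_mk _ hY := by
    simp [ρ, gy]
  refine ⟨ρ, ?_, ?_, ?_, ?_⟩
  · have hd : (Matrix.GeneralLinearGroup.det (n := Fin 2) (R := L)).comp ρ = 1 := by
      apply FreeGroup.ext_hom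
      intro i
      apply Units.ext
      rw [MonoidHom.comp_apply, Matrix.GeneralLinearGroup.val_det_apply, MonoidHom.one_apply,
        Units.val_one]
      fin_cases i
      · change (ρ gx).val.det = 1
        rw [h0]
        exact hX
      · change (ρ gy).val.det = 1
        rw [h1]
        exact hY
    intro g
    have := congrArg Units.val (DFunLike.congr_fun hd g)
    rw [MonoidHom.comp_apply, Matrix.GeneralLinearGroup.val_det_apply, MonoidHom.one_apply,
      Units.val_one] at this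
    exact this
  · rw [h0]
    change Matrix.trace !![x, -1; 1, 0] = x
    rw [Matrix.trace_fin_two_of]
    ring
  · rw [h1]
    change Matrix.trace !![0, w; -(z - w), y] = y
    rw [Matrix.trace_fin_two_of]
    ring
  · rw [map_mul, Units.val_mul, h0, h1]
    change Matrix.trace (!![x, -1; 1, 0] * !![0, w; -(z - w), y]) = z
    rw [Matrix.mul_fin_two, Matrix.trace_fin_two_of]
    ring

theorem p_rep : S_rep := by
  intro k _
  obtain ⟨q, hq⟩ : ∃ q : Polynomial (Ak k), q = Polynomial.X ^ 2 +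
      (Polynomial.C (-(X 2)) * Polynomial.X + Polynomial.C 1) := ⟨_, rfl⟩
  have hdeg : (Polynomial.C (-(X 2 : Ak k)) * Polynomial.X + Polynomial.C 1).degree <
      ((2 : ℕ) : WithBot ℕ) :=
    lt_of_le_of_lt Polynomial.degree_linear_le
      (by norm_num : ((1 : ℕ) : WithBot ℕ) < ((2 : ℕ) : WithBot ℕ))
  have hmonic : q.Monic := by
    rw [hq]
    exact Polynomial.monic_X_pow_add hdeg
  have hqdeg : q.degree = ((2 : ℕ) : WithBot ℕ) := by
    rw [hq, Polynomial.degree_add_eq_left_of_degree_lt, Polynomial.degree_X_pow]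
    rw [Polynomial.degree_X_pow]
    exact hdeg
  have hinj : Function.Injective (algebraMap (Ak k) (AdjoinRoot q)) := by
    rw [injective_iff_map_eq_zero]
    intro a ha
    by_contra hne
    have h1 : AdjoinRoot.mk q (Polynomial.C a) = 0 := ha
    rw [AdjoinRoot.mk_eq_zero] at h1
    refine hmonic.not_dvd_of_degree_lt (Polynomial.C_ne_zero.2 hne) ?_ h1
    rw [hqdeg]
    exact lt_of_le_of_lt Polynomial.degree_C_le (by norm_num)
  have hw : AdjoinRoot.root q * (algebraMap (Ak k) (AdjoinRoot q) (X 2) - AdjoinRoot.root q) =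
      1 := by
    have h1 : AdjoinRoot.mk q (Polynomial.X ^ 2 +
        (Polynomial.C (-(X 2)) * Polynomial.X + Polynomial.C 1)) = 0 := by
      rw [← hq]
      exact AdjoinRoot.mk_self
    have h2 : AdjoinRoot.mk q (Polynomial.X ^ 2 +
        (Polynomial.C (-(X 2)) * Polynomial.X + Polynomial.C 1)) = AdjoinRoot.root q ^ 2 +
        (algebraMap (Ak k) (AdjoinRoot q) (-(X 2)) * AdjoinRoot.root q + 1) := by
      rw [map_add, map_add, map_pow, map_mul, Polynomial.C_1, map_one, AdjoinRoot.mk_X,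
        AdjoinRoot.mk_C]
      rfl
    rw [h1, map_neg] at h2
    linear_combination h2
  obtain ⟨ρ, hdet, hx, hy, hz⟩ := p_rep_gen (algebraMap (Ak k) (AdjoinRoot q) (X 0))
    (algebraMap (Ak k) (AdjoinRoot q) (X 1)) (algebraMap (Ak k) (AdjoinRoot q) (X 2))
    (AdjoinRoot.root q) hw
  refine ⟨AdjoinRoot q, inferInstance, inferInstance, ρ, hinj, hdet, hx, hy, hz, ?_⟩
  have hT : PChar (1 : Fr →* kˣ) (fun g => (ρ g).val.trace) :=
    PChar.of_rep ρ 1 fun g => by rw [hdet, MonoidHom.one_apply, Units.val_one, map_one]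
  obtain ⟨T, hTdef⟩ : ∃ T : Fr → AdjoinRoot q, T = fun g => (ρ g).val.trace := ⟨_, rfl⟩
  rw [← hTdef] at hT
  let B : Subring (AdjoinRoot q) := (algebraMap (Ak k) (AdjoinRoot q)).range
  have hB : ∀ a, algebraMap (Ak k) (AdjoinRoot q) a ∈ B := fun a => ⟨a, rfl⟩
  have hFB : ∀ u : kˣ, algebraMap k (AdjoinRoot q) (u : k) ∈ B := by
    intro u
    rw [IsScalarTower.algebraMap_apply k (Ak k) (AdjoinRoot q)]
    exact hB _
  have t1 : T gx ∈ B := by rw [hTdef]; simp only; rw [hx]; exact hB _
  have t2 : T gy ∈ B := by rw [hTdef]; simp only; rw [hy]; exact hB _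
  have t3 : T (gx * gy) ∈ B := by rw [hTdef]; simp only; rw [hz]; exact hB _
  have t0 : T 1 ∈ B := by
    rw [hT.one, ← one_add_one_eq_two]
    exact B.add_mem B.one_mem B.one_mem
  have tsq : ∀ g, T g ∈ B → T (g * g) ∈ B := by
    intro g hg
    have h1 := hT.rel g g
    rw [mul_inv_cancel, MonoidHom.one_apply, Units.val_one, map_one, one_mul] at h1
    rw [eq_sub_of_add_eq h1]
    exact B.sub_mem (B.mul_mem hg hg) t0
  have t4 : T (gy * gx) ∈ B := by rw [hT.comm]; exact t3
  have hcl : Subgroup.closure {s | s ∈ [gx, gy]} = ⊤ := by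
    rw [eq_top_iff, ← FreeGroup.closure_range_of]
    apply Subgroup.closure_mono
    rintro _ ⟨i, rfl⟩
    fin_cases i
    · exact List.mem_cons_self
    · exact List.mem_cons_of_mem _ List.mem_cons_self
  have h1 : ∀ s ∈ [gx, gy], T s ∈ B := by
    intro s hs
    rw [List.mem_cons, List.mem_singleton] at hs
    rcases hs with rfl | rfl
    · exact t1
    · exact t2
  have h2 : ∀ s ∈ [gx, gy], ∀ s' ∈ [gx, gy], T (s * s') ∈ B := by
    intro s hs s' hs'
    rw [List.mem_cons, List.mem_singleton] at hs hs'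
    rcases hs with rfl | rfl <;> rcases hs' with rfl | rfl
    · exact tsq _ t1
    · exact t3
    · exact t4
    · exact tsq _ t2
  have h3 : ∀ v ∈ CC.PCharFin.words [gx, gy], T v ∈ B := by
    intro v hv
    simp only [CC.PCharFin.words, List.mem_append, List.mem_map, List.mem_singleton] at hv
    rcases hv with (rfl | ⟨_, rfl, rfl⟩) | ⟨_, (rfl | ⟨_, rfl, rfl⟩), rfl⟩
    · exact t0
    · rw [mul_one]; exact t2
    · rw [mul_one]; exact t1
    · rw [mul_one]; exact t3
  intro g
  have h4 := CC.PCharFin.eval_mem B [gx, gy] h3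
    (CC.PCharFin.tr_mem hT B hFB [gx, gy] hcl h1 h2 g)
  have h5 : T g ∈ B := by
    have : CC.PCharFin.tr T g 1 = T g := by
      unfold CC.PCharFin.tr
      rw [mul_one]
    rwa [this] at h4
  obtain ⟨a, ha⟩ := h5
  refine ⟨a, ?_⟩
  rw [ha, hTdef]

end Pool.Agent.F2
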