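import Pool.Agent.Lib.MP_305fdd_al.F2.StmG

/-!
# MP_305fdd_al (`F_2`), section G, piece [GB res]: the restriction to the reducible locus
-/

set_option autoImplicit false

namespace Pool.Agent.F2

open MvPolynomial Pool.Agent.Lib.MP_305fdd_al Pool.Agent.MP_305fdd_al
open scoped commutatorElement

/-- representatives in the image of `f` -/
private lemma p_res_rep {Λ : Type} [Group Λ] {f : Fr →* Λ}
    {cl : Λ →* Multiplicative (ℤ × ℤ)} (hE : Emb Λ f cl) (c : ℕ) (l : Λ) :
    ∃ g : Fr, f g * l⁻¹ ∈ (commutator Λ).lowerCentralSeries c := by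
  have h : l ∈ f.range ⊔ (commutator Λ).lowerCentralSeries c := by
    rw [hE.sup c]; exact Subgroup.mem_top l
  rw [Subgroup.mem_sup_of_normal_right] at h
  obtain ⟨y, ⟨g, rfl⟩, z, hz, rfl⟩ := h
  refine ⟨g, ?_⟩
  have e : f g * (f g * z)⁻¹ = f g * z⁻¹ * (f g)⁻¹ := by group
  rw [e]
  exact Subgroup.Normal.conj_mem inferInstance _ (inv_mem hz) _

theorem p_res (h1 : S_kera) (h2 : S_resa) (h3 : S_auniv) : S_res := by
  intro k _ Λ _ f cl hE D _ _ T β hTR
  have hker : ∀ a ∈ (Ideal.span {kap k ^ 1} : Ideal (Ak k)), resA k a = 0 := by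
    intro a ha
    rw [pow_one, Ideal.mem_span_singleton] at ha
    exact (h1 k a).2 ha
  refine ⟨⟨(Ideal.Quotient.liftₐ _ (resA k) hker).comp (β 1), ?_, ?_⟩, ?_⟩
  · intro l
    obtain ⟨g, hg⟩ := p_res_rep hE (2 * 1) l
    have hc : f g * l⁻¹ ∈ cl.ker := by
      rw [hE.ker]
      exact Subgroup.lowerCentralSeries_antitone (commutator Λ) (Nat.zero_le _) hg
    have hcl : clF g = cl l := by
      rw [← hE.clf]
      rw [MonoidHom.mem_ker, map_mul, map_inv, mul_inv_eq_one] at hc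
      exact hc
    rw [AlgHom.comp_apply, hTR.beta 1 g l hg, ← hcl, ← h2.1 k g]
    rfl
  · intro b
    obtain ⟨a, ha⟩ := Ideal.Quotient.mk_surjective (β 1 b)
    rw [AlgHom.comp_apply, ← ha, Ideal.Quotient.eq_zero_iff_mem]
    have e1 : a ∈ (Ideal.span {kap k ^ 1} : Ideal (Ak k)) ↔ resA k a = 0 := by
      rw [pow_one, Ideal.mem_span_singleton, ← h1 k a]
    rw [e1]
    rfl
  · have hpc : PC fun g : Fr => T (f g) := by
      refine ⟨?_, ?_, ?_⟩
      · show T (f 1) = 2
        rw [map_one]; exact hTR.pc.one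
      · intro g h
        show T (f (g * h)) = T (f (h * g))
        rw [map_mul, map_mul]; exact hTR.pc.comm _ _
      · intro g h
        show T (f (g * h)) + T (f (g * h⁻¹)) = T (f g) * T (f h)
        rw [map_mul, map_mul, map_inv]; exact hTR.pc.rel _ _
    obtain ⟨φ, hφ⟩ := h3.1 k D (fun g => T (f g)) hpc
    refine ⟨φ, hφ, fun n a => ?_⟩
    have e : (β n).comp φ = Ideal.Quotient.mkₐ k (Ideal.span {kap k ^ n} : Ideal (Ak k)) := by
      refine AlgHom.ext_of_adjoin_eq_top (h3.2.1 k).1 ?_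
      rintro _ ⟨g, rfl⟩
      rw [AlgHom.comp_apply, hφ g, hTR.beta n g (f g) (by rw [mul_inv_cancel]; exact one_mem _)]
      rfl
    exact DFunLike.congr_fun e a

end Pool.Agent.F2
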