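import Pool.Agent.Lib.MP_305fdd_al.F2.StmG
import Pool.Agent.Lib.MP_305fdd_al.CC.PChar

set_option autoImplicit false

namespace Pool.Agent.F2

open MvPolynomial Pool.Agent.Lib.MP_305fdd_al Pool.Agent.MP_305fdd_al
open scoped commutatorElement

theorem p_resa_ee (k : Type) [Field k] :
    PC fun c : Multiplicative (ℤ × ℤ) => ee k (Multiplicative.toAdd c) where
  one := by
    rw [toAdd_one, ee, neg_zero, ← AddMonoidAlgebra.one_def]
    norm_num
  comm g h := by rw [mul_comm]
  rel g h := by
    simp only [ee, toAdd_mul, toAdd_inv, mul_add, add_mul, AddMonoidAlgebra.single_mul_single,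
      mul_one, neg_add_rev, neg_neg]
    rw [add_comm (-(Multiplicative.toAdd h)) (-(Multiplicative.toAdd g)),
      add_comm (Multiplicative.toAdd h) (-(Multiplicative.toAdd g))]
    abel

theorem p_resa_gen : Subgroup.closure ({gx, gy} : Set Fr) = ⊤ := by
  rw [← FreeGroup.closure_range_of (Fin 2)]
  congr 1
  ext g
  constructor
  · rintro (rfl | rfl)
    · exact ⟨0, rfl⟩
    · exact ⟨1, rfl⟩
  · rintro ⟨i, rfl⟩
    fin_cases i
    · exact Or.inl rfl
    · exact Or.inr rfl

theorem p_resa (h1 : S_tapc) (h2 : S_br) : S_resa := by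
  refine ⟨fun k _ g => ?_, fun k _ => p_resa_ee k⟩
  obtain ⟨hT, hx, hy, hxy⟩ := h1 k
  have hA : CC.PChar (1 : Fr →* kˣ) (TA k) := (h2 k Fr (Ak k) (TA k)).1.1 hT
  have hA' : CC.PChar (1 : Fr →* kˣ) (fun g => resA k (TA k g)) := CC.PChar.map hA (resA k)
  have hB : PC (fun g : Fr => ee k (Multiplicative.toAdd (clF g))) :=
    { one := by
        have := (p_resa_ee k).one
        rw [map_one]
        exact this
      comm := fun g h => by
        have := (p_resa_ee k).comm (clF g) (clF h)
        rw [map_mul clF, map_mul clF]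
        exact this
      rel := fun g h => by
        have := (p_resa_ee k).rel (clF g) (clF h)
        rw [map_mul clF, map_mul clF, map_inv clF]
        exact this }
  have hB' : CC.PChar (1 : Fr →* kˣ) (fun g : Fr => ee k (Multiplicative.toAdd (clF g))) :=
    (h2 k Fr (Lau k) _).1.1 hB
  have cx : clF gx = Multiplicative.ofAdd (1, 0) := by simp [clF, gx]
  have cy : clF gy = Multiplicative.ofAdd (0, 1) := by simp [clF, gy]
  have key := CC.PChar.unique p_resa_gen hA' hB' ?_ ?_ ?_
  · exact congrFun key g
  · change resA k (TA k gx) = _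
    rw [hx, cx]
    simp [resA]
  · change resA k (TA k gy) = _
    rw [hy, cy]
    simp [resA]
  · change resA k (TA k (gx * gy)) = ee k (Multiplicative.toAdd (clF (gx * gy)))
    rw [hxy, map_mul, cx, cy, ← ofAdd_add, toAdd_ofAdd]
    simp [resA]

end Pool.Agent.F2
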