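import Pool.Agent.Lib.MP_305fdd_al.F2.StmG

/-!
# MP_305fdd_al (`F_2`), section G, piece rf
-/

set_option autoImplicit false

namespace Pool.Agent.F2

theorem p_rf : S_rf := by
  intro p _ B _ _ hft
  have hN : IsNoetherianRing B := Algebra.FiniteType.isNoetherianRing (ZMod p) B
  have hmax : ∀ m : Ideal B, m.IsMaximal → Finite (B ⧸ m) := by
    intro m hm
    let _ : Field (B ⧸ m) := Ideal.Quotient.field m
    have h1 : Algebra.FiniteType (ZMod p) (B ⧸ m) := inferInstance
    have h2 : Module.Finite (ZMod p) (B ⧸ m) :=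
      finite_of_finite_type_of_isJacobsonRing (ZMod p) (B ⧸ m)
    exact Module.finite_of_finite (ZMod p)
  refine ⟨hmax, fun b hb => ?_⟩
  let a : Ideal B := LinearMap.ker (LinearMap.toSpanSingleton B B b)
  have ha : ∀ x, x ∈ a ↔ x * b = 0 := fun x => by
    rw [LinearMap.mem_ker, LinearMap.toSpanSingleton_apply, smul_eq_mul]
  have ha1 : a ≠ ⊤ := by
    intro h
    have h1 : (1 : B) ∈ a := by
      rw [h]
      trivial
    rw [ha, one_mul] at h1
    exact hb h1
  obtain ⟨m, hm, hle⟩ := Ideal.exists_le_maximal a ha1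
  by_contra hcon
  push Not at hcon
  have hfin := hmax m hm
  have hall : ∀ n : ℕ, b ∈ m ^ n := by
    intro n
    refine hcon (m ^ n) ?_
    exact Ideal.finite_quotient_pow (hN.noetherian m) n
  have hinf : b ∈ (⨅ i : ℕ, m ^ i • (⊤ : Submodule B B)) := by
    rw [Submodule.mem_iInf]
    intro i
    rw [smul_eq_mul, Ideal.mul_top]
    exact hall i
  obtain ⟨r, hr⟩ := (Ideal.mem_iInf_smul_pow_eq_bot_iff m b).1 hinf
  have h1 : (1 - (r : B)) ∈ m := by
    apply hle
    rw [ha, sub_mul, one_mul]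
    have h2 : (r : B) * b = b := hr
    rw [h2, sub_self]
  have h2 : (1 : B) ∈ m := by
    have h3 := m.add_mem h1 r.2
    rwa [sub_add_cancel] at h3
  exact hm.ne_top ((Ideal.eq_top_iff_one m).2 h2)

end Pool.Agent.F2
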