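import Pool.Agent.Lib.MP_305fdd_al.F2.StmG
import Pool.Agent.Lib.MP_305fdd_al.CC.PChar

/-!
# MP_305fdd_al, F_2, section G: piece tapc
-/

set_option autoImplicit false

namespace Pool.Agent.F2

open MvPolynomial Pool.Agent.Lib.MP_305fdd_al Pool.Agent.MP_305fdd_al
open scoped commutatorElement

theorem p_tapc_ex (h1 : S_rep) (k : Type) [Field k] : ∃ T : Fr → Ak k, IsTA k T := by
  obtain ⟨L, _, _, ρ, hinj, hdet, hx, hy, hz, hT⟩ := h1 k
  choose T hT using hT
  let _ : Algebra k L := ((algebraMap (Ak k) L).comp (algebraMap k (Ak k))).toAlgebra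
  have hP := CC.PChar.of_rep (F := k) ρ 1 (fun g => by
    rw [hdet g, MonoidHom.one_apply, Units.val_one, map_one])
  refine ⟨T, ⟨?_, ?_, ?_⟩, ?_, ?_, ?_⟩
  · apply hinj
    rw [← hT 1, map_ofNat]
    exact hP.one
  · intro g h
    apply hinj
    rw [← hT, ← hT]
    exact hP.comm g h
  · intro g h
    apply hinj
    have h2 := hP.rel g h
    rw [MonoidHom.one_apply, Units.val_one, map_one, one_mul] at h2
    rw [map_add, map_mul, ← hT, ← hT, ← hT, ← hT]
    exact h2
  · exact hinj ((hT gx).symm.trans hx)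
  · exact hinj ((hT gy).symm.trans hy)
  · exact hinj ((hT (gx * gy)).symm.trans hz)

theorem p_tapc (h1 : S_rep) : S_tapc := fun k _ => Classical.epsilon_spec (p_tapc_ex h1 k)

end Pool.Agent.F2
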