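import Pool.Agent.Lib.MP_305fdd_al.F2.StmG

/-!
# MP_305fdd_al, F_2: piece [GB tr] (helper58)
-/

set_option autoImplicit false

namespace Pool.Agent.F2

open MvPolynomial Pool.Agent.Lib.MP_305fdd_al Pool.Agent.MP_305fdd_al
open scoped commutatorElement

theorem p_tr (h1 : S_beta) (h2 : S_uni) : S_tr := by
  intro k _ Λ _ _ f cl hE
  obtain ⟨β₀, hβ, hcomp⟩ := h1 k Λ f cl hE
  obtain ⟨hpc, hadj, -⟩ := h2.1 k Λ
  have hft : Algebra.FiniteType k (Uni k Λ) := h2.2 k Λ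
  let I : Ideal (Uni k Λ) := ⨅ n, RingHom.ker (β₀ n)
  have hI : ∀ n, ∀ a ∈ I, β₀ n a = 0 := fun n a ha =>
    RingHom.mem_ker.1 ((Submodule.mem_iInf _).1 ha n)
  let q : Uni k Λ →ₐ[k] Uni k Λ ⧸ I := Ideal.Quotient.mkₐ k I
  have hq : Function.Surjective q := Ideal.Quotient.mkₐ_surjective k I
  let β : ∀ n : ℕ, (Uni k Λ ⧸ I) →ₐ[k] Ak k ⧸ (Ideal.span {kap k ^ n} : Ideal (Ak k)) :=
    fun n => Ideal.Quotient.liftₐ I (β₀ n) (hI n)
  have hβq : ∀ n b, β n (q b) = β₀ n b := fun n b => rfl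
  refine ⟨Uni k Λ ⧸ I, inferInstance, inferInstance, fun l => q (tu k l), β, ?_⟩
  refine ⟨⟨?_, ?_, ?_⟩, ?_, ?_, ?_, ?_, ?_⟩
  · show q (tu k 1) = 2
    rw [hpc.one, map_ofNat]
  · intro g h
    show q (tu k (g * h)) = q (tu k (h * g))
    rw [hpc.comm]
  · intro g h
    show q (tu k (g * h)) + q (tu k (g * h⁻¹)) = q (tu k g) * q (tu k h)
    rw [← map_add, hpc.rel, map_mul]
  · have e : Set.range (fun l => q (tu k l)) = q '' Set.range (tu k : Λ → Uni k Λ) := by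
      rw [← Set.range_comp]
      rfl
    rw [e, ← AlgHom.map_adjoin, hadj, Algebra.map_top]
    exact (AlgHom.range_eq_top q).2 hq
  · exact Algebra.FiniteType.of_surjective q hq
  · intro n g l hl
    rw [hβq]
    exact hβ n g l hl
  · intro m n hmn b
    obtain ⟨b, rfl⟩ := hq b
    rw [hβq, hβq]
    exact hcomp m n hmn b
  · intro b hb
    obtain ⟨b, rfl⟩ := hq b
    refine Ideal.Quotient.eq_zero_iff_mem.2 ((Submodule.mem_iInf _).2 fun n => ?_)
    exact RingHom.mem_ker.2 (hb n)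

end Pool.Agent.F2
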