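import Pool.Agent.Lib.MP_305fdd_al.F2.StmG

/-!
# MP_305fdd_al, section G: [GB two]
-/

set_option autoImplicit false

namespace Pool.Agent.F2

open MvPolynomial
open scoped commutatorElement

section pseudo

variable {G R : Type} [Group G] [CommRing R] {T : G → R}

private theorem p_two_triple (hT : PC T) (g h k : G) :
    T (g * h * k) + T (h * g * k) =
      T g * T (h * k) + T h * T (g * k) + (T (g * h) - T g * T h) * T k := by
  have h1 := hT.rel (g * h) k
  have h2 := hT.rel g (h * k⁻¹)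
  have h3 := hT.rel (g * k) h
  have h4 := hT.rel h k
  have e1 : g * (h * k⁻¹)⁻¹ = g * k * h⁻¹ := by group
  have e2 : g * (h * k⁻¹) = g * h * k⁻¹ := by group
  have e3 : T (g * k * h) = T (h * g * k) := by
    rw [hT.comm (g * k) h, mul_assoc]
  rw [e1, e2] at h2
  rw [e3] at h3
  linear_combination h1 - h2 + h3 - T g * h4

private theorem p_two_inv (hT : PC T) (g k : G) : T (g⁻¹ * k) = T g * T k - T (g * k) := by
  have h1 := hT.rel k g
  rw [hT.comm k g, hT.comm k g⁻¹] at h1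
  linear_combination h1

private theorem p_two_sqr (hT : PC T) (g k : G) : T (g * (g * k)) = T g * T (g * k) - T k := by
  have h1 := p_two_inv hT g (g * k)
  rw [inv_mul_cancel_left] at h1
  linear_combination h1

private theorem p_two_swap (hT : PC T) (x y k : G) :
    T (y * (x * k)) = - T (x * (y * k)) + T x * T (y * k) + T y * T (x * k) +
      (T (x * y) - T x * T y) * T k := by
  have := p_two_triple hT x y k
  rw [mul_assoc y x k, mul_assoc x y k] at this
  linear_combination this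

/-- the values `T (w h)` are combinations of four of them -/
private def p_two_M (T : G → R) (a b w : G) : Prop :=
  ∃ c0 c1 c2 c3 : R, ∀ h, T (w * h) = c0 * T h + c1 * T (a * h) + c2 * T (b * h) + c3 * T (a * (b * h))

private theorem p_two_Ma (hT : PC T) (a b w : G) (hw : p_two_M T a b w) : p_two_M T a b (a * w) := by
  obtain ⟨c0, c1, c2, c3, h⟩ := hw
  refine ⟨-c1, c0 + c1 * T a, -c3, c2 + c3 * T a, fun g => ?_⟩
  have e0 : T (a * w * g) = T (w * (g * a)) := by
    rw [mul_assoc, hT.comm a, mul_assoc]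
  have e1 : T (g * a) = T (a * g) := hT.comm _ _
  have e2 : T (a * (g * a)) = T a * T (a * g) - T g := by
    rw [← mul_assoc, hT.comm (a * g) a, p_two_sqr hT]
  have e3 : T (b * (g * a)) = T (a * (b * g)) := by
    rw [← mul_assoc, hT.comm (b * g) a]
  have e4 : T (a * (b * (g * a))) = T a * T (a * (b * g)) - T (b * g) := by
    rw [← p_two_sqr hT, ← mul_assoc b g a, ← mul_assoc a (b * g) a, hT.comm (a * (b * g)) a]
  rw [e0, h, e1, e2, e3, e4]
  ring

private theorem p_two_Mb (hT : PC T) (a b w : G) (hw : p_two_M T a b w) : p_two_M T a b (b * w) := by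
  obtain ⟨c0, c1, c2, c3, h⟩ := hw
  refine ⟨c1 * (T (a * b) - T a * T b) - c2 - c3 * T a, c1 * T b + c3, c0 + c1 * T a + c2 * T b +
    c3 * T a * T b + c3 * (T (a * b) - T a * T b), -c1, fun g => ?_⟩
  have e0 : T (b * w * g) = T (w * (g * b)) := by
    rw [mul_assoc, hT.comm b, mul_assoc]
  have e1 : T (g * b) = T (b * g) := hT.comm _ _
  have e2 : T (b * (g * b)) = T b * T (b * g) - T g := by
    rw [← mul_assoc, hT.comm (b * g) b, p_two_sqr hT]
  have e3 : T (a * (g * b)) = T (b * (a * g)) := by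
    rw [← mul_assoc, hT.comm (a * g) b]
  have e4 : T (a * (b * (g * b))) = T (b * (a * (b * g))) := by
    rw [← mul_assoc b g b, ← mul_assoc a (b * g) b, hT.comm (a * (b * g)) b]
  have e5 : T (a * (b * (b * g))) = T b * T (a * (b * g)) - T (a * g) := by
    have e6 : T (a * (b * (b * g))) = T (b * (b * (g * a))) := by
      rw [hT.comm a, mul_assoc, mul_assoc]
    rw [e6, p_two_sqr hT, hT.comm g a, ← mul_assoc b g a, hT.comm (b * g) a]
  rw [e0, h, e1, e2, e3, e4, p_two_swap hT a b g, p_two_swap hT a b (b * g), e5, p_two_sqr hT b g]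
  ring

private theorem p_two_Minv (hT : PC T) (a b v w : G) (hw : p_two_M T a b w)
    (hv : p_two_M T a b (v * w)) : p_two_M T a b (v⁻¹ * w) := by
  obtain ⟨c0, c1, c2, c3, h⟩ := hw
  obtain ⟨d0, d1, d2, d3, h'⟩ := hv
  refine ⟨T v * c0 - d0, T v * c1 - d1, T v * c2 - d2, T v * c3 - d3, fun g => ?_⟩
  have e := p_two_inv hT v (w * g)
  rw [← mul_assoc, ← mul_assoc, h, h'] at e
  rw [e]
  ring

private theorem p_two_all (hT : PC T) (f : Fr →* G) (g : Fr) : p_two_M T (f gx) (f gy) (f g) := by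
  have key : ∀ w, p_two_M T (f gx) (f gy) w → p_two_M T (f gx) (f gy) (f g * w) := by
    induction g using FreeGroup.induction_on with
    | C1 => intro w hw; rw [map_one, one_mul]; exact hw
    | of i =>
      intro w hw
      fin_cases i
      · exact p_two_Ma hT _ _ w hw
      · exact p_two_Mb hT _ _ w hw
    | inv_of i ih =>
      intro w hw
      rw [map_inv]
      exact p_two_Minv hT _ _ _ w hw (ih w hw)
    | mul x y hx hy =>
      intro w hw
      rw [map_mul, mul_assoc]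
      exact hx _ (hy w hw)
  have h1 := key 1 ⟨1, 0, 0, 0, fun h => by rw [one_mul]; ring⟩
  rwa [mul_one] at h1

end pseudo

/-! ### Laurent polynomials -/

private theorem p_two_lau1 (k : Type) [Field k] (s t : Lau k) (hs : ∀ c, s.coeff (-c) = s.coeff c)
    (ht : ∀ c, t.coeff (-c) = t.coeff c) (w : ℤ × ℤ) (hw : w ≠ -w)
    (h : s = AddMonoidAlgebra.single w 1 * t) : t = 0 := by
  have h2 : s = AddMonoidAlgebra.single (-w) 1 * t := by
    ext c
    rw [AddMonoidAlgebra.coeff_single_mul_apply, ← hs, h, AddMonoidAlgebra.coeff_single_mul_apply,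
      ← ht, neg_add, neg_neg, neg_neg]
  have h3 : (AddMonoidAlgebra.single w 1 - AddMonoidAlgebra.single (-w) 1 : Lau k) * t = 0 := by
    rw [sub_mul, ← h, ← h2, sub_self]
  rcases mul_eq_zero.1 h3 with h4 | h4
  · exfalso
    have h5 := congrArg (fun z : Lau k => z.coeff w) h4
    simp only [AddMonoidAlgebra.coeff_sub, AddMonoidAlgebra.coeff_single, Finsupp.sub_apply,
      Finsupp.single_eq_same, AddMonoidAlgebra.coeff_zero, Finsupp.zero_apply] at h5
    rw [Finsupp.single_eq_of_ne hw] at h5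
    simp at h5
  · exact h4

private theorem p_two_vv (k : Type) [Field k] :
    (AddMonoidAlgebra.single (0, 1) 1 * AddMonoidAlgebra.single (-(0, 1)) 1 : Lau k) = 1 := by
  rw [AddMonoidAlgebra.single_mul_single, add_neg_cancel, one_mul]
  rfl

private theorem p_two_lau (k : Type) [Field k] (s t : Lau k) (hs : ∀ c, s.coeff (-c) = s.coeff c)
    (ht : ∀ c, t.coeff (-c) = t.coeff c) (h : s ^ 2 + t ^ 2 - ee k (0, 1) * s * t = 0) :
    s = 0 ∧ t = 0 := by
  have hv := p_two_vv k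
  have hw : ((0, 1) : ℤ × ℤ) ≠ -(0, 1) := by decide
  have h1 : (s - AddMonoidAlgebra.single (0, 1) 1 * t) *
      (s - AddMonoidAlgebra.single (-(0, 1)) 1 * t) = 0 := by
    unfold ee at h
    linear_combination h + t ^ 2 * hv
  have ht0 : t = 0 := by
    rcases mul_eq_zero.1 h1 with h2 | h2
    · exact p_two_lau1 k s t hs ht (0, 1) hw (sub_eq_zero.1 h2)
    · exact p_two_lau1 k s t hs ht (-(0, 1)) (by decide) (sub_eq_zero.1 h2)
  refine ⟨?_, ht0⟩
  rw [ht0] at h
  have : s ^ 2 = 0 := by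
    linear_combination h
  exact pow_eq_zero_iff (two_ne_zero) |>.1 this

private theorem p_two_delta (k : Type) [Field k] : (resA k (X 1 ^ 2 - 4)) ≠ 0 := by
  have hv := p_two_vv k
  have e : resA k (X 1 ^ 2 - 4) = (AddMonoidAlgebra.single (0, 1) 1 -
      AddMonoidAlgebra.single (-(0, 1)) 1) ^ 2 := by
    have e1 : resA k (X 1) = ee k (0, 1) := by
      unfold resA
      rw [aeval_X]
      rfl
    rw [map_sub, map_pow, e1, map_ofNat]
    unfold ee
    linear_combination 4 * hv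
  rw [e]
  intro h
  have h2 := pow_eq_zero_iff (two_ne_zero) |>.1 h
  have h5 := congrArg (fun z : Lau k => z.coeff (0, 1)) h2
  simp only [AddMonoidAlgebra.coeff_sub, AddMonoidAlgebra.coeff_single, Finsupp.sub_apply,
    Finsupp.single_eq_same, AddMonoidAlgebra.coeff_zero, Finsupp.zero_apply] at h5
  rw [Finsupp.single_eq_of_ne (by decide)] at h5
  simp at h5

private theorem p_two_kap (k : Type) [Field k] (h2 : (2 : k) ≠ 0) : kap k ≠ 0 := by
  intro h
  have h3 := congrArg (MvPolynomial.eval (0 : Fin 3 → k)) h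
  simp only [kap, map_sub, map_add, map_pow, map_mul, eval_X, map_ofNat, map_zero, Pi.zero_apply] at h3
  have h4 : (2 : k) ^ 2 = 0 := by
    linear_combination -h3
  exact h2 (pow_eq_zero_iff (two_ne_zero) |>.1 h4)

/-- [GB two] -/
theorem p_two (h1 : S_fr3) (h2 : S_kera) (_h3 : S_auniv) (h4 : S_dom) (h5 : S_ctnd) (h6 : S_tapc) :
    S_two := by
  intro k _ hk2 Λ _ f cl hemb D _ _ T β hTR u hu
  have hT := hTR.pc
  have hdom : IsDomain D := h4 k Λ f D T β hTR
  obtain ⟨-, hTAx, hTAy, hTAz⟩ := h6 k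
  have hkap := p_two_kap k hk2
  -- notation
  obtain ⟨a, ha⟩ : ∃ a, a = f gx := ⟨_, rfl⟩
  obtain ⟨b, hb⟩ : ∃ b, b = f gy := ⟨_, rfl⟩
  have hβf : ∀ (n : ℕ) (g : Fr), β n (T (f g)) = Ideal.Quotient.mk _ (TA k g) := by
    intro n g
    refine hTR.beta n g (f g) ?_
    rw [mul_inv_cancel]
    exact Subgroup.one_mem _
  have hβx : ∀ n, β n (T a) = Ideal.Quotient.mk _ (X 0) := by
    intro n; rw [ha, hβf, hTAx]
  have hβy : ∀ n, β n (T b) = Ideal.Quotient.mk _ (X 1) := by
    intro n; rw [hb, hβf, hTAy]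
  have hβz : ∀ n, β n (T (a * b)) = Ideal.Quotient.mk _ (X 2) := by
    intro n; rw [ha, hb, ← map_mul, hβf, hTAz]
  -- changing the level
  have hle : ∀ m n : ℕ, m ≤ n → (Ideal.span {kap k ^ n} : Ideal (Ak k)) ≤ Ideal.span {kap k ^ m} := by
    intro m n hmn
    rw [Ideal.span_singleton_le_span_singleton]
    exact pow_dvd_pow _ hmn
  have hfac : ∀ (m n : ℕ) (d : D) (c : Ak k), m ≤ n → β n d = Ideal.Quotient.mk _ c →
      β m d = Ideal.Quotient.mk _ c := by
    intro m n d c hmn h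
    rw [← hTR.compat m n (hle m n hmn), h, Ideal.Quotient.factor_mk]
  have hmk : ∀ (n : ℕ) (c : Ak k), Ideal.Quotient.mk (Ideal.span {kap k ^ n}) c = 0 ↔ kap k ^ n ∣ c := by
    intro n c
    rw [Ideal.Quotient.eq_zero_iff_mem, Ideal.mem_span_singleton]
  have hrep : ∀ (m n : ℕ) (d : D), m ≤ n → β m d = 0 → ∃ c : Ak k,
      β n d = Ideal.Quotient.mk _ (kap k ^ m * c) := by
    intro m n d hmn h
    obtain ⟨c, hc⟩ := Ideal.Quotient.mk_surjective (β n d)
    have h7 := hfac m n d c hmn hc.symm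
    rw [h] at h7
    obtain ⟨c', hc'⟩ := (hmk m c).1 h7.symm
    exact ⟨c', by rw [← hc, hc']⟩
  -- the elements
  obtain ⟨x, hx⟩ : ∃ x, x = T a := ⟨_, rfl⟩
  obtain ⟨y, hy⟩ : ∃ y, y = T b := ⟨_, rfl⟩
  obtain ⟨z, hz⟩ : ∃ z, z = T (a * b) := ⟨_, rfl⟩
  obtain ⟨P, hP⟩ : ∃ P, P = T (a * u) - x := ⟨_, rfl⟩
  obtain ⟨Q, hQ⟩ : ∃ Q, Q = T (b * u) - y := ⟨_, rfl⟩
  obtain ⟨R, hR⟩ : ∃ R, R = T (a * b * u) - z := ⟨_, rfl⟩
  have hF : P ^ 2 + Q ^ 2 + R ^ 2 + z * P * Q - x * Q * R - y * P * R = 0 := by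
    have h7 := h1 k Λ D T hT a b u
    rw [hP, hQ, hR, hx, hy, hz]
    rw [hu] at h7
    linear_combination h7
  obtain ⟨δ, hδ⟩ : ∃ δ, δ = y ^ 2 - 4 := ⟨_, rfl⟩
  obtain ⟨P', hP'⟩ : ∃ P', P' = δ * P + (x * y - 2 * z) * Q := ⟨_, rfl⟩
  obtain ⟨R', hR'⟩ : ∃ R', R' = δ * R + (2 * x - y * z) * Q := ⟨_, rfl⟩
  have hE : P' ^ 2 + R' ^ 2 - y * P' * R' + δ * (x ^ 2 + y ^ 2 + z ^ 2 - x * y * z - 4) * Q ^ 2 = 0 := by
    rw [hP', hR', hδ]
    linear_combination (y ^ 2 - 4) ^ 2 * hF
  -- divisibility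
  have hEβ : ∀ (n m m' : ℕ) (p r q : Ak k), β n P' = Ideal.Quotient.mk _ (kap k ^ m * p) →
      β n R' = Ideal.Quotient.mk _ (kap k ^ m * r) → β n Q = Ideal.Quotient.mk _ (kap k ^ m' * q) →
      kap k ^ n ∣ kap k ^ (2 * m) * (p ^ 2 + r ^ 2 - X 1 * p * r) +
        kap k ^ (2 * m' + 1) * ((X 1 ^ 2 - 4) * q ^ 2) := by
    intro n m m' p r q e1 e2 e3
    have h7 := congrArg (β n) hE
    rw [hδ] at h7
    simp only [map_add, map_sub, map_mul, map_pow, map_ofNat, map_zero] at h7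
    rw [e1, e2, e3] at h7
    rw [hx, hy, hz, hβx, hβy, hβz] at h7
    rw [← hmk, ← h7]
    simp only [← map_ofNat (Ideal.Quotient.mk (Ideal.span {kap k ^ n})), ← map_mul, ← map_pow, ← map_add, ← map_sub]
    congr 1
    simp only [kap]
    ring
  have claim : ∀ n, β n P' = 0 ∧ β n R' = 0 ∧ β n Q = 0 := by
    intro n
    induction n with
    | zero =>
      have : ∀ d : D, β 0 d = 0 := by
        intro d
        obtain ⟨c, hc⟩ := Ideal.Quotient.mk_surjective (β 0 d)
        rw [← hc, hmk, pow_zero]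
        exact one_dvd _
      exact ⟨this _, this _, this _⟩
    | succ n ih =>
      obtain ⟨i1, i2, i3⟩ := ih
      have step1 : β (n + 1) P' = 0 ∧ β (n + 1) R' = 0 := by
        obtain ⟨p, hp⟩ := hrep n (2 * n + 1) P' (by omega) i1
        obtain ⟨r, hr⟩ := hrep n (2 * n + 1) R' (by omega) i2
        obtain ⟨q, hq⟩ := hrep n (2 * n + 1) Q (by omega) i3
        have h7 := hEβ (2 * n + 1) n n p r q hp hr hq
        have h8 : kap k ^ (2 * n) * kap k ∣ kap k ^ (2 * n) *
            ((p ^ 2 + r ^ 2 - X 1 * p * r) + kap k * ((X 1 ^ 2 - 4) * q ^ 2)) := by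
          have e : kap k ^ (2 * n) * ((p ^ 2 + r ^ 2 - X 1 * p * r) + kap k * ((X 1 ^ 2 - 4) * q ^ 2)) =
            kap k ^ (2 * n) * (p ^ 2 + r ^ 2 - X 1 * p * r) +
              kap k ^ (2 * n + 1) * ((X 1 ^ 2 - 4) * q ^ 2) := by ring
          rw [e, ← pow_succ]
          exact h7
        have h9 := (mul_dvd_mul_iff_left (pow_ne_zero _ hkap)).1 h8
        have h10 : kap k ∣ p ^ 2 + r ^ 2 - X 1 * p * r := (dvd_add_left (dvd_mul_right _ _)).1 h9
        have h11 := (h2 k _).2 h10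
        have eX : resA k (X 1) = ee k (0, 1) := by
          unfold resA
          rw [aeval_X]
          rfl
        rw [map_sub, map_add, map_pow, map_pow, map_mul, map_mul, eX] at h11
        obtain ⟨s0, t0⟩ := p_two_lau k _ _ ((h5 k hk2 p).1) ((h5 k hk2 r).1) h11
        obtain ⟨p', rfl⟩ := (h2 k _).1 s0
        obtain ⟨r', rfl⟩ := (h2 k _).1 t0
        refine ⟨?_, ?_⟩
        · rw [hfac (n + 1) (2 * n + 1) P' _ (by omega) hp, hmk, pow_succ, ← mul_assoc]
          exact dvd_mul_right _ _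
        · rw [hfac (n + 1) (2 * n + 1) R' _ (by omega) hr, hmk, pow_succ, ← mul_assoc]
          exact dvd_mul_right _ _
      refine ⟨step1.1, step1.2, ?_⟩
      obtain ⟨p, hp⟩ := hrep (n + 1) (2 * n + 2) P' (by omega) step1.1
      obtain ⟨r, hr⟩ := hrep (n + 1) (2 * n + 2) R' (by omega) step1.2
      obtain ⟨q, hq⟩ := hrep n (2 * n + 2) Q (by omega) i3
      have h7 := hEβ (2 * n + 2) (n + 1) n p r q hp hr hq
      have h8 : kap k ^ (2 * n + 2) ∣ kap k ^ (2 * n + 1) * ((X 1 ^ 2 - 4) * q ^ 2) := by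
        refine (dvd_add_right ?_).1 h7
        exact Dvd.dvd.mul_right (by rw [show 2 * (n + 1) = 2 * n + 2 by ring]) _
      have h9 : kap k ^ (2 * n + 1) * kap k ∣ kap k ^ (2 * n + 1) * ((X 1 ^ 2 - 4) * q ^ 2) := by
        rw [← pow_succ]
        exact h8
      have h10 := (h2 k _).2 ((mul_dvd_mul_iff_left (pow_ne_zero _ hkap)).1 h9)
      rw [map_mul, map_pow] at h10
      have h11 : resA k q = 0 := by
        rcases mul_eq_zero.1 h10 with h12 | h12
        · exact absurd h12 (p_two_delta k)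
        · exact pow_eq_zero_iff (two_ne_zero) |>.1 h12
      obtain ⟨q', rfl⟩ := (h2 k _).1 h11
      rw [hfac (n + 1) (2 * n + 2) Q _ (by omega) hq, hmk, pow_succ, ← mul_assoc]
      exact dvd_mul_right _ _
  have hP0 : P' = 0 := hTR.sep _ fun n => (claim n).1
  have hR0 : R' = 0 := hTR.sep _ fun n => (claim n).2.1
  have hQ0 : Q = 0 := hTR.sep _ fun n => (claim n).2.2
  have hδ0 : δ ≠ 0 := by
    intro h
    have h7 := congrArg (β 1) h
    rw [hδ, map_sub, map_pow, hy, hβy, map_ofNat, map_zero,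
      ← map_ofNat (Ideal.Quotient.mk (Ideal.span {kap k ^ 1})), ← map_pow, ← map_sub, hmk, pow_one] at h7
    exact p_two_delta k ((h2 k _).2 h7)
  have hPz : P = 0 := by
    rw [hP', hQ0, mul_zero, add_zero] at hP0
    exact (mul_eq_zero.1 hP0).resolve_left hδ0
  have hRz : R = 0 := by
    rw [hR', hQ0, mul_zero, add_zero] at hR0
    exact (mul_eq_zero.1 hR0).resolve_left hδ0
  have ea : T (a * u) = T a := by
    have := hP.symm.trans hPz
    rw [hx] at this
    exact sub_eq_zero.1 this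
  have eb : T (b * u) = T b := by
    have := hQ.symm.trans hQ0
    rw [hy] at this
    exact sub_eq_zero.1 this
  have eab : T (a * b * u) = T (a * b) := by
    have := hR.symm.trans hRz
    rw [hz] at this
    exact sub_eq_zero.1 this
  have hfg : ∀ g : Fr, T (f g * u) = T (f g) := by
    intro g
    obtain ⟨c0, c1, c2, c3, h⟩ := p_two_all hT f g
    have e1 := h u
    have e2 := h 1
    rw [← ha, ← hb] at e1 e2
    simp only [mul_one] at e2
    rw [hT.one] at e2
    rw [hu, ea, eb, ← mul_assoc a b u, eab] at e1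
    rw [e1, e2]
  intro g
  have hsub : T (g * u) - T g = 0 := by
    refine hTR.sep _ fun n => ?_
    obtain ⟨Γ, hΓ⟩ : ∃ Γ, Γ = (commutator Λ).lowerCentralSeries (2 * n) := ⟨_, rfl⟩
    have hnor : Γ.Normal := by
      rw [hΓ]
      infer_instance
    have hsup : f.range ⊔ Γ = ⊤ := by
      rw [hΓ]
      exact hemb.sup _
    have hex : ∀ l : Λ, ∃ l₀ : Fr, f l₀ * l⁻¹ ∈ Γ := by
      intro l
      have hl : l ∈ f.range ⊔ Γ := by
        rw [hsup]
        exact Subgroup.mem_top _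
      obtain ⟨w, ⟨l₀, rfl⟩, c, hc, rfl⟩ := Subgroup.mem_sup_of_normal_right.1 hl
      refine ⟨l₀, ?_⟩
      rw [mul_inv_rev, ← mul_assoc]
      exact hnor.conj_mem _ (Γ.inv_mem hc) _
    obtain ⟨g₀, hg₀⟩ := hex g
    obtain ⟨u₀, hu₀⟩ := hex u
    have c1 : f (g₀ * u₀) * (g * u)⁻¹ ∈ Γ := by
      have e : f (g₀ * u₀) * (g * u)⁻¹ = (f g₀ * (f u₀ * u⁻¹) * (f g₀)⁻¹) * (f g₀ * g⁻¹) := by
        rw [map_mul]
        group
      rw [e]
      exact Γ.mul_mem (hnor.conj_mem _ hu₀ _) hg₀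
    have c2 : f (g₀ * u₀) * (f g₀ * u)⁻¹ ∈ Γ := by
      have e : f (g₀ * u₀) * (f g₀ * u)⁻¹ = f g₀ * (f u₀ * u⁻¹) * (f g₀)⁻¹ := by
        rw [map_mul]
        group
      rw [e]
      exact hnor.conj_mem _ hu₀ _
    rw [hΓ] at c1 c2 hg₀
    rw [map_sub, hTR.beta n _ _ c1, ← hTR.beta n _ _ c2, hfg, hTR.beta n _ _ hg₀, hβf, sub_self]
  exact sub_eq_zero.1 hsub

end Pool.Agent.F2
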