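import Pool.Agent.Lib.MP_305fdd_al.F2.StmG
import Pool.Agent.Lib.MP_305fdd_al.CC.PCharFin

/-!
# MP_305fdd_al, F_2: [GB uni]
-/

set_option autoImplicit false

namespace Pool.Agent.F2

open MvPolynomial Pool.Agent.Lib.MP_305fdd_al Pool.Agent.MP_305fdd_al
open scoped commutatorElement

private theorem p_uni_pc (k : Type) [Field k] (G : Type) [Group G] :
    PC (tu k : G → Uni k G) := by
  have hz : ∀ q ∈ relS k G, Ideal.Quotient.mk (Ideal.span (relS k G)) q = 0 := fun q hq =>
    Ideal.Quotient.eq_zero_iff_mem.2 (Ideal.subset_span hq)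
  refine ⟨?_, fun g h => ?_, fun g h => ?_⟩
  · have h1 := hz (X 1 - 2) (Or.inl rfl)
    rw [map_sub, map_ofNat] at h1
    exact sub_eq_zero.1 h1
  · have h1 := hz (X (g * h) - X (h * g)) (Or.inr (Or.inl ⟨g, h, rfl⟩))
    rw [map_sub] at h1
    exact sub_eq_zero.1 h1
  · have h1 := hz (X (g * h) + X (g * h⁻¹) - X g * X h) (Or.inr (Or.inr ⟨g, h, rfl⟩))
    rw [map_sub, map_add, map_mul] at h1
    exact sub_eq_zero.1 h1

private theorem p_uni_adj (k : Type) [Field k] (G : Type) [Group G] :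
    Algebra.adjoin k (Set.range (tu k : G → Uni k G)) = ⊤ := by
  have h1 : Set.range (tu k : G → Uni k G) =
      (Ideal.Quotient.mkₐ k (Ideal.span (relS k G))) '' Set.range (X : G → MvPolynomial G k) := by
    rw [← Set.range_comp]
    rfl
  rw [h1, ← AlgHom.map_adjoin, MvPolynomial.adjoin_range_X, Algebra.map_top,
    AlgHom.range_eq_top]
  exact Ideal.Quotient.mkₐ_surjective k _

theorem p_uni (h1 : S_br) : S_uni := by
  refine ⟨fun k _ G _ => ⟨p_uni_pc k G, p_uni_adj k G, fun R _ _ T hT => ?_⟩,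
    fun k _ G _ _ => ?_⟩
  · refine ⟨Ideal.Quotient.liftₐ (Ideal.span (relS k G)) (aeval T) ?_, fun g => ?_⟩
    · intro q hq
      have hle : Ideal.span (relS k G) ≤ RingHom.ker (aeval T : MvPolynomial G k →ₐ[k] R) := by
        rw [Ideal.span_le]
        rintro q (rfl | ⟨g, h, rfl⟩ | ⟨g, h, rfl⟩)
        · rw [SetLike.mem_coe, RingHom.mem_ker, map_sub, aeval_X, map_ofNat, hT.one, sub_self]
        · rw [SetLike.mem_coe, RingHom.mem_ker, map_sub, aeval_X, aeval_X, hT.comm, sub_self]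
        · rw [SetLike.mem_coe, RingHom.mem_ker, map_sub, map_add, map_mul, aeval_X, aeval_X,
            aeval_X, aeval_X, hT.rel, sub_self]
      exact hle hq
    · show Ideal.Quotient.liftₐ (Ideal.span (relS k G)) (aeval T) _
        (Ideal.Quotient.mk (Ideal.span (relS k G)) (X g)) = T g
      rw [Ideal.Quotient.liftₐ_apply, Ideal.Quotient.lift_mk]
      exact aeval_X T g
  · have hT : CC.PChar (1 : G →* kˣ) (tu k : G → Uni k G) := (h1 k G (Uni k G) _).1.1 (p_uni_pc k G)
    have h2 := hT.fg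
    rw [p_uni_adj] at h2
    exact ⟨h2⟩

end Pool.Agent.F2
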