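import Pool.Agent.Lib.MP_305fdd_al.F2.StmG
import Pool.Agent.Lib.MP_305fdd_al.PSL.Ideals

set_option autoImplicit false

namespace Pool.Agent.F2

open MvPolynomial Pool.Agent.Lib.MP_305fdd_al Pool.Agent.MP_305fdd_al

theorem p_corr : S_corr := by
  intro G H _ _ Φ R
  refine ⟨?_, ?_⟩
  · rintro T₁ T₂ T₁' T₂' ⟨Q₁, i₁, j₁, π₁, τ₁, h₁, h₁'⟩ ⟨Q₂, i₂, j₂, π₂, τ₂, h₂, h₂'⟩
    have A : ∀ h, ∃ g, T₁ g = T₁' h ∧ T₂ g = T₂' h := by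
      intro h
      obtain ⟨g, e1, e2⟩ := PSL2Z.joint Φ π₁ π₂ h
      exact ⟨g, by rw [h₁, h₁', e1], by rw [h₂, h₂', e2]⟩
    have B : ∀ g, ∃ h, T₁' h = T₁ g ∧ T₂' h = T₂ g := by
      intro g
      obtain ⟨h, e1, e2⟩ := PSL2Z.joint' Φ π₁ π₂ g
      exact ⟨h, by rw [h₁, h₁', e1], by rw [h₂, h₂', e2]⟩
    refine ⟨A, B, fun h => ?_, fun h => ?_⟩
    · funext k
      obtain ⟨g, e1, e2⟩ := A k
      rw [← e1, ← e2, h]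
    · funext g
      obtain ⟨k, e1, e2⟩ := B g
      rw [← e1, ← e2, h]
  · rintro S φ T T' ⟨Q, i, j, π, τ, h, h'⟩
    exact ⟨Q, i, j, π, fun q => φ (τ q), fun g => congrArg φ (h g), fun k => congrArg φ (h' k)⟩

end Pool.Agent.F2
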