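import Pool.Agent.Lib.MP_305fdd_al.F2.StmG

/-!
# MP_305fdd_al (`F_2`), section G: piece `bcn`
-/

set_option autoImplicit false

namespace Pool.Agent.F2

open MvPolynomial Pool.Agent.Lib.MP_305fdd_al Pool.Agent.MP_305fdd_al
open scoped commutatorElement

private theorem p_bcn_fin {A B : Type} [CommRing A] [CommRing B] (f : A →+* B) :
    f.Finite ↔ ∃ s : Finset B, ∀ b, ∃ a : B → A, b = ∑ t ∈ s, f (a t) * t := by
  classical
  let _ := f.toAlgebra
  constructor
  · intro h
    have h' : Module.Finite A B := h
    obtain ⟨s, hs⟩ := h'.fg_top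
    refine ⟨s, fun b => ?_⟩
    have hb : b ∈ Submodule.span A (s : Set B) := by
      rw [hs]
      exact Submodule.mem_top
    obtain ⟨a, -, ha⟩ := Submodule.mem_span_finset.1 hb
    exact ⟨a, ha.symm⟩
  · rintro ⟨s, hs⟩
    have h' : Module.Finite A B := by
      refine ⟨⟨s, ?_⟩⟩
      rw [eq_top_iff]
      intro b _
      obtain ⟨a, rfl⟩ := hs b
      refine Submodule.sum_mem _ fun t ht => ?_
      exact Submodule.smul_mem _ (a t) (Submodule.subset_span ht)
    exact h'

section

variable (p : ℕ) [hp : Fact p.Prime] (k : Type) [Field k] [CharP k p] [PerfectRing k p]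

private theorem p_bcn_rt_mul (x y : k) : rt p k (x * y) = rt p k x * rt p k y :=
  map_mul (frobeniusEquiv k p).symm x y

private theorem p_bcn_rt_pow (x : k) : rt p k (x ^ p) = x := by
  have h := (frobeniusEquiv k p).symm_apply_apply x
  rwa [frobeniusEquiv_apply, frobenius_def] at h

private theorem p_bcn_rt_cast (z : ZMod p) :
    rt p k (ZMod.castHom (dvd_refl p) k z) = ZMod.castHom (dvd_refl p) k (rt p (ZMod p) z) := by
  have h1 : z = z ^ p := (ZMod.pow_card z).symm
  have h2 : rt p (ZMod p) z = z := by
    conv_lhs => rw [h1]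
    exact p_bcn_rt_pow p (ZMod p) z
  rw [h2]
  conv_lhs => rw [h1, map_pow]
  exact p_bcn_rt_pow p k _

private theorem p_bcn_psi_C (x : k) (q : Ak k) :
    psik p k (C x * q) = C (rt p k x) * psik p k q := by
  ext w
  unfold psik
  rw [coeff_compk, coeff_C_mul, coeff_C_mul, coeff_compk, p_bcn_rt_mul]

private theorem p_bcn_psi_inc (q : Ak (ZMod p)) :
    psik p k (inc p k q) = inc p k (psik p (ZMod p) q) := by
  ext w
  unfold psik inc
  rw [coeff_compk, coeff_map, coeff_map, coeff_compk, p_bcn_rt_cast]

private theorem p_bcn_cart_zero {D : Type} [CommRing D] (n : ℕ) :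
    (cartk p k)^[n] (fun _ : D => (0 : Ak k)) = fun _ => 0 := by
  induction n with
  | zero => rfl
  | succ n ih =>
    rw [Function.iterate_succ_apply', ih]
    funext b
    exact map_zero _

private theorem p_bcn_cart_mono {D : Type} [CommRing D] {l : D → Ak k} {N n : ℕ}
    (h : ∀ c, (cartk p k)^[N] l c = 0) (hn : N ≤ n) (c : D) : (cartk p k)^[n] l c = 0 := by
  obtain ⟨m, rfl⟩ := Nat.exists_eq_add_of_le' hn
  rw [Function.iterate_add_apply]
  have h1 : (cartk p k)^[N] l = fun _ => 0 := funext h
  rw [h1, p_bcn_cart_zero]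

/-- additive and `k`-linear -/
private theorem p_bcn_cart_lin {D : Type} [CommRing D] [Algebra k D] (l : D → Ak k)
    (hadd : ∀ b c, l (b + c) = l b + l c) (hsm : ∀ (x : k) b, l (x • b) = C x * l b) (n : ℕ) :
    (∀ b c, (cartk p k)^[n] l (b + c) = (cartk p k)^[n] l b + (cartk p k)^[n] l c) ∧
    ∀ (x : k) b, (cartk p k)^[n] l (x • b) = C x * (cartk p k)^[n] l b := by
  have hfr : ∀ b c : D, (b + c) ^ p = b ^ p + c ^ p := by
    intro b c
    rcases subsingleton_or_nontrivial D with hD | hD
    · exact Subsingleton.elim _ _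
    · have : CharP D p := charP_of_injective_algebraMap (algebraMap k D).injective p
      exact add_pow_char b c (p := p)
  induction n with
  | zero => exact ⟨hadd, hsm⟩
  | succ n ih =>
    rw [Function.iterate_succ_apply']
    refine ⟨fun b c => ?_, fun x b => ?_⟩
    · change psik p k ((cartk p k)^[n] l ((b + c) ^ p)) = psik p k ((cartk p k)^[n] l (b ^ p)) +
        psik p k ((cartk p k)^[n] l (c ^ p))
      rw [hfr, ih.1, map_add]
    · change psik p k ((cartk p k)^[n] l ((x • b) ^ p)) =
        C x * psik p k ((cartk p k)^[n] l (b ^ p))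
      rw [smul_pow, ih.2, p_bcn_psi_C, p_bcn_rt_pow]

end

theorem p_bcn (h1 : S_bas) : S_bcn := by
  classical
  intro p _ k _ _ _ D _ _ D' _ _ ψ hψ x g hNP
  obtain ⟨S, c, -, hu, -⟩ := h1 p k
  have hι : ∀ a, ψ (aeval (fun i => x i + g i ^ p) a) =
      aeval (fun i => ψ (x i) + ψ (g i) ^ p) (inc p k a) := by
    intro a
    have h : ψ.comp ((aeval (fun i => x i + g i ^ p) : Ak (ZMod p) →ₐ[ZMod p] D) :
        Ak (ZMod p) →+* D) =
        ((aeval (fun i => ψ (x i) + ψ (g i) ^ p) : Ak k →ₐ[k] D') : Ak k →+* D').comp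
          (inc p k) := by
      refine MvPolynomial.ringHom_ext' (Subsingleton.elim _ _) (fun i => ?_)
      change ψ (aeval (fun i => x i + g i ^ p) (X i : Ak (ZMod p))) =
        aeval (fun i => ψ (x i) + ψ (g i) ^ p) (inc p k (X i))
      unfold inc
      rw [aeval_X, map_X, aeval_X, map_add, map_pow]
    exact congrArg (fun q => q a) h
  have hC : ∀ (y : k) (b : D'), y • b =
      aeval (fun i => ψ (x i) + ψ (g i) ^ p) (C y : Ak k) * b := by
    intro y b
    rw [aeval_C, Algebra.smul_def]
  obtain ⟨s0, hs0⟩ := (p_bcn_fin _).1 hNP.fin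
  have hs0' : ∀ b : D, ∃ a : D → Ak (ZMod p),
      b = ∑ t ∈ s0, aeval (fun i => x i + g i ^ p) (a t) * t := hs0
  refine ⟨?_, ?_⟩
  · let ι' : Ak k →+* D' := ((aeval (fun i => ψ (x i) + ψ (g i) ^ p) : Ak k →ₐ[k] D') :
      Ak k →+* D')
    let _ := ι'.toAlgebra
    have hfin : Module.Finite (Ak k) D' := by
      refine ⟨⟨s0.image ψ, ?_⟩⟩
      rw [eq_top_iff]
      intro b _
      have hb : b ∈ Submodule.span k (Set.range ψ) := by
        rw [hψ]
        exact Submodule.mem_top
      induction hb using Submodule.span_induction with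
      | mem y hy =>
        obtain ⟨d, rfl⟩ := hy
        obtain ⟨a, ha⟩ := hs0' d
        rw [ha, map_sum]
        refine Submodule.sum_mem _ fun t ht => ?_
        rw [map_mul, hι]
        exact Submodule.smul_mem _ (inc p k (a t)) (Submodule.subset_span
          (Finset.mem_coe.2 (Finset.mem_image_of_mem ψ ht)))
      | zero => exact Submodule.zero_mem _
      | add y z _ _ hy hz => exact Submodule.add_mem _ (hy trivial) (hz trivial)
      | smul y z _ hz =>
        rw [hC]
        exact Submodule.smul_mem _ (C y) (hz trivial)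
    exact hfin
  · intro l' hl'
    choose bb hbb hbu using hu
    have hbadd : ∀ a a', bb (a + a') = bb a + bb a' := by
      intro a a'
      refine (hbu (a + a') _ ?_).symm
      simp only
      rw [Finsupp.sum_add_index' (fun s => by rw [map_zero, mul_zero])
        (fun s _ _ => by rw [map_add, mul_add])]
      exact congrArg₂ (· + ·) (hbb a) (hbb a')
    have hbmul : ∀ q a, bb (inc p k q * a) = q • bb a := by
      intro q a
      refine (hbu _ _ ?_).symm
      simp only
      rw [Finsupp.sum_smul_index (fun s => by rw [map_zero, mul_zero])]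
      have h := hbb a
      simp only at h
      conv_lhs => rw [h]
      rw [Finsupp.sum, Finsupp.sum, Finset.mul_sum]
      refine Finset.sum_congr rfl fun s _ => ?_
      rw [map_mul]
      ring
    have hbz : bb 0 = 0 := by
      have h := hbadd 0 0
      rw [add_zero] at h
      exact left_eq_add.1 h
    let ls : S → (D →+ Ak (ZMod p)) := fun s =>
      { toFun := fun d => bb (l' (ψ d)) s
        map_zero' := by rw [map_zero, map_zero, hbz, Finsupp.zero_apply]
        map_add' := fun d d' => by rw [map_add, map_add, hbadd, Finsupp.add_apply] }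
    have hls : ∀ s d, ls s d = bb (l' (ψ d)) s := fun s d => rfl
    have hlin : ∀ s (a : Ak (ZMod p)) (d : D),
        ls s (aeval (fun i => x i + g i ^ p) a * d) = a * ls s d := by
      intro s a d
      rw [hls, hls, map_mul, hι, hl', hbmul, Finsupp.smul_apply, smul_eq_mul]
    have hnil : ∀ s, ∃ N : ℕ, ∀ d : D, ((cartk p (ZMod p))^[N] (ls s : D → Ak (ZMod p))) d = 0 :=
      fun s => hNP.nil (ls s) (hlin s)
    choose Nf hNf using hnil
    let S0 : Finset S := s0.biUnion fun t => (bb (l' (ψ t))).support
    have hS0 : ∀ s, s ∉ S0 → ∀ d, ls s d = 0 := by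
      intro s hs d
      obtain ⟨a, rfl⟩ := hs0' d
      rw [map_sum]
      refine Finset.sum_eq_zero fun t ht => ?_
      rw [hlin]
      have h2 : ls s t = 0 := by
        by_contra hne
        exact hs (Finset.mem_biUnion.2 ⟨t, ht, Finsupp.mem_support_iff.2 hne⟩)
      rw [h2, mul_zero]
    have hA : ∀ (n : ℕ) (d : D), (cartk p k)^[n] (l' : D' → Ak k) (ψ d) =
        ∑ s ∈ S0, C ((rt p k)^[n] (c s)) *
          inc p k ((cartk p (ZMod p))^[n] (ls s : D → Ak (ZMod p)) d) := by
      intro n
      induction n with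
      | zero =>
        intro d
        have h2 := hbb (l' (ψ d))
        simp only at h2
        rw [Finsupp.sum_of_support_subset (s := S0) _ (fun s hs => by
          by_contra hns
          exact (Finsupp.mem_support_iff.1 hs) (hS0 s hns d)) _
          (fun s _ => by rw [map_zero, mul_zero])] at h2
        exact h2
      | succ n ih =>
        intro d
        rw [Function.iterate_succ_apply']
        change psik p k ((cartk p k)^[n] (l' : D' → Ak k) ((ψ d) ^ p)) = _
        rw [← map_pow, ih, map_sum]
        refine Finset.sum_congr rfl fun s _ => ?_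
        rw [p_bcn_psi_C, p_bcn_psi_inc, Function.iterate_succ_apply',
          Function.iterate_succ_apply']
        rfl
    refine ⟨S0.sup Nf, fun b => ?_⟩
    obtain ⟨hadd, hsm⟩ := p_bcn_cart_lin p k (l' : D' → Ak k) (map_add l')
      (fun y b => by rw [hC, hl']) (S0.sup Nf)
    have hb : b ∈ Submodule.span k (Set.range ψ) := by
      rw [hψ]
      exact Submodule.mem_top
    induction hb using Submodule.span_induction with
    | mem y hy =>
      obtain ⟨d, rfl⟩ := hy
      rw [hA]
      refine Finset.sum_eq_zero fun s hs => ?_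
      rw [p_bcn_cart_mono p (ZMod p) (hNf s) (Finset.le_sup hs), map_zero, mul_zero]
    | zero =>
      have h2 := hadd 0 0
      rw [add_zero] at h2
      exact left_eq_add.1 h2
    | add y z _ _ hy hz => rw [hadd, hy, hz, add_zero]
    | smul y z _ hz => rw [hsm, hz, mul_zero]

end Pool.Agent.F2
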