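import Pool.Agent.Lib.MP_305fdd_al.F2.StmG

set_option autoImplicit false

namespace Pool.Agent.F2

open MvPolynomial Pool.Agent.Lib.MP_305fdd_al Pool.Agent.MP_305fdd_al
open scoped commutatorElement
open Pool.Agent.F2TF (fpow)

private theorem p_loc_krull {B : Type} [CommRing B] [IsNoetherianRing B] (κ : B) (m : Ideal B)
    (b : B) (h : ∀ n : ℕ, ∃ b', b - κ * b' ∈ m ^ n) : ∃ r ∈ m, ∃ c, (1 - r) * b = κ * c := by
  have hx : (Ideal.Quotient.mk (Ideal.span {κ}) b) ∈
      (⨅ i : ℕ, m ^ i • ⊤ : Submodule B (B ⧸ Ideal.span {κ})) := by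
    rw [Submodule.mem_iInf]
    intro n
    obtain ⟨b', hb'⟩ := h n
    have h1 : Ideal.Quotient.mk (Ideal.span {κ}) b =
        (b - κ * b') • (1 : B ⧸ Ideal.span {κ}) := by
      rw [Algebra.smul_def, mul_one, Ideal.Quotient.algebraMap_eq, map_sub, map_mul,
        Ideal.Quotient.eq_zero_iff_mem.2 (Ideal.mem_span_singleton_self κ), zero_mul, sub_zero]
    rw [h1]
    exact Submodule.smul_mem_smul hb' Submodule.mem_top
  rw [Ideal.mem_iInf_smul_pow_eq_bot_iff] at hx
  obtain ⟨⟨r, hr⟩, hrb⟩ := hx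
  refine ⟨r, hr, ?_⟩
  have h2 : Ideal.Quotient.mk (Ideal.span {κ}) ((1 - r) * b) = 0 := by
    rw [Algebra.smul_def, Ideal.Quotient.algebraMap_eq] at hrb
    rw [sub_mul, one_mul, map_sub, map_mul]
    simp only at hrb
    rw [hrb, sub_self]
  rw [Ideal.Quotient.eq_zero_iff_mem, Ideal.mem_span_singleton'] at h2
  obtain ⟨c, hc⟩ := h2
  exact ⟨c, by rw [← hc, mul_comm]⟩

private theorem p_loc_alg {B : Type} [CommRing B] [IsNoetherianRing B] (I : Ideal B) (κ : B)
    (h : ∀ m : Ideal B, m.IsMaximal → I ≤ m → ∀ b ∈ I, ∀ n : ℕ, ∃ b', b - κ * b' ∈ m ^ n) :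
    ∃ e : B, 1 - e ∈ I ∧ ∀ b ∈ I, ∃ c, e * b = κ * c := by
  classical
  set E : Ideal B := { carrier := {e | ∀ b ∈ I, ∃ c, e * b = κ * c}
                       add_mem' := by
                         intro x y hx hy b hb
                         obtain ⟨c, hc⟩ := hx b hb
                         obtain ⟨d, hd⟩ := hy b hb
                         exact ⟨c + d, by rw [add_mul, hc, hd, mul_add]⟩
                       zero_mem' := by
                         intro b _
                         exact ⟨0, by rw [zero_mul, mul_zero]⟩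
                       smul_mem' := by
                         intro a x hx b hb
                         obtain ⟨c, hc⟩ := hx b hb
                         exact ⟨a * c, by rw [smul_eq_mul, mul_assoc, hc]; ring⟩ } with hE
  have hEmem : ∀ e : B, e ∈ E ↔ ∀ b ∈ I, ∃ c, e * b = κ * c := fun e => Iff.rfl
  have htop : E ⊔ I = ⊤ := by
    by_contra hne
    obtain ⟨m, hm, hle⟩ := Ideal.exists_le_maximal _ hne
    have hEm : E ≤ m := le_sup_left.trans hle
    have hIm : I ≤ m := le_sup_right.trans hle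
    obtain ⟨s, hs⟩ := (isNoetherianRing_iff_ideal_fg B).1 inferInstance I
    have hsI : ∀ b ∈ s, b ∈ I := by
      intro b hb
      rw [← hs]
      exact Ideal.subset_span hb
    have hex : ∀ b : B, ∃ r : B, r ∈ m ∧ (b ∈ s → ∃ c, (1 - r) * b = κ * c) := by
      intro b
      by_cases hb : b ∈ s
      · obtain ⟨r, hr, hc⟩ := p_loc_krull κ m b (h m hm hIm b (hsI b hb))
        exact ⟨r, hr, fun _ => hc⟩
      · exact ⟨0, m.zero_mem, fun hb' => absurd hb' hb⟩
    choose r hr hrc using hex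
    have he : ∏ b ∈ s, (1 - r b) ∈ E := by
      rw [hEmem]
      have hspan : ∀ x ∈ Ideal.span (s : Set B), ∃ c, (∏ b ∈ s, (1 - r b)) * x = κ * c := by
        intro x hx
        refine Submodule.span_induction ?_ ?_ ?_ ?_ hx
        · intro b hb
          obtain ⟨c, hc⟩ := hrc b hb
          refine ⟨(∏ b' ∈ s.erase b, (1 - r b')) * c, ?_⟩
          rw [← Finset.prod_erase_mul s _ hb, mul_assoc, hc]
          ring
        · exact ⟨0, by rw [mul_zero, mul_zero]⟩
        · rintro x y _ _ ⟨c, hc⟩ ⟨d, hd⟩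
          exact ⟨c + d, by rw [mul_add, hc, hd, mul_add]⟩
        · rintro a x _ ⟨c, hc⟩
          exact ⟨a * c, by rw [smul_eq_mul, mul_left_comm, hc]; ring⟩
      intro b hb
      exact hspan b (by rw [show Ideal.span (s : Set B) = I from hs]; exact hb)
    have he' := hEm he
    have hprime := hm.isPrime
    rw [hprime.prod_mem_iff] at he'
    obtain ⟨b, _, hb⟩ := he'
    have h1 : (1 : B) ∈ m := by
      have := m.add_mem hb (hr b)
      rwa [sub_add_cancel] at this
    exact hm.ne_top ((Ideal.eq_top_iff_one m).2 h1)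
  have h1 : (1 : B) ∈ E ⊔ I := by rw [htop]; exact Submodule.mem_top
  obtain ⟨e, he, i, hi, hei⟩ := Submodule.mem_sup.1 h1
  refine ⟨e, ?_, (hEmem e).1 he⟩
  rw [← hei, add_sub_cancel_left]
  exact hi

private theorem p_loc_fpow {B : Type} [CommRing B] (q : ℕ) (m : Ideal B) : fpow q m ≤ m ^ q := by
  unfold fpow
  rw [Ideal.span_le]
  rintro _ ⟨a, ha, rfl⟩
  exact Ideal.pow_mem_pow ha q

theorem p_loc (h1 : S_frb) (h2 : S_uni) : S_loc := by
  intro p hp Λ _ _ f cl hEmb hS D _ _ T β hTR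
  obtain ⟨hpc, hadj, huniv⟩ := h2.1 (ZMod p) Λ
  have hft : Algebra.FiniteType (ZMod p) (Uni (ZMod p) Λ) := h2.2 (ZMod p) Λ
  have hN : IsNoetherianRing (Uni (ZMod p) Λ) := Algebra.FiniteType.isNoetherianRing (ZMod p) _
  obtain ⟨φ, hφ⟩ := huniv D T hTR.pc
  have hsurj : Function.Surjective φ := by
    rw [← AlgHom.range_eq_top, eq_top_iff, ← hTR.gen]
    refine Algebra.adjoin_le ?_
    rintro _ ⟨g, rfl⟩
    exact ⟨tu (ZMod p) g, hφ g⟩
  have hfr := h1 p Λ f cl hEmb hS (fun n => (β n).comp φ)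
    (by
      intro n g l hl
      rw [AlgHom.comp_apply, hφ]
      exact hTR.beta n g l hl)
    (by
      intro m n hmn b
      rw [AlgHom.comp_apply, AlgHom.comp_apply]
      exact hTR.compat m n hmn (φ b))
  obtain ⟨e, he1, he2⟩ := p_loc_alg (RingHom.ker ((β 1).comp φ))
    (tu (ZMod p) ⁅f gx, f gy⁆ - 2) (by
      intro m hm hIm b hb n
      obtain ⟨b', hb'⟩ := hfr m hm hIm n b hb
      refine ⟨b', ?_⟩
      have h3 := p_loc_fpow _ _ hb'
      exact Ideal.pow_le_pow_right (Nat.lt_pow_self hp.out.one_lt).le h3)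
  refine ⟨φ e, ?_, ?_⟩
  · have h4 : ((β 1).comp φ) (1 - e) = 0 := he1
    rw [map_sub, map_one, sub_eq_zero] at h4
    exact h4.symm
  · intro b hb
    obtain ⟨b0, rfl⟩ := hsurj b
    obtain ⟨c, hc⟩ := he2 b0 hb
    refine ⟨φ c, ?_⟩
    rw [← map_mul, hc, map_mul, map_sub, hφ, map_ofNat]

end Pool.Agent.F2
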